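import Pool.Agent.TSU.Targets

set_option autoImplicit false

/-!
# TSU: REG, the size conditions hold for large `n`
-/

open Finset Filter

namespace Pool.Agent.TSU

theorem p_REG : T_REG := by
  intro K
  have h1 : Tendsto (fun n : ℕ => Real.log (n : ℝ)) atTop atTop :=
    Real.tendsto_log_atTop.comp tendsto_natCast_atTop_atTop
  have h2 : Tendsto (fun n : ℕ => Real.log (Real.log (n : ℝ))) atTop atTop :=
    Real.tendsto_log_atTop.comp h1
  have h3 : ∀ᶠ x : ℝ in atTop, 10 ^ 6 * (Real.log x) ^ 6 ≤ x := by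
    have h := (Real.isLittleO_pow_log_id_atTop (n := 6)).bound
      (show (0 : ℝ) < 1 / 10 ^ 6 by positivity)
    filter_upwards [h, eventually_ge_atTop (1 : ℝ)] with x hx hx1
    rw [Real.norm_eq_abs, Real.norm_eq_abs, id, abs_of_nonneg (show (0 : ℝ) ≤ x by linarith),
      abs_of_nonneg (pow_nonneg (Real.log_nonneg hx1) 6)] at hx
    linarith
  have h4 : ∀ᶠ n : ℕ in atTop, 10 ^ 6 * (Real.log (Real.log (n : ℝ))) ^ 6 ≤ Real.log n :=
    h1.eventually h3
  have h5 : ∀ᶠ n : ℕ in atTop, max 1 K ≤ Real.log (Real.log (n : ℝ)) :=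
    h2.eventually (eventually_ge_atTop (max 1 K))
  obtain ⟨n0, hn0⟩ := eventually_atTop.1 (h4.and h5)
  refine ⟨n0, fun n hn => ?_⟩
  obtain ⟨h6, h7⟩ := hn0 n hn
  exact ⟨⟨rfl, rfl, (le_max_left _ _).trans h7, h6⟩, (le_max_right _ _).trans h7⟩

end Pool.Agent.TSU
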