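import Pool.Agent.TSU.Targets

/-!
# TSU: RHO3, three linear forms have three bad residue classes
-/

set_option autoImplicit false

open Finset

namespace Pool.Agent.TSU

open Pool.Agent.TSP (Per rho)

namespace RHO3_

lemma lin (p t : ℕ) (α β : ℤ) :
    (p : ℤ) ∣ α * ((t % p : ℕ) : ℤ) + β ↔ (p : ℤ) ∣ α * t + β := by
  have h1 : ((t % p : ℕ) : ℤ) + p * ((t / p : ℕ) : ℤ) = t := by
    exact_mod_cast Nat.mod_add_div t p
  have h : α * (t : ℤ) + β = (α * ((t % p : ℕ) : ℤ) + β) + p * (α * ((t / p : ℕ) : ℤ)) := by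
    linear_combination (-α) * h1
  rw [h]
  exact (dvd_add_left (Dvd.intro _ rfl)).symm

lemma root {p : ℕ} [Fact p.Prime] {α β : ℤ} (hα : (α : ZMod p) ≠ 0) (t : ℕ) :
    (p : ℤ) ∣ α * t + β ↔ (t : ZMod p) = -(β : ZMod p) / α := by
  rw [← ZMod.intCast_zmod_eq_zero_iff_dvd, eq_div_iff hα]
  push_cast
  constructor
  · intro h
    linear_combination h
  · intro h
    linear_combination h

lemma ne {p : ℕ} [Fact p.Prime] {α β γ δ : ℤ} (hα : (α : ZMod p) ≠ 0) (hγ : (γ : ZMod p) ≠ 0)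
    (h : (α : ZMod p) * δ - γ * β ≠ 0) : -(β : ZMod p) / α ≠ -(δ : ZMod p) / γ := by
  intro he
  rw [div_eq_div_iff hα hγ] at he
  exact h (by linear_combination he)

end RHO3_

open RHO3_ in
theorem p_RHO3 : T_RHO3 := by
  classical
  intro α₁ β₁ α₂ β₂ α₃ β₃
  refine ⟨fun l t => ?_, fun p hp h => ?_⟩
  · unfold Bad3
    rw [lin, lin, lin]
  · have : Fact p.Prime := ⟨hp⟩
    have hz : ((α₁ * α₂ * α₃ * (α₁ * β₂ - α₂ * β₁) * (α₁ * β₃ - α₃ * β₁) *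
        (α₂ * β₃ - α₃ * β₂) : ℤ) : ZMod p) ≠ 0 := by
      rwa [Ne, ZMod.intCast_zmod_eq_zero_iff_dvd]
    push_cast at hz
    rw [mul_ne_zero_iff, mul_ne_zero_iff, mul_ne_zero_iff, mul_ne_zero_iff,
      mul_ne_zero_iff] at hz
    obtain ⟨⟨⟨⟨⟨h1, h2⟩, h3⟩, h12⟩, h13⟩, h23⟩ := hz
    set x₁ : ZMod p := -(β₁ : ZMod p) / α₁ with hx₁
    set x₂ : ZMod p := -(β₂ : ZMod p) / α₂ with hx₂
    set x₃ : ZMod p := -(β₃ : ZMod p) / α₃ with hx₃
    have n12 : x₁ ≠ x₂ := ne h1 h2 h12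
    have n13 : x₁ ≠ x₃ := ne h1 h3 h13
    have n23 : x₂ ≠ x₃ := ne h2 h3 h23
    have hc2 : ({x₁, x₂, x₃} : Finset (ZMod p)).card = 3 :=
      Finset.card_eq_three.mpr ⟨x₁, x₂, x₃, n12, n13, n23, rfl⟩
    have hb : ∀ t : ℕ, Bad3 α₁ β₁ α₂ β₂ α₃ β₃ p t ↔
        (t : ZMod p) ∈ ({x₁, x₂, x₃} : Finset (ZMod p)) := by
      intro t
      unfold Bad3
      rw [root h1, root h2, root h3, mem_insert, mem_insert, mem_singleton]
    unfold rho
    rw [← hc2]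
    refine Finset.card_bij (fun t _ => (t : ZMod p)) ?_ ?_ ?_
    · intro t ht
      rw [mem_filter, mem_range] at ht
      exact (hb t).1 ht.2
    · intro s hs t ht hst
      rw [mem_filter, mem_range] at hs ht
      have h := (ZMod.natCast_eq_natCast_iff' s t p).1 hst
      rwa [Nat.mod_eq_of_lt hs.1, Nat.mod_eq_of_lt ht.1] at h
    · intro u hu
      refine ⟨u.val, ?_, ZMod.natCast_zmod_val u⟩
      rw [mem_filter, mem_range]
      refine ⟨ZMod.val_lt u, (hb _).2 ?_⟩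
      rwa [ZMod.natCast_zmod_val]

end Pool.Agent.TSU
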