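import Pool.Agent.TSU.Targets
import Pool.Agent.TSP.Two

/-!
# TSU, target SV3: the sieve for three linear forms
-/

set_option autoImplicit false

open Finset

namespace Pool.Agent.TSU

open Pool.Agent.TSP (Per rho brun mertens prodH one_sub_inv_pos)
open Pool.Agent.Cyclic (pr mem_pr sum_upto pr_mono)

theorem p_SV3 : T_SV3 := by
  classical
  intro bd hper N z r T c bz hN0 h2N hz hc hbz hz2 hcard hrho0
  set P := (pr z).filter (fun l => ¬ l ∣ N) with hP
  have hPp : ∀ l ∈ P, l.Prime := fun l hl => (mem_pr.1 (mem_filter.1 hl).1).2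
  have hPz : ∀ l ∈ P, l ≤ z := fun l hl => (mem_pr.1 (mem_filter.1 hl).1).1
  have hPN : ∀ l ∈ P, ¬ l ∣ N := fun l hl => (mem_filter.1 hl).2
  have hrho : ∀ l ∈ P, rho bd l = 3 := fun l hl => hrho0 l (hPp l hl) (hPz l hl) (hPN l hl)
  have hP3 : ∀ l ∈ P, 3 ≤ l := by
    intro l hl
    have h1 := (hPp l hl).two_le
    rcases Nat.lt_or_ge l 3 with h | h
    · exfalso
      have h3 : l = 2 := by omega
      exact hPN l hl (h3 ▸ h2N)
    · exact h
  have hz1 : (1 : ℝ) ≤ z := by exact_mod_cast (by omega : 1 ≤ z)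
  have hz0 : (0 : ℝ) < z := by linarith
  have hbr := brun hper P hPp 0 T r z hz1
  rw [zero_add] at hbr
  have hsub : cnt (Ioc 0 T) (fun t => ∀ p : ℕ, p.Prime → p ≤ z → ¬ p ∣ N → ¬ bd p t)
      ≤ (((Ioc 0 T).filter (fun t => ∀ l ∈ P, ¬ bd l t)).card : ℝ) := by
    unfold cnt
    have : (Ioc 0 T).filter (fun t => ∀ p : ℕ, p.Prime → p ≤ z → ¬ p ∣ N → ¬ bd p t) ⊆
        (Ioc 0 T).filter (fun t => ∀ l ∈ P, ¬ bd l t) := by
      intro t ht
      rw [mem_filter] at ht ⊢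
      exact ⟨ht.1, fun l hl => ht.2 l (hPp l hl) (hPz l hl) (hPN l hl)⟩
    have h5 := Finset.card_le_card this
    exact_mod_cast h5
  refine hsub.trans (hbr.trans ?_)
  have hlog : 0 < Real.log (z + 1) := Real.log_pos (by linarith)
  -- main term
  have m1 : ∏ l ∈ P, (1 - (rho bd l : ℝ) / l) ≤
      (Real.exp (2 * (9 + 4 * Real.log c)) / Real.log (z + 1)) ^ 3 := by
    have e1 : ∏ l ∈ P, (1 - (rho bd l : ℝ) / l) ≤ ∏ l ∈ P, (1 - 1 / (l : ℝ)) ^ 3 := by
      refine Finset.prod_le_prod (fun l hl => ?_) fun l hl => ?_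
      · have h2 : (3 : ℝ) ≤ l := by exact_mod_cast hP3 l hl
        rw [hrho l hl, sub_nonneg, div_le_one (by linarith)]
        push_cast
        exact h2
      · rw [hrho l hl]
        have h2 : (3 : ℝ) ≤ l := by exact_mod_cast hP3 l hl
        have h3 : (0 : ℝ) ≤ 1 / (l : ℝ) := by positivity
        have h4 : 1 / (l : ℝ) ≤ 1 := by rw [div_le_one (by linarith)]; linarith
        have h5 : (1 - 1 / (l : ℝ)) ^ 3 = 1 - ((3 : ℕ) : ℝ) / l +
            (1 / (l : ℝ)) ^ 2 * (3 - 1 / (l : ℝ)) := by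
          push_cast
          ring
        have h6 : 0 ≤ (1 / (l : ℝ)) ^ 2 * (3 - 1 / (l : ℝ)) :=
          mul_nonneg (by positivity) (by linarith)
        linarith
    rw [Finset.prod_pow] at e1
    refine e1.trans ?_
    have e2 : (∏ l ∈ P, (1 - 1 / (l : ℝ))) * (∏ l ∈ (pr z).filter (fun p => p ∣ N), (1 - 1 / (l : ℝ)))
        = ∏ l ∈ pr z, (1 - 1 / (l : ℝ)) := by
      rw [mul_comm, hP, Finset.prod_filter_mul_prod_filter_not]
    have e3 : 0 < ∏ l ∈ (pr z).filter (fun p => p ∣ N), (1 - 1 / (l : ℝ)) :=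
      Finset.prod_pos fun l hl => one_sub_inv_pos (mem_pr.1 (mem_filter.1 hl).1).2
    have e4 : 0 ≤ ∏ l ∈ P, (1 - 1 / (l : ℝ)) :=
      Finset.prod_nonneg fun l hl => (one_sub_inv_pos (hPp l hl)).le
    apply pow_le_pow_left₀ e4
    have e5 := mertens z
    have e6 := prodH N z c hN0 hc hcard
    rw [le_div_iff₀ hlog]
    have e7 : ∏ l ∈ P, (1 - 1 / (l : ℝ)) = (∏ l ∈ pr z, (1 - 1 / (l : ℝ))) *
        (∏ l ∈ (pr z).filter (fun p => p ∣ N), (1 - 1 / (l : ℝ)))⁻¹ := by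
      rw [← e2, mul_assoc, mul_inv_cancel₀ e3.ne', mul_one]
    calc (∏ l ∈ P, (1 - 1 / (l : ℝ))) * Real.log (z + 1)
        = ((∏ l ∈ pr z, (1 - 1 / (l : ℝ))) * Real.log (z + 1)) *
          (∏ l ∈ (pr z).filter (fun p => p ∣ N), (1 - 1 / (l : ℝ)))⁻¹ := by rw [e7]; ring
      _ ≤ 1 * (∏ l ∈ (pr z).filter (fun p => p ∣ N), (1 - 1 / (l : ℝ)))⁻¹ :=
          mul_le_mul_of_nonneg_right e5 (inv_nonneg.2 e3.le)
      _ ≤ Real.exp (2 * (9 + 4 * Real.log c)) := by rw [one_mul]; exact e6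
  have hsum : ∑ l ∈ P, 1 / (l : ℝ) ≤ 5 + 4 * Real.log bz :=
    (Finset.sum_le_sum_of_subset_of_nonneg ((Finset.filter_subset _ _).trans (pr_mono hz2))
      (fun _ _ _ => by positivity)).trans (sum_upto bz hbz)
  have m2 : ∏ l ∈ P, (1 + Real.exp 1 * ((rho bd l : ℝ) / l)) ≤
      Real.exp (3 * Real.exp 1 * (5 + 4 * Real.log bz)) := by
    have e1 : ∏ l ∈ P, (1 + Real.exp 1 * ((rho bd l : ℝ) / l)) =
        ∏ l ∈ P, (1 + 3 * Real.exp 1 * (1 / (l : ℝ))) := by
      refine Finset.prod_congr rfl fun l hl => ?_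
      rw [hrho l hl]
      push_cast
      ring
    rw [e1]
    refine (Real.prod_one_add_le_exp_sum P (fun l => by positivity)).trans ?_
    apply Real.exp_le_exp.2
    rw [← Finset.mul_sum]
    exact mul_le_mul_of_nonneg_left hsum (by positivity)
  have m3 : ∏ l ∈ P, (1 + (rho bd l : ℝ) / z) ≤ Real.exp 6 := by
    have e1 : ∏ l ∈ P, (1 + (rho bd l : ℝ) / z) = ∏ l ∈ P, (1 + 3 / (z : ℝ)) := by
      refine Finset.prod_congr rfl fun l hl => ?_
      rw [hrho l hl]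
      push_cast
      ring
    rw [e1]
    refine (Real.prod_one_add_le_exp_sum P (fun l => by positivity)).trans ?_
    apply Real.exp_le_exp.2
    rw [Finset.sum_const, nsmul_eq_mul]
    have e2 : P.card ≤ z + 1 := by
      refine (Finset.card_filter_le _ _).trans ((Finset.card_filter_le _ _).trans ?_)
      rw [card_range]
    have e3 : (P.card : ℝ) ≤ z + 1 := by exact_mod_cast e2
    calc (P.card : ℝ) * (3 / z) ≤ (z + 1) * (3 / z) :=
          mul_le_mul_of_nonneg_right e3 (by positivity)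
      _ = 3 + 3 / z := by field_simp
      _ ≤ 3 + 3 / 1 := by
          have : 3 / (z : ℝ) ≤ 3 / 1 := div_le_div_of_nonneg_left (by norm_num) (by norm_num) hz1
          linarith
      _ = 6 := by norm_num
  have hY : (0 : ℝ) ≤ T := Nat.cast_nonneg _
  gcongr

end Pool.Agent.TSU
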