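import Pool.Agent.TSU.Targets

/-!
# TSU: the target SVP (the sieve of T_SV3 with the parameters chosen)
-/

set_option autoImplicit false

open Finset

namespace Pool.Agent.TSU

namespace SVP_

open Pool.Agent.TSP (Big)

variable {n : ℕ} {L l : ℝ}

/-- the integer sifting limit -/
noncomputable def zz (L l : ℝ) : ℕ := ⌊z3 L l⌋₊

lemma expo_ge (h : Reg n L l) : 4000 * l ≤ L / (250 * l ^ 5) := by
  have hl := h.lpos
  rw [le_div_iff₀ (by positivity)]
  have := h.big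
  nlinarith

lemma two_le_zz (h : Reg n L l) : 2 ≤ zz L l := by
  unfold zz z3
  apply Nat.le_floor
  have h1 := expo_ge h
  have h0 := h.one
  have h2 := Real.add_one_le_exp (L / (250 * l ^ 5))
  push_cast
  linarith

lemma log_zz (h : Reg n L l) : L / (250 * l ^ 5) ≤ Real.log (zz L l + 1) := by
  rw [Real.le_log_iff_exp_le (by positivity)]
  unfold zz z3
  exact (Nat.lt_floor_add_one _).le

lemma zz_le (L l : ℝ) : (zz L l : ℝ) ≤ Real.exp (L / (250 * l ^ 5)) :=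
  Nat.floor_le (Real.exp_pos _).le

/-- the parameter for the number of the prime divisors -/
noncomputable def cc (l : ℝ) : ℕ := ⌈7 * l⌉₊

lemma cc_ge (l : ℝ) : 7 * l ≤ cc l := Nat.le_ceil _

lemma cc_le (h : Reg n L l) : (cc l : ℝ) ≤ 8 * l := by
  unfold cc
  have h1 := Nat.ceil_lt_add_one (show 0 ≤ 7 * l by have := h.lpos; linarith)
  have := h.one
  linarith

lemma cc_one (h : Reg n L l) : 1 ≤ cc l := by
  have h1 := cc_ge l
  have h2 := h.one
  have h3 : (1 : ℝ) ≤ cc l := by linarith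
  exact_mod_cast h3

lemma L_le_cc (h : Reg n L l) : 58 * L ≤ 4 * 2 ^ cc l := by
  have h1 : Real.exp (3 + l) ≤ 2 ^ cc l := by
    rw [← Real.exp_log (show (0 : ℝ) < 2 ^ cc l by positivity)]
    apply Real.exp_le_exp.2
    rw [Real.log_pow]
    have h2 := cc_ge l
    have h3 := Big.log_two_gt
    have h4 := h.one
    nlinarith
  rw [Real.exp_add, h.expl] at h1
  have h2 : (15 : ℝ) ≤ Real.exp 3 := by
    have h3 : Real.exp 3 = Real.exp 1 ^ 3 := by
      rw [← Real.exp_nat_mul]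
      norm_num
    have h4 : (2.7 : ℝ) ≤ Real.exp 1 := by have := Real.exp_one_gt_d9; linarith
    rw [h3]
    calc (15 : ℝ) ≤ 2.7 ^ 3 := by norm_num
      _ ≤ Real.exp 1 ^ 3 := pow_le_pow_left₀ (by norm_num) h4 3
  have h5 := h.Lpos
  nlinarith

lemma exp_cc (h : Reg n L l) :
    Real.exp (2 * (9 + 4 * Real.log (cc l))) ≤ Real.exp 18 * 8 ^ 8 * l ^ 8 := by
  have h0 : (0 : ℝ) < cc l := by exact_mod_cast cc_one h
  have h1 := cc_le h
  have h2 : Real.exp (2 * (9 + 4 * Real.log (cc l))) = Real.exp 18 * (cc l : ℝ) ^ 8 := by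
    rw [show 2 * (9 + 4 * Real.log (cc l)) = 18 + (8 : ℕ) * Real.log (cc l) by push_cast; ring,
      Real.exp_add, Real.exp_nat_mul, Real.exp_log h0]
  rw [h2, mul_assoc, ← mul_pow]
  exact mul_le_mul_of_nonneg_left (pow_le_pow_left₀ h0.le h1 8) (Real.exp_pos _).le

/-- the truncation -/
noncomputable def rr (l : ℝ) : ℕ := ⌈60 * l⌉₊

lemma rr_ge (l : ℝ) : 120 * l ≤ ((2 * rr l : ℕ) : ℝ) := by
  unfold rr
  push_cast
  have := Nat.le_ceil (60 * l)
  linarith

lemma rr_le (h : Reg n L l) : ((2 * rr l : ℕ) : ℝ) ≤ 122 * l := by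
  unfold rr
  push_cast
  have h1 := Nat.ceil_lt_add_one (show 0 ≤ 60 * l by have := h.lpos; linarith)
  have := h.one
  linarith

lemma inv_cube (h : Reg n L l) : 1 / L ^ 3 = Real.exp (-(3 * l)) := by
  rw [Real.exp_neg, one_div, show (3 : ℝ) * l = ((3 : ℕ) : ℝ) * l by norm_num,
    Real.exp_nat_mul, h.expl]

lemma second (h : Reg n L l) :
    Real.exp (-(2 * rr l : ℕ)) * Real.exp (3 * Real.exp 1 * (5 + 4 * Real.log (Big.bet L)))
      ≤ 1 / L ^ 3 := by
  rw [inv_cube h, ← Real.exp_add]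
  apply Real.exp_le_exp.2
  have h2 := rr_ge l
  have h3 := h.toBig.log_bet
  have h4 := Big.e_lt
  have h5 := h.one
  have h6 : 3 * Real.exp 1 * (5 + 4 * Real.log (Big.bet L)) ≤ 3 * 2.7183 * (5 + 4 * (l + 1.1)) := by
    have h7 : 5 + 4 * Real.log (Big.bet L) ≤ 5 + 4 * (l + 1.1) := by linarith
    have h8 : 0 < Real.exp 1 := Real.exp_pos 1
    have h9 : 0 ≤ 5 + 4 * (l + 1.1) := by linarith
    calc 3 * Real.exp 1 * (5 + 4 * Real.log (Big.bet L)) ≤ 3 * Real.exp 1 * (5 + 4 * (l + 1.1)) :=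
          mul_le_mul_of_nonneg_left h7 (by positivity)
      _ ≤ 3 * 2.7183 * (5 + 4 * (l + 1.1)) := by nlinarith
  linarith

lemma third (h : Reg n L l) : (zz L l : ℝ) ^ (2 * rr l) ≤ yv L l / L ^ 3 := by
  have hl := h.lpos
  have h1 : (zz L l : ℝ) ^ (2 * rr l) ≤ Real.exp (L / (2 * l ^ 4)) := by
    calc (zz L l : ℝ) ^ (2 * rr l) ≤ Real.exp (L / (250 * l ^ 5)) ^ (2 * rr l) :=
          pow_le_pow_left₀ (Nat.cast_nonneg _) (zz_le L l) _
      _ = Real.exp (((2 * rr l : ℕ) : ℝ) * (L / (250 * l ^ 5))) := by rw [Real.exp_nat_mul]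
      _ ≤ Real.exp (L / (2 * l ^ 4)) := by
          apply Real.exp_le_exp.2
          have h2 := rr_le h
          have h3 : 0 ≤ L / (250 * l ^ 5) := by have := h.Lpos; positivity
          calc ((2 * rr l : ℕ) : ℝ) * (L / (250 * l ^ 5)) ≤ 125 * l * (L / (250 * l ^ 5)) := by
                apply mul_le_mul_of_nonneg_right _ h3
                linarith
            _ = L / (2 * l ^ 4) := by
                field_simp
                ring
  have h4 : yv L l / L ^ 3 = Real.exp (L / l ^ 4 - 3 * l) := by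
    unfold yv
    rw [Real.exp_sub, show (3 : ℝ) * l = ((3 : ℕ) : ℝ) * l by norm_num, Real.exp_nat_mul, h.expl]
  rw [h4]
  refine h1.trans ?_
  apply Real.exp_le_exp.2
  have h5 : 3 * l ≤ L / (2 * l ^ 4) := by
    rw [le_div_iff₀ (by positivity)]
    have h6 := h.pow_le (k := 5) (by norm_num)
    have h7 : 0 ≤ l ^ 5 := by positivity
    nlinarith
  have h8 : L / l ^ 4 = L / (2 * l ^ 4) + L / (2 * l ^ 4) := by
    field_simp
    norm_num
  linarith

lemma card_le (h : Reg n L l) {N : ℕ} (hN : N ≠ 0) (hNn : N ≤ n ^ 40) :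
    N.primeFactors.card ≤ 4 * 2 ^ cc l := by
  have h1 := Pool.Agent.TSP.two_pow_card_le hN
  have h3 : (2 : ℝ) ^ N.primeFactors.card ≤ (n : ℝ) ^ 40 := by exact_mod_cast h1.trans hNn
  have h4 : (N.primeFactors.card : ℝ) * Real.log 2 ≤ 40 * L := by
    have h5 := Real.log_le_log (by positivity) h3
    rw [Real.log_pow, Real.log_pow, ← h.hL] at h5
    push_cast at h5
    exact h5
  have h5 := Big.log_two_gt
  have h6 := h.Lge
  have h7 : (N.primeFactors.card : ℝ) ≤ 58 * L := by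
    by_contra hx
    push Not at hx
    nlinarith
  have h8 := L_le_cc h
  have h9 : (N.primeFactors.card : ℝ) ≤ 4 * 2 ^ cc l := by linarith
  exact_mod_cast h9

lemma zz_le_pow (h : Reg n L l) : zz L l ≤ 2 ^ Big.bet L := by
  refine le_trans ?_ h.toBig.x_le
  have hl := h.lpos
  have : (zz L l : ℝ) ≤ n := by
    refine (zz_le L l).trans ?_
    rw [← h.expL]
    apply Real.exp_le_exp.2
    apply div_le_self h.Lpos.le
    have h1 : 1 ≤ l ^ 5 := one_le_pow₀ h.one
    linarith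
  exact_mod_cast this

lemma cnt_eq (bd : ℕ → ℕ → Prop) (N T : ℕ) :
    cnt (Ioc 0 T) (fun t => ∀ p : ℕ, p.Prime → (p : ℝ) ≤ z3 L l → ¬ p ∣ N → ¬ bd p t) =
      cnt (Ioc 0 T) (fun t => ∀ p : ℕ, p.Prime → p ≤ zz L l → ¬ p ∣ N → ¬ bd p t) := by
  congr 1
  funext t
  apply propext
  refine forall_congr' fun p => forall_congr' fun _ => ?_
  unfold zz
  rw [Nat.le_floor_iff (show 0 ≤ z3 L l from (Real.exp_pos _).le)]

end SVP_

open SVP_ in
/-- the target SVP -/
theorem p_SVP (h : T_SV3) : T_SVP := by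
  refine ⟨(Real.exp 18 * 8 ^ 8 * 250) ^ 3 + 1 + 2 * Real.exp 6, by positivity, ?_⟩
  intro n L l hr bd hper N T hN h2N hNn hT hrho
  have hL := hr.Lpos
  have hl := hr.lpos
  rw [cnt_eq]
  have hs := h bd hper N (zz L l) (rr l) T (cc l) (Pool.Agent.TSP.Big.bet L) hN h2N (two_le_zz hr)
    (cc_one hr) (Pool.Agent.TSP.Big.bet_one L) (zz_le_pow hr) (card_le hr hN hNn)
    (fun p hp _ hpN => hrho p hp hpN)
  refine hs.trans ?_
  have m1 : (Real.exp (2 * (9 + 4 * Real.log (cc l))) / Real.log (zz L l + 1)) ^ 3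
      ≤ (Real.exp 18 * 8 ^ 8 * 250) ^ 3 * l ^ 39 / L ^ 3 := by
    have e1 : Real.exp (2 * (9 + 4 * Real.log (cc l))) / Real.log (zz L l + 1)
        ≤ (Real.exp 18 * 8 ^ 8 * l ^ 8) / (L / (250 * l ^ 5)) :=
      div_le_div₀ (by positivity) (exp_cc hr) (by positivity) (log_zz hr)
    have e0 : 0 ≤ Real.exp (2 * (9 + 4 * Real.log (cc l))) / Real.log (zz L l + 1) := by
      apply div_nonneg (Real.exp_pos _).le
      refine le_trans ?_ (log_zz hr)
      positivity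
    refine (pow_le_pow_left₀ e0 e1 3).trans (le_of_eq ?_)
    field_simp
  have hl39 : 1 ≤ l ^ 39 := one_le_pow₀ hr.one
  have m2 : Real.exp (-(2 * rr l : ℕ)) *
      Real.exp (3 * Real.exp 1 * (5 + 4 * Real.log (Pool.Agent.TSP.Big.bet L))) ≤ l ^ 39 / L ^ 3 :=
    (second hr).trans (div_le_div_of_nonneg_right hl39 (by positivity))
  have hT0 : (0 : ℝ) ≤ T := Nat.cast_nonneg _
  have m3 : (zz L l : ℝ) ^ (2 * rr l) * Real.exp 6 ≤ T * (2 * Real.exp 6 * (l ^ 39 / L ^ 3)) := by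
    have e1 := third hr
    have e2 : yv L l / L ^ 3 ≤ 2 * T * (l ^ 39 / L ^ 3) := by
      calc yv L l / L ^ 3 ≤ (2 * T) / L ^ 3 := by
            apply div_le_div_of_nonneg_right _ (by positivity)
            linarith
        _ = 2 * T * (1 / L ^ 3) := by ring
        _ ≤ 2 * T * (l ^ 39 / L ^ 3) :=
          mul_le_mul_of_nonneg_left (div_le_div_of_nonneg_right hl39 (by positivity))
            (by positivity)
    have e3 := e1.trans e2
    calc (zz L l : ℝ) ^ (2 * rr l) * Real.exp 6 ≤ 2 * T * (l ^ 39 / L ^ 3) * Real.exp 6 :=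
          mul_le_mul_of_nonneg_right e3 (Real.exp_pos _).le
      _ = T * (2 * Real.exp 6 * (l ^ 39 / L ^ 3)) := by ring
  have e4 : (T : ℝ) * (Real.exp (2 * (9 + 4 * Real.log (cc l))) /
      Real.log (zz L l + 1)) ^ 3 ≤ T * ((Real.exp 18 * 8 ^ 8 * 250) ^ 3 * l ^ 39 / L ^ 3) :=
    mul_le_mul_of_nonneg_left m1 hT0
  have e5 : (T : ℝ) * (Real.exp (-(2 * rr l : ℕ)) *
      Real.exp (3 * Real.exp 1 * (5 + 4 * Real.log (Pool.Agent.TSP.Big.bet L)))) ≤
        T * (l ^ 39 / L ^ 3) :=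
    mul_le_mul_of_nonneg_left m2 hT0
  have e6 : ((Real.exp 18 * 8 ^ 8 * 250) ^ 3 + 1 + 2 * Real.exp 6) * T * l ^ 39 / L ^ 3
      = T * ((Real.exp 18 * 8 ^ 8 * 250) ^ 3 * l ^ 39 / L ^ 3) + T * (l ^ 39 / L ^ 3)
        + T * (2 * Real.exp 6 * (l ^ 39 / L ^ 3)) := by ring
  rw [e6]
  linarith

end Pool.Agent.TSU
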