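import Pool.Agent.TSU.Targets

/-!
# TSU: BAD
-/

set_option autoImplicit false

open Finset

namespace Pool.Agent.TSU

namespace BAD_

lemma om_nonneg (k : ℕ) : 0 ≤ om k := by
  unfold om
  exact Finset.sum_nonneg fun p _ => Real.log_natCast_nonneg p

lemma om_le (k : ℕ) (hk : 0 < k) : om k ≤ Real.log k := by
  unfold om
  have h1 : ∑ p ∈ k.primeFactors, Real.log (p : ℝ) =
      Real.log (∏ p ∈ k.primeFactors, (p : ℝ)) := by
    rw [Real.log_prod]
    intro p hp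
    exact_mod_cast (Nat.prime_of_mem_primeFactors hp).ne_zero
  rw [h1]
  have h2 : ∏ p ∈ k.primeFactors, p ≤ k := Nat.le_of_dvd hk (Nat.prod_primeFactors_dvd k)
  have h3 : (0 : ℝ) < ∏ p ∈ k.primeFactors, (p : ℝ) := by
    refine Finset.prod_pos fun p hp => ?_
    exact_mod_cast (Nat.prime_of_mem_primeFactors hp).pos
  have h4 : ((∏ p ∈ k.primeFactors, p : ℕ) : ℝ) ≤ (k : ℝ) := by exact_mod_cast h2
  rw [Nat.cast_prod] at h4
  exact Real.log_le_log h3 h4

lemma ws_nonneg (P : ℕ → ℕ → Prop) (k m : ℕ) : 0 ≤ ws P k m := by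
  unfold ws
  refine Finset.sum_nonneg fun r _ => Finset.sum_nonneg fun s _ => ?_
  split_ifs
  · exact mul_nonneg (Real.log_natCast_nonneg r) (Real.log_natCast_nonneg s)
  · exact le_rfl

lemma refl_sum (f : ℕ → ℝ) (n : ℕ) : ∑ k ∈ Ico 1 n, f (n - k) = ∑ k ∈ Ico 1 n, f k := by
  rw [Finset.sum_Ico_reflect f 1 (Nat.le_succ n)]
  congr 1
  ext k
  simp only [Finset.mem_Ico]
  omega

lemma om_mul_le {k m : ℕ} {D1 D2 : ℝ} (h : ∀ r s : ℕ, r.Prime → s.Prime → r ∣ k → s ∣ m →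
    (r : ℝ) * s < D2) :
    om k * om m ≤ ws (fun r s => (r : ℝ) * s ≤ D1) k m +
      ws (fun r s => D1 < (r : ℝ) * s ∧ (r : ℝ) * s < D2) k m := by
  unfold om ws
  rw [Finset.sum_mul_sum, ← Finset.sum_add_distrib]
  refine Finset.sum_le_sum fun r hr => ?_
  rw [← Finset.sum_add_distrib]
  refine Finset.sum_le_sum fun s hs => ?_
  have h1 := h r s (Nat.prime_of_mem_primeFactors hr) (Nat.prime_of_mem_primeFactors hs)
    (Nat.dvd_of_mem_primeFactors hr) (Nat.dvd_of_mem_primeFactors hs)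
  by_cases h2 : (r : ℝ) * s ≤ D1
  · rw [if_pos h2, if_neg (by intro h3; linarith [h3.1])]
    linarith
  · rw [if_neg h2, if_pos ⟨not_le.1 h2, h1⟩]
    linarith

lemma card_small (n : ℕ) (y : ℝ) (hy : 0 ≤ y) :
    (((Ico 1 n).filter fun k : ℕ => (k : ℝ) < y).card : ℝ) ≤ y := by
  have h1 : ((Ico 1 n).filter fun k : ℕ => (k : ℝ) < y) ⊆ Icc 1 ⌊y⌋₊ := by
    intro k hk
    rw [Finset.mem_filter, Finset.mem_Ico] at hk
    rw [Finset.mem_Icc]
    exact ⟨hk.1.1, Nat.le_floor hk.2.le⟩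
  have h2 := Finset.card_le_card h1
  rw [Nat.card_Icc, Nat.add_sub_cancel] at h2
  calc (((Ico 1 n).filter fun k : ℕ => (k : ℝ) < y).card : ℝ) ≤ (⌊y⌋₊ : ℝ) := by exact_mod_cast h2
    _ ≤ y := Nat.floor_le hy

lemma card_small' (n : ℕ) (y : ℝ) (hy : 0 ≤ y) :
    (((Ico 1 n).filter fun k : ℕ => ((n - k : ℕ) : ℝ) < y).card : ℝ) ≤ y := by
  have h1 := refl_sum (fun k => if (k : ℝ) < y then (1 : ℝ) else 0) n
  rw [Finset.sum_boole, Finset.sum_boole] at h1
  rw [h1]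
  exact card_small n y hy

lemma final {x L l N C' : ℝ} (hN : 0 ≤ N) (hl : 1 ≤ l) (hL : 200 * l ^ 2 ≤ L) (hC : 0 ≤ C')
    (h : (L - l) ^ 2 * x ≤ N * (L ^ 2 / 2 + C' * (L ^ 2 / l))) :
    x ≤ N * (1 / 2 + (2 * C' + 1) / l) := by
  have hl0 : 0 < l := by linarith
  have hL0 : 0 < L := by nlinarith
  set t := l / L with ht
  have ht0 : 0 ≤ t := by positivity
  have htl : t * (200 * l) ≤ 1 := by
    rw [ht, div_mul_eq_mul_div, div_le_one hL0]
    nlinarith
  have ht1 : t ≤ 1 / 200 := by nlinarith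
  have e1 : (L - l) ^ 2 = L ^ 2 * (1 - t) ^ 2 := by
    rw [ht]
    field_simp
  rw [e1] at h
  have h2 : (1 - t) ^ 2 * x ≤ N * (1 / 2 + C' / l) := by
    have hL2 : 0 < L ^ 2 := by positivity
    refine le_of_mul_le_mul_left ?_ hL2
    calc L ^ 2 * ((1 - t) ^ 2 * x) = L ^ 2 * (1 - t) ^ 2 * x := by ring
      _ ≤ N * (L ^ 2 / 2 + C' * (L ^ 2 / l)) := h
      _ = L ^ 2 * (N * (1 / 2 + C' / l)) := by ring
  have h3 : 1 ≤ (1 - t) ^ 2 * (1 + 4 * t) := by nlinarith [mul_nonneg ht0 ht0]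
  have hR : 0 ≤ N * (1 / 2 + C' / l) := by positivity
  have h4 : x ≤ N * (1 / 2 + C' / l) * (1 + 4 * t) := by
    by_cases hx : x ≤ 0
    · exact hx.trans (by positivity)
    · have hx0 : 0 < x := not_le.1 hx
      calc x ≤ x * ((1 - t) ^ 2 * (1 + 4 * t)) := by nlinarith
        _ = (1 - t) ^ 2 * x * (1 + 4 * t) := by ring
        _ ≤ N * (1 / 2 + C' / l) * (1 + 4 * t) :=
          mul_le_mul_of_nonneg_right h2 (by linarith)
  refine h4.trans ?_
  rw [mul_assoc]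
  refine mul_le_mul_of_nonneg_left ?_ hN
  have h5 : t ≤ 1 / (200 * l) := by
    rw [le_div_iff₀ (by positivity)]
    exact htl
  have h6 : 0 ≤ C' / l := by positivity
  have h7 : (1 : ℝ) / (200 * l) = 1 / 200 * (1 / l) := by field_simp
  have h8 : (2 * C' + 1) / l = 2 * (C' / l) + 1 / l := by ring
  rw [h7] at h5
  rw [h8]
  have h9 : 0 < 1 / l := by positivity
  nlinarith

end BAD_

open BAD_ in
theorem p_BAD (h1 : T_PPW) (h2 : T_LOW) (h3 : T_STR) : T_BAD := by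
  classical
  obtain ⟨C0, hC0, H0⟩ := h1
  obtain ⟨C1, hC1, H1⟩ := h2
  obtain ⟨C2, hC2, H2⟩ := h3
  refine ⟨2 * (C1 + C2 + 2 * C0) + 2, by positivity, fun n L l hr => ?_⟩
  have hl := hr.one
  have hl0 := hr.lpos
  have hL0 := hr.Lpos
  have hn0 := hr.n0
  have hn1 : 1 ≤ n := by exact_mod_cast hn0
  have hpow2 := hr.pow_le (k := 2) (by norm_num)
  have hlL : l ≤ L := by nlinarith
  have hsub : bad n L l ⊆ Ico 1 n := by
    intro k hk
    unfold bad at hk
    rw [Finset.mem_filter, Finset.mem_range] at hk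
    rw [Finset.mem_Ico]
    exact ⟨hk.2.1, hk.1⟩
  -- step A
  set P1 : ℕ → ℕ → Prop := fun r s => (r : ℝ) * s ≤ Real.exp (L - L / l ^ 4) with hP1
  set P2 : ℕ → ℕ → Prop := fun r s => Real.exp (L - L / l ^ 4) < (r : ℝ) * s ∧
    (r : ℝ) * s < Real.exp (L + L / l ^ 4) with hP2
  have hA : ∑ k ∈ bad n L l, om k * om (n - k) ≤ wsum P1 n + wsum P2 n := by
    unfold wsum
    rw [← Finset.sum_add_distrib]
    calc ∑ k ∈ bad n L l, om k * om (n - k)
        ≤ ∑ k ∈ bad n L l, (ws P1 k (n - k) + ws P2 k (n - k)) := by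
          refine Finset.sum_le_sum fun k hk => ?_
          unfold bad at hk
          rw [Finset.mem_filter] at hk
          exact om_mul_le hk.2.2
      _ ≤ ∑ k ∈ Ico 1 n, (ws P1 k (n - k) + ws P2 k (n - k)) :=
          Finset.sum_le_sum_of_subset_of_nonneg hsub fun k _ _ =>
            add_nonneg (ws_nonneg _ _ _) (ws_nonneg _ _ _)
  have hA2 : ∑ k ∈ bad n L l, om k * om (n - k) ≤
      n * (L ^ 2 / 2 + C1 * L) + C2 * n * L ^ 2 / l :=
    hA.trans (add_le_add (H1 n L l hr) (H2 n L l hr))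
  -- facts on the logarithms
  have hlog : ∀ k ∈ Ico 1 n, Real.log (k : ℝ) ≤ L := by
    intro k hk
    rw [Finset.mem_Ico] at hk
    rw [hr.hL]
    exact Real.log_le_log (by exact_mod_cast hk.1) (by exact_mod_cast hk.2.le)
  have hmem : ∀ k ∈ Ico 1 n, n - k ∈ Ico 1 n := by
    intro k hk
    rw [Finset.mem_Ico] at hk ⊢
    omega
  have hpos : ∀ k ∈ Ico 1 n, 0 < k := fun k hk => (Finset.mem_Ico.1 hk).1
  -- step B
  have hB1 : ∀ k ∈ Ico 1 n, Real.log (k : ℝ) * Real.log ((n - k : ℕ) : ℝ) - om k * om (n - k) ≤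
      L * (Real.log (k : ℝ) - om k) + L * (Real.log ((n - k : ℕ) : ℝ) - om (n - k)) := by
    intro k hk
    have a1 := om_le k (hpos k hk)
    have a2 := om_le (n - k) (hpos _ (hmem k hk))
    have a3 := hlog k hk
    have a4 := hlog _ (hmem k hk)
    have a5 := om_nonneg k
    have a6 := om_nonneg (n - k)
    have b1 : Real.log (k : ℝ) * (Real.log ((n - k : ℕ) : ℝ) - om (n - k)) ≤
        L * (Real.log ((n - k : ℕ) : ℝ) - om (n - k)) :=
      mul_le_mul_of_nonneg_right a3 (by linarith)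
    have b2 : om (n - k) * (Real.log (k : ℝ) - om k) ≤ L * (Real.log (k : ℝ) - om k) :=
      mul_le_mul_of_nonneg_right (by linarith) (by linarith)
    nlinarith
  have hB0 : ∀ k ∈ Ico 1 n, 0 ≤
      L * (Real.log (k : ℝ) - om k) + L * (Real.log ((n - k : ℕ) : ℝ) - om (n - k)) := by
    intro k hk
    have a1 := om_le k (hpos k hk)
    have a2 := om_le (n - k) (hpos _ (hmem k hk))
    have b1 : 0 ≤ L * (Real.log (k : ℝ) - om k) := mul_nonneg hL0.le (by linarith)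
    have b2 : 0 ≤ L * (Real.log ((n - k : ℕ) : ℝ) - om (n - k)) :=
      mul_nonneg hL0.le (by linarith)
    linarith
  have hB : ∑ k ∈ bad n L l, (Real.log (k : ℝ) * Real.log ((n - k : ℕ) : ℝ) -
      om k * om (n - k)) ≤ 2 * C0 * L * n := by
    have H0n := H0 n hn1
    calc ∑ k ∈ bad n L l, (Real.log (k : ℝ) * Real.log ((n - k : ℕ) : ℝ) - om k * om (n - k))
        ≤ ∑ k ∈ bad n L l, (L * (Real.log (k : ℝ) - om k) +
            L * (Real.log ((n - k : ℕ) : ℝ) - om (n - k))) :=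
          Finset.sum_le_sum fun k hk => hB1 k (hsub hk)
      _ ≤ ∑ k ∈ Ico 1 n, (L * (Real.log (k : ℝ) - om k) +
            L * (Real.log ((n - k : ℕ) : ℝ) - om (n - k))) :=
          Finset.sum_le_sum_of_subset_of_nonneg hsub fun k hk _ => hB0 k hk
      _ = L * ∑ k ∈ Ico 1 n, (Real.log (k : ℝ) - om k) +
            L * ∑ k ∈ Ico 1 n, (Real.log ((n - k : ℕ) : ℝ) - om (n - k)) := by
          rw [Finset.sum_add_distrib, Finset.mul_sum, Finset.mul_sum]
      _ = L * ∑ k ∈ Ico 1 n, (Real.log (k : ℝ) - om k) +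
            L * ∑ k ∈ Ico 1 n, (Real.log (k : ℝ) - om k) := by
          rw [refl_sum (fun k => Real.log (k : ℝ) - om k) n]
      _ ≤ L * (C0 * n) + L * (C0 * n) := by gcongr
      _ = 2 * C0 * L * n := by ring
  -- the sum of the products of the logarithms
  have hS : ∑ k ∈ bad n L l, Real.log (k : ℝ) * Real.log ((n - k : ℕ) : ℝ) ≤
      n * (L ^ 2 / 2 + (C1 + C2 + 2 * C0) * (L ^ 2 / l)) := by
    rw [Finset.sum_sub_distrib] at hB
    have h5 : L ≤ L ^ 2 / l := by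
      rw [le_div_iff₀ hl0]
      nlinarith
    have h6 : (C1 + 2 * C0) * L ≤ (C1 + 2 * C0) * (L ^ 2 / l) :=
      mul_le_mul_of_nonneg_left h5 (by positivity)
    calc ∑ k ∈ bad n L l, Real.log (k : ℝ) * Real.log ((n - k : ℕ) : ℝ)
        ≤ (n * (L ^ 2 / 2 + C1 * L) + C2 * n * L ^ 2 / l) + 2 * C0 * L * n := by linarith
      _ = n * (L ^ 2 / 2 + ((C1 + 2 * C0) * L + C2 * (L ^ 2 / l))) := by ring
      _ ≤ n * (L ^ 2 / 2 + ((C1 + 2 * C0) * (L ^ 2 / l) + C2 * (L ^ 2 / l))) := by gcongr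
      _ = n * (L ^ 2 / 2 + (C1 + C2 + 2 * C0) * (L ^ 2 / l)) := by ring
  -- the middle
  have hnn : ∀ k ∈ Ico 1 n, 0 ≤ Real.log (k : ℝ) * Real.log ((n - k : ℕ) : ℝ) := fun k _ =>
    mul_nonneg (Real.log_natCast_nonneg k) (Real.log_natCast_nonneg _)
  set Q : ℕ → Prop := fun k => (n : ℝ) / L ≤ k ∧ (n : ℝ) / L ≤ ((n - k : ℕ) : ℝ) with hQ
  have hlower : ∀ y : ℕ, (n : ℝ) / L ≤ y → L - l ≤ Real.log (y : ℝ) := by
    intro y hy
    have h7 : Real.log ((n : ℝ) / L) = L - l := by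
      rw [Real.log_div hn0.ne' hL0.ne', ← hr.hL, ← hr.hl]
    rw [← h7]
    exact Real.log_le_log (by positivity) hy
  have hmid : (L - l) ^ 2 * ((((bad n L l).filter Q).card : ℕ) : ℝ) ≤
      n * (L ^ 2 / 2 + (C1 + C2 + 2 * C0) * (L ^ 2 / l)) := by
    refine le_trans ?_ hS
    calc (L - l) ^ 2 * ((((bad n L l).filter Q).card : ℕ) : ℝ)
        = ∑ k ∈ (bad n L l).filter Q, (L - l) ^ 2 := by
          rw [Finset.sum_const, nsmul_eq_mul]
          ring
      _ ≤ ∑ k ∈ (bad n L l).filter Q, Real.log (k : ℝ) * Real.log ((n - k : ℕ) : ℝ) := by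
          refine Finset.sum_le_sum fun k hk => ?_
          rw [Finset.mem_filter] at hk
          have c1 := hlower k hk.2.1
          have c2 := hlower (n - k) hk.2.2
          rw [pow_two]
          exact mul_le_mul c1 c2 (by linarith) (Real.log_natCast_nonneg k)
      _ ≤ ∑ k ∈ bad n L l, Real.log (k : ℝ) * Real.log ((n - k : ℕ) : ℝ) :=
          Finset.sum_le_sum_of_subset_of_nonneg (Finset.filter_subset _ _) fun k hk _ =>
            hnn k (hsub hk)
  have hmid2 : ((((bad n L l).filter Q).card : ℕ) : ℝ) ≤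
      n * (1 / 2 + (2 * (C1 + C2 + 2 * C0) + 1) / l) :=
    final hn0.le hl (by nlinarith [sq_nonneg l]) (by positivity) hmid
  -- the rest
  have hy0 : 0 ≤ (n : ℝ) / L := by positivity
  have hrest : ((((bad n L l).filter fun k => ¬ Q k).card : ℕ) : ℝ) ≤
      (n : ℝ) / L + (n : ℝ) / L := by
    have h8 : ((bad n L l).filter fun k => ¬ Q k) ⊆
        ((Ico 1 n).filter fun k : ℕ => (k : ℝ) < (n : ℝ) / L) ∪
        ((Ico 1 n).filter fun k : ℕ => ((n - k : ℕ) : ℝ) < (n : ℝ) / L) := by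
      intro k hk
      rw [Finset.mem_filter] at hk
      rw [Finset.mem_union, Finset.mem_filter, Finset.mem_filter]
      have h9 := hsub hk.1
      by_cases h10 : (k : ℝ) < (n : ℝ) / L
      · exact Or.inl ⟨h9, h10⟩
      · refine Or.inr ⟨h9, ?_⟩
        by_contra h11
        exact hk.2 ⟨not_lt.1 h10, not_lt.1 h11⟩
    have h12 := (Finset.card_le_card h8).trans (Finset.card_union_le _ _)
    calc ((((bad n L l).filter fun k => ¬ Q k).card : ℕ) : ℝ)
        ≤ (((Ico 1 n).filter fun k : ℕ => (k : ℝ) < (n : ℝ) / L).card : ℝ) +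
          (((Ico 1 n).filter fun k : ℕ => ((n - k : ℕ) : ℝ) < (n : ℝ) / L).card : ℝ) := by
          exact_mod_cast h12
      _ ≤ (n : ℝ) / L + (n : ℝ) / L :=
          add_le_add (card_small n _ hy0) (card_small' n _ hy0)
  have hrest2 : (n : ℝ) / L + (n : ℝ) / L ≤ n * (1 / l) := by
    have h13 : 2 / L ≤ 1 / l := by
      rw [div_le_div_iff₀ hL0 hl0]
      nlinarith
    calc (n : ℝ) / L + (n : ℝ) / L = n * (2 / L) := by ring
      _ ≤ n * (1 / l) := mul_le_mul_of_nonneg_left h13 hn0.le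
  have hcard : ((bad n L l).card : ℝ) = ((((bad n L l).filter Q).card : ℕ) : ℝ) +
      ((((bad n L l).filter fun k => ¬ Q k).card : ℕ) : ℝ) := by
    exact_mod_cast (Finset.card_filter_add_card_filter_not Q).symm
  rw [hcard]
  calc ((((bad n L l).filter Q).card : ℕ) : ℝ) +
        ((((bad n L l).filter fun k => ¬ Q k).card : ℕ) : ℝ)
      ≤ n * (1 / 2 + (2 * (C1 + C2 + 2 * C0) + 1) / l) + n * (1 / l) :=
        add_le_add hmid2 (hrest.trans hrest2)
    _ = (1 / 2 + (2 * (C1 + C2 + 2 * C0) + 2) / l) * n := by ring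

end Pool.Agent.TSU
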