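import Pool.Agent.TSU.Targets

/-!
# TSU: the class of the pair `(a, b)` (target `T_CLS`)
-/

set_option autoImplicit false

open Finset

namespace Pool.Agent.TSU

open Pool.Agent.TSP (Per rho)
open Pool.Agent.Cyclic (pr)

namespace CLS_

/-- the data of the class -/
structure Dat (n a b : ℕ) (m : ℕ) (k0 : ℕ) (A1 B1 A2 B2 : ℤ) : Prop where
  a0 : 0 < a
  b0 : 0 < b
  m0 : 0 < m
  k0m : k0 < m
  hA1 : (a : ℤ) * A1 = m
  hB1 : (a : ℤ) * B1 = k0 - m
  hA2 : (b : ℤ) * A2 = -m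
  hB2 : (b : ℤ) * B2 = n - k0 + m
  mab : m ≤ a * b
  abn : 4 * (a * b) ≤ n
  ne : 2 * a.totient * b ≠ b.totient * a

/-- the coefficients of the third form -/
def A3 (a b : ℕ) (A1 A2 : ℤ) : ℤ := 2 * (a.totient : ℤ) * A1 + (b.totient : ℤ) * A2

/-- the coefficients of the third form -/
def B3 (a b : ℕ) (B1 B2 : ℤ) : ℤ :=
  2 * (a.totient : ℤ) * B1 + (b.totient : ℤ) * B2 + (2 - 2 * (a.totient : ℤ) - (b.totient : ℤ))

/-- the product whose prime divisors are excluded -/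
def PP (a b : ℕ) (A1 B1 A2 B2 : ℤ) : ℤ :=
  A1 * A2 * A3 a b A1 A2 * (A1 * B2 - A2 * B1) * (A1 * B3 a b B1 B2 - A3 a b A1 A2 * B1) *
    (A2 * B3 a b B1 B2 - A3 a b A1 A2 * B2)

variable {n a b m k0 : ℕ} {A1 B1 A2 B2 : ℤ}

theorem Dat.a3_ne (h : Dat n a b m k0 A1 B1 A2 B2) : A3 a b A1 A2 ≠ 0 := by
  intro h0
  have e : (a : ℤ) * b * A3 a b A1 A2 = m * (2 * a.totient * b - b.totient * a) := by
    unfold A3
    linear_combination 2 * (b : ℤ) * a.totient * h.hA1 + (a : ℤ) * b.totient * h.hA2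
  rw [h0, mul_zero] at e
  have hm : (m : ℤ) ≠ 0 := by exact_mod_cast h.m0.ne'
  have e2 := (mul_eq_zero.1 e.symm).resolve_left hm
  apply h.ne
  have e3 : (2 * a.totient * b : ℤ) = b.totient * a := by linarith
  exact_mod_cast e3

theorem Dat.d12 (h : Dat n a b m k0 A1 B1 A2 B2) :
    (a : ℤ) * b * (A1 * B2 - A2 * B1) = m * n := by
  linear_combination (b : ℤ) * B2 * h.hA1 + (m : ℤ) * h.hB2 - (a : ℤ) * B1 * h.hA2 +
    (m : ℤ) * h.hB1

theorem Dat.d13 (h : Dat n a b m k0 A1 B1 A2 B2) :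
    (a : ℤ) * b * (A1 * B3 a b B1 B2 - A3 a b A1 A2 * B1) =
      m * (b.totient * n + (2 - 2 * (a.totient : ℤ) - (b.totient : ℤ)) * b) := by
  have e := h.d12
  unfold B3 A3
  linear_combination (b.totient : ℤ) * e +
    (b : ℤ) * (2 - 2 * (a.totient : ℤ) - (b.totient : ℤ)) * h.hA1

theorem Dat.d23 (h : Dat n a b m k0 A1 B1 A2 B2) :
    (a : ℤ) * b * (A2 * B3 a b B1 B2 - A3 a b A1 A2 * B2) =
      -(m * (2 * a.totient * n + (2 - 2 * (a.totient : ℤ) - (b.totient : ℤ)) * a)) := by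
  have e := h.d12
  unfold B3 A3
  linear_combination (-2 * (a.totient : ℤ)) * e +
    (a : ℤ) * (2 - 2 * (a.totient : ℤ) - (b.totient : ℤ)) * h.hA2

theorem Dat.pp_ne (h : Dat n a b m k0 A1 B1 A2 B2) : PP a b A1 B1 A2 B2 ≠ 0 := by
  have hm : (0 : ℤ) < m := by exact_mod_cast h.m0
  have ha : (0 : ℤ) < a := by exact_mod_cast h.a0
  have hb : (0 : ℤ) < b := by exact_mod_cast h.b0
  have hn4 : 4 * ((a : ℤ) * b) ≤ n := by exact_mod_cast h.abn
  have hab1 : (a : ℤ) ≤ a * b := by nlinarith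
  have hab2 : (b : ℤ) ≤ a * b := by nlinarith
  have hn : (0 : ℤ) < n := by nlinarith
  have hφa : (0 : ℤ) < a.totient := by exact_mod_cast Nat.totient_pos.2 h.a0
  have hφb : (0 : ℤ) < b.totient := by exact_mod_cast Nat.totient_pos.2 h.b0
  have hφa' : (a.totient : ℤ) ≤ a := by exact_mod_cast Nat.totient_le a
  have hφb' : (b.totient : ℤ) ≤ b := by exact_mod_cast Nat.totient_le b
  have h1 : A1 ≠ 0 := by
    rintro rfl
    have := h.hA1
    rw [mul_zero] at this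
    omega
  have h2 : A2 ≠ 0 := by
    rintro rfl
    have := h.hA2
    rw [mul_zero] at this
    omega
  have h12 : A1 * B2 - A2 * B1 ≠ 0 := by
    intro h0
    have e := h.d12
    rw [h0, mul_zero] at e
    have : (0 : ℤ) < m * n := mul_pos hm hn
    omega
  have q1 : (a.totient : ℤ) * b ≤ a * b := by nlinarith
  have q2 : (b.totient : ℤ) * a ≤ a * b := by nlinarith
  have h13 : A1 * B3 a b B1 B2 - A3 a b A1 A2 * B1 ≠ 0 := by
    intro h0
    have e := h.d13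
    rw [h0, mul_zero] at e
    have q3 : (n : ℤ) - b ≤ b.totient * (n - b) := by nlinarith
    have : (0 : ℤ) < b.totient * n + (2 - 2 * (a.totient : ℤ) - (b.totient : ℤ)) * b := by
      nlinarith
    have := mul_pos hm this
    omega
  have h23 : A2 * B3 a b B1 B2 - A3 a b A1 A2 * B2 ≠ 0 := by
    intro h0
    have e := h.d23
    rw [h0, mul_zero] at e
    have q3 : (n : ℤ) - a ≤ a.totient * (n - a) := by nlinarith
    have : (0 : ℤ) < 2 * a.totient * n + (2 - 2 * (a.totient : ℤ) - (b.totient : ℤ)) * a := by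
      nlinarith
    have := mul_pos hm this
    omega
  unfold PP
  exact mul_ne_zero (mul_ne_zero (mul_ne_zero (mul_ne_zero (mul_ne_zero h1 h2) h.a3_ne) h12) h13)
    h23

/-- a factor of a bounded product is bounded -/
theorem abs_le_of_mul {a : ℕ} {x y : ℤ} (ha : 0 < a) (h : (a : ℤ) * x = y) : |x| ≤ |y| := by
  rw [← h, abs_mul]
  have h1 : (1 : ℤ) ≤ |(a : ℤ)| := by
    rw [abs_of_nonneg (Int.natCast_nonneg a)]
    exact_mod_cast ha
  nlinarith [abs_nonneg x]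

theorem Dat.bounds (h : Dat n a b m k0 A1 B1 A2 B2) (hn8 : 100 ≤ n) :
    |A1| ≤ (n : ℤ) ^ 2 ∧ |B1| ≤ (n : ℤ) ^ 2 ∧ |A2| ≤ (n : ℤ) ^ 2 ∧ |B2| ≤ (n : ℤ) ^ 2 ∧
    |A3 a b A1 A2| ≤ (n : ℤ) ^ 2 ∧ |B3 a b B1 B2| ≤ (n : ℤ) ^ 2 := by
  have hm : (0 : ℤ) < m := by exact_mod_cast h.m0
  have ha : (0 : ℤ) < a := by exact_mod_cast h.a0
  have hb : (0 : ℤ) < b := by exact_mod_cast h.b0
  have hn4 : 4 * ((a : ℤ) * b) ≤ n := by exact_mod_cast h.abn
  have hmab : (m : ℤ) ≤ a * b := by exact_mod_cast h.mab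
  have hk0 : (0 : ℤ) ≤ k0 := Int.natCast_nonneg _
  have hk0m : (k0 : ℤ) < m := by exact_mod_cast h.k0m
  have hab1 : (a : ℤ) ≤ a * b := by nlinarith
  have hab2 : (b : ℤ) ≤ a * b := by nlinarith
  have hn : (100 : ℤ) ≤ n := by exact_mod_cast hn8
  have hφa : (0 : ℤ) < a.totient := by exact_mod_cast Nat.totient_pos.2 h.a0
  have hφb : (0 : ℤ) < b.totient := by exact_mod_cast Nat.totient_pos.2 h.b0
  have hφa' : (a.totient : ℤ) ≤ a := by exact_mod_cast Nat.totient_le a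
  have hφb' : (b.totient : ℤ) ≤ b := by exact_mod_cast Nat.totient_le b
  have hsq : 100 * (n : ℤ) ≤ (n : ℤ) ^ 2 := by nlinarith
  have x1 : |(m : ℤ)| = m := abs_of_pos hm
  have x2 : |(k0 : ℤ) - m| ≤ n := by rw [abs_le]; constructor <;> linarith
  have x3 : |-(m : ℤ)| = m := by rw [abs_neg, x1]
  have x4 : |(n : ℤ) - k0 + m| ≤ 2 * n := by rw [abs_le]; constructor <;> linarith
  have y1 : |A1| ≤ n := by
    have := abs_le_of_mul h.a0 h.hA1
    linarith
  have y2 : |B1| ≤ n := (abs_le_of_mul h.a0 h.hB1).trans x2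
  have y3 : |A2| ≤ n := by
    have := abs_le_of_mul h.b0 h.hA2
    linarith
  have y4 : |B2| ≤ 2 * n := (abs_le_of_mul h.b0 h.hB2).trans x4
  have aA1 : (a : ℤ) * |A1| = m := by
    have := congrArg abs h.hA1
    rwa [abs_mul, x1, abs_of_pos ha] at this
  have aB1 : (a : ℤ) * |B1| ≤ n := by
    have := congrArg abs h.hB1
    rw [abs_mul, abs_of_pos ha] at this
    linarith
  have bA2 : (b : ℤ) * |A2| = m := by
    have := congrArg abs h.hA2
    rwa [abs_mul, x3, abs_of_pos hb] at this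
  have bB2 : (b : ℤ) * |B2| ≤ 2 * n := by
    have := congrArg abs h.hB2
    rw [abs_mul, abs_of_pos hb] at this
    linarith
  have z1 : |2 * (a.totient : ℤ) * A1| ≤ 2 * n := by
    rw [abs_mul, abs_of_pos (by positivity : (0 : ℤ) < 2 * a.totient)]
    nlinarith [abs_nonneg A1]
  have z2 : |(b.totient : ℤ) * A2| ≤ n := by
    rw [abs_mul, abs_of_pos hφb]
    nlinarith [abs_nonneg A2]
  have z3 : |2 * (a.totient : ℤ) * B1| ≤ 2 * n := by
    rw [abs_mul, abs_of_pos (by positivity : (0 : ℤ) < 2 * a.totient)]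
    nlinarith [abs_nonneg B1]
  have z4 : |(b.totient : ℤ) * B2| ≤ 2 * n := by
    rw [abs_mul, abs_of_pos hφb]
    nlinarith [abs_nonneg B2]
  have z5 : |(2 - 2 * (a.totient : ℤ) - (b.totient : ℤ))| ≤ 3 * n := by
    rw [abs_le]
    constructor <;> linarith
  have z6 : |A3 a b A1 A2| ≤ 3 * n := by
    unfold A3
    have := abs_add_le (2 * (a.totient : ℤ) * A1) ((b.totient : ℤ) * A2)
    linarith
  have z7 : |B3 a b B1 B2| ≤ 7 * n := by
    unfold B3
    have u1 := abs_add_le (2 * (a.totient : ℤ) * B1 + (b.totient : ℤ) * B2)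
      (2 - 2 * (a.totient : ℤ) - (b.totient : ℤ))
    have u2 := abs_add_le (2 * (a.totient : ℤ) * B1) ((b.totient : ℤ) * B2)
    linarith
  refine ⟨?_, ?_, ?_, ?_, ?_, ?_⟩ <;> linarith

theorem abs_det {x y z w M : ℤ} (hM : 0 ≤ M) (hx : |x| ≤ M) (hy : |y| ≤ M) (hz : |z| ≤ M)
    (hw : |w| ≤ M) : |x * y - z * w| ≤ 2 * M ^ 2 := by
  have h1 : |x * y| ≤ M * M := by
    rw [abs_mul]
    exact mul_le_mul hx hy (abs_nonneg _) hM
  have h2 : |z * w| ≤ M * M := by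
    rw [abs_mul]
    exact mul_le_mul hz hw (abs_nonneg _) hM
  have h3 := abs_sub (x * y) (z * w)
  nlinarith

theorem Dat.size (h : Dat n a b m k0 A1 B1 A2 B2) (hn8 : 100 ≤ n) :
    2 * (PP a b A1 B1 A2 B2).natAbs ≤ n ^ 40 := by
  obtain ⟨y1, y2, y3, y4, y5, y6⟩ := h.bounds hn8
  have hn : (100 : ℤ) ≤ n := by exact_mod_cast hn8
  have hM : (0 : ℤ) ≤ (n : ℤ) ^ 2 := by positivity
  have d1 := abs_det hM y1 y4 y3 y2
  have d2 := abs_det hM y1 y6 y5 y2
  have d3 := abs_det hM y3 y6 y5 y4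
  have d0 : 2 * ((n : ℤ) ^ 2) ^ 2 ≤ (n : ℤ) ^ 5 := by
    have : (0 : ℤ) ≤ (n : ℤ) ^ 4 := by positivity
    nlinarith
  have key : |PP a b A1 B1 A2 B2| ≤ (n : ℤ) ^ 2 * (n : ℤ) ^ 2 * (n : ℤ) ^ 2 * (n : ℤ) ^ 5 *
      (n : ℤ) ^ 5 * (n : ℤ) ^ 5 := by
    unfold PP
    rw [abs_mul, abs_mul, abs_mul, abs_mul, abs_mul]
    have n5 : (0 : ℤ) ≤ (n : ℤ) ^ 5 := by positivity
    gcongr
    · exact d1.trans d0
    · exact d2.trans d0
    · exact d3.trans d0
  have e1 : (n : ℤ) ^ 2 * (n : ℤ) ^ 2 * (n : ℤ) ^ 2 * (n : ℤ) ^ 5 * (n : ℤ) ^ 5 * (n : ℤ) ^ 5 =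
      (n : ℤ) ^ 21 := by ring
  rw [e1] at key
  have key2 : ((PP a b A1 B1 A2 B2).natAbs : ℤ) ≤ (n : ℤ) ^ 21 := by
    rw [Int.natCast_natAbs]
    exact key
  have key3 : (PP a b A1 B1 A2 B2).natAbs ≤ n ^ 21 := by exact_mod_cast key2
  calc 2 * (PP a b A1 B1 A2 B2).natAbs ≤ n * n ^ 21 := Nat.mul_le_mul (by omega) key3
    _ = n ^ 22 := by ring
    _ ≤ n ^ 40 := Nat.pow_le_pow_right (by omega) (by norm_num)

/-- the product of the moduli, times `yv`, is at most `n` -/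
theorem mul_yv {n a b : ℕ} {L l : ℝ} (h : Reg n L l)
    (hab : (a : ℝ) * b ≤ Real.exp (L - L / l ^ 4)) : (a : ℝ) * b * yv L l ≤ n := by
  have h1 : Real.exp (L - L / l ^ 4) * yv L l = n := by
    unfold yv
    rw [← Real.exp_add, sub_add_cancel, h.expL]
  rw [← h1]
  exact mul_le_mul_of_nonneg_right hab (Real.exp_pos _).le

theorem yv_big {n : ℕ} {L l : ℝ} (h : Reg n L l) : 10 ^ 6 ≤ yv L l := by
  have h1 := h.pow_le_yv (m := 1) (by norm_num)
  rw [pow_one] at h1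
  exact h.Lge.trans h1

theorem z3_lt {n : ℕ} {L l : ℝ} (h : Reg n L l) : z3 L l < yv L l := by
  unfold z3 yv
  apply Real.exp_lt_exp.2
  have hl := h.lpos
  have hL := h.Lpos
  rw [div_lt_div_iff₀ (by positivity) (by positivity)]
  have h1 : l ^ 4 < 250 * l ^ 5 := by
    have h2 : l ^ 5 = l * l ^ 4 := by ring
    rw [h2]
    have h3 : 0 < l ^ 4 := by positivity
    nlinarith [h.one]
  exact mul_lt_mul_of_pos_left h1 hL

theorem lcm_dvd_int {a b : ℕ} {x : ℤ} (h1 : (a : ℤ) ∣ x) (h2 : (b : ℤ) ∣ x) :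
    ((Nat.lcm a b : ℕ) : ℤ) ∣ x := by
  rw [Int.natCast_dvd] at h1 h2 ⊢
  exact Nat.lcm_dvd h1 h2

/-- the facts about a member of `KK` -/
theorem mem_KK {n : ℕ} {L l : ℝ} {a b k : ℕ} (hk : k ∈ KK n L l a b) : k < n ∧ 0 < k ∧
    (qq n k).Prime ∧ ∃ r s : ℕ, r.Prime ∧ s.Prime ∧
      yv L l ≤ r ∧ yv L l ≤ s ∧ k = a * r ∧ n - k = b * s ∧ ¬ r ∣ a ∧ ¬ s ∣ b := by
  classical
  unfold KK at hk
  rw [mem_filter, mem_range] at hk
  exact ⟨hk.1, hk.2.1, hk.2.2.1, hk.2.2.2⟩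

theorem exists_dat {n : ℕ} {L l : ℝ} {a b : ℕ} (h : Reg n L l) (ha : 1 ≤ a) (hb : 1 ≤ b)
    (hab : (a : ℝ) * b ≤ Real.exp (L - L / l ^ 4)) (hne : 2 * a.totient * b ≠ b.totient * a)
    {k1 : ℕ} (hk1 : k1 ∈ KK n L l a b) : ∃ A1 B1 A2 B2 : ℤ,
      Dat n a b (Nat.lcm a b) (k1 % Nat.lcm a b) A1 B1 A2 B2 := by
  obtain ⟨hkn, _, _, r, s, _, _, _, _, hr, hs, _, _⟩ := mem_KK hk1
  have hm0 : 0 < Nat.lcm a b := Nat.lcm_pos ha hb
  have e1 : (k1 : ℤ) = Nat.lcm a b * (k1 / Nat.lcm a b : ℕ) + (k1 % Nat.lcm a b : ℕ) := by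
    exact_mod_cast (Nat.div_add_mod k1 (Nat.lcm a b)).symm
  obtain ⟨u, hu⟩ : (a : ℤ) ∣ (Nat.lcm a b : ℕ) := by exact_mod_cast Nat.dvd_lcm_left a b
  obtain ⟨w, hw⟩ : (b : ℤ) ∣ (Nat.lcm a b : ℕ) := by exact_mod_cast Nat.dvd_lcm_right a b
  have e2 : (k1 : ℤ) = a * r := by exact_mod_cast hr
  have e3 : (n : ℤ) - k1 = b * s := by
    have : ((n - k1 : ℕ) : ℤ) = b * s := by exact_mod_cast hs
    rw [Nat.cast_sub hkn.le] at this
    exact this
  refine ⟨u, r - u * (k1 / Nat.lcm a b : ℕ) - u, -w, s + w * (k1 / Nat.lcm a b : ℕ) + w,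
    ⟨ha, hb, hm0, Nat.mod_lt _ hm0, hu.symm, ?_, ?_, ?_, ?_, ?_, hne⟩⟩
  · rw [hu] at e1 ⊢
    linear_combination -e2 + e1
  · rw [hw]
    ring
  · rw [hw] at e1 ⊢
    linear_combination -e3 - e1
  · exact Nat.le_of_dvd (Nat.mul_pos ha hb) (Nat.lcm_dvd_mul a b)
  · have h1 := mul_yv h hab
    have h2 := yv_big h
    have h3 : (0 : ℝ) ≤ (a : ℝ) * b := by positivity
    have h4 : 4 * ((a : ℝ) * b) ≤ n := by nlinarith
    exact_mod_cast h4

theorem mod_eq {n : ℕ} {L l : ℝ} {a b k k1 : ℕ} (hk : k ∈ KK n L l a b)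
    (hk1 : k1 ∈ KK n L l a b) : k % Nat.lcm a b = k1 % Nat.lcm a b := by
  obtain ⟨hkn, _, _, r, s, _, _, _, _, hr, hs, _, _⟩ := mem_KK hk
  obtain ⟨hkn1, _, _, r1, s1, _, _, _, _, hr1, hs1, _, _⟩ := mem_KK hk1
  have e2 : (k : ℤ) = a * r := by exact_mod_cast hr
  have e2' : (k1 : ℤ) = a * r1 := by exact_mod_cast hr1
  have e3 : (n : ℤ) - k = b * s := by
    have : ((n - k : ℕ) : ℤ) = b * s := by exact_mod_cast hs
    rw [Nat.cast_sub hkn.le] at this
    exact this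
  have e3' : (n : ℤ) - k1 = b * s1 := by
    have : ((n - k1 : ℕ) : ℤ) = b * s1 := by exact_mod_cast hs1
    rw [Nat.cast_sub hkn1.le] at this
    exact this
  have h1 : ((Nat.lcm a b : ℕ) : ℤ) ∣ (k1 : ℤ) - k := by
    apply lcm_dvd_int
    · exact ⟨r1 - r, by rw [e2, e2']; ring⟩
    · exact ⟨s - s1, by linear_combination e3 - e3'⟩
  exact Nat.modEq_iff_dvd.2 h1

/-- the values of the three forms at `t = k / m + 1` -/
theorem values {n : ℕ} {L l : ℝ} {a b k : ℕ} (h : Reg n L l) {k0 : ℕ} {A1 B1 A2 B2 : ℤ}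
    (hd : Dat n a b (Nat.lcm a b) k0 A1 B1 A2 B2) (hk : k ∈ KK n L l a b)
    (hk0 : k % Nat.lcm a b = k0) {r s : ℕ} (hrp : r.Prime) (hsp : s.Prime)
    (hs2 : yv L l ≤ s) (hr : k = a * r) (hs : n - k = b * s) (hra : ¬ r ∣ a) (hsb : ¬ s ∣ b) :
    A1 * ((k / Nat.lcm a b + 1 : ℕ) : ℤ) + B1 = r ∧
    A2 * ((k / Nat.lcm a b + 1 : ℕ) : ℤ) + B2 = s ∧
    A3 a b A1 A2 * ((k / Nat.lcm a b + 1 : ℕ) : ℤ) + B3 a b B1 B2 = 2 * (qq n k : ℕ) := by
  obtain ⟨hkn, _, _, _⟩ := mem_KK hk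
  have ha : (a : ℤ) ≠ 0 := by exact_mod_cast hd.a0.ne'
  have hb : (b : ℤ) ≠ 0 := by exact_mod_cast hd.b0.ne'
  have e1 : (k : ℤ) = Nat.lcm a b * (k / Nat.lcm a b : ℕ) + k0 := by
    rw [← hk0]
    exact_mod_cast (Nat.div_add_mod k (Nat.lcm a b)).symm
  have e2 : (k : ℤ) = a * r := by exact_mod_cast hr
  have e3 : (n : ℤ) - k = b * s := by
    have : ((n - k : ℕ) : ℤ) = b * s := by exact_mod_cast hs
    rw [Nat.cast_sub hkn.le] at this
    exact this
  have v1 : A1 * ((k / Nat.lcm a b + 1 : ℕ) : ℤ) + B1 = r := by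
    apply mul_left_cancel₀ ha
    rw [← e2, Nat.cast_add, Nat.cast_one]
    linear_combination ((k / Nat.lcm a b : ℕ) + 1 : ℤ) * hd.hA1 + hd.hB1 - e1
  have v2 : A2 * ((k / Nat.lcm a b + 1 : ℕ) : ℤ) + B2 = s := by
    apply mul_left_cancel₀ hb
    rw [← e3, Nat.cast_add, Nat.cast_one]
    linear_combination ((k / Nat.lcm a b : ℕ) + 1 : ℤ) * hd.hA2 + hd.hB2 + e1
  refine ⟨v1, v2, ?_⟩
  have c1 : Nat.Coprime a r := ((Nat.Prime.coprime_iff_not_dvd hrp).2 hra).symm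
  have c2 : Nat.Coprime b s := ((Nat.Prime.coprime_iff_not_dvd hsp).2 hsb).symm
  have t1 : k.totient = a.totient * (r - 1) := by
    rw [hr, Nat.totient_mul c1, Nat.totient_prime hrp]
  have t2 : (n - k).totient = b.totient * (s - 1) := by
    rw [hs, Nat.totient_mul c2, Nat.totient_prime hsp]
  have t3 : Even (n - k).totient := by
    apply Nat.totient_even
    rw [hs]
    have h3 := yv_big h
    have h4 : (2 : ℝ) < s := by linarith
    have h5 : 2 < s := by exact_mod_cast h4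
    exact lt_of_lt_of_le h5 (Nat.le_mul_of_pos_left s hd.b0)
  have t4 : 2 * qq n k = 2 * (a.totient * (r - 1)) + b.totient * (s - 1) + 2 := by
    obtain ⟨j, hj⟩ := t3
    unfold qq
    rw [t1, ← t2]
    omega
  have r1 := hrp.one_le
  have s1 := hsp.one_le
  have t5 : (2 : ℤ) * (qq n k : ℕ) =
      2 * ((a.totient : ℤ) * (r - 1)) + (b.totient : ℤ) * (s - 1) + 2 := by
    have := congrArg (Nat.cast : ℕ → ℤ) t4
    push_cast [Nat.cast_sub r1, Nat.cast_sub s1] at this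
    exact this
  rw [t5, ← v1, ← v2]
  unfold A3 B3
  ring

theorem not_bad {n : ℕ} {L l : ℝ} {a b k : ℕ} (h : Reg n L l) {k0 : ℕ} {A1 B1 A2 B2 : ℤ}
    (hd : Dat n a b (Nat.lcm a b) k0 A1 B1 A2 B2) (hk : k ∈ KK n L l a b)
    (hk0 : k % Nat.lcm a b = k0) {p : ℕ} (hp : p.Prime) (hpz : (p : ℝ) ≤ z3 L l)
    (hp2 : ¬ p ∣ 2) :
    ¬ Bad3 A1 B1 A2 B2 (A3 a b A1 A2) (B3 a b B1 B2) p (k / Nat.lcm a b + 1) := by
  obtain ⟨hkn, _, hq, r, s, hrp, hsp, hry, hsy, hr, hs, hra, hsb⟩ := mem_KK hk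
  obtain ⟨v1, v2, v3⟩ := values h hd hk hk0 hrp hsp hsy hr hs hra hsb
  have hzy := z3_lt h
  have hnr : ∀ x : ℕ, x.Prime → yv L l ≤ x → ¬ p ∣ x := by
    intro x hx hxy hpx
    have := (Nat.prime_dvd_prime_iff_eq hp hx).1 hpx
    subst this
    linarith
  unfold Bad3
  rw [v1, v2, v3]
  rintro (hc | hc | hc)
  · exact hnr r hrp hry (by exact_mod_cast hc)
  · exact hnr s hsp hsy (by exact_mod_cast hc)
  · have hc' : p ∣ 2 * qq n k := by exact_mod_cast hc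
    rcases (Nat.Prime.dvd_mul hp).1 hc' with hc2 | hc2
    · exact hp2 hc2
    · refine hnr _ hq ?_ hc2
      have hle : r ≤ qq n k := by
        have c1 : Nat.Coprime a r := ((Nat.Prime.coprime_iff_not_dvd hrp).2 hra).symm
        have t1 : k.totient = a.totient * (r - 1) := by
          rw [hr, Nat.totient_mul c1, Nat.totient_prime hrp]
        have t2 : r - 1 ≤ a.totient * (r - 1) :=
          Nat.le_mul_of_pos_left _ (Nat.totient_pos.2 hd.a0)
        unfold qq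
        rw [t1]
        omega
      have : (r : ℝ) ≤ qq n k := by exact_mod_cast hle
      linarith

end CLS_

open CLS_ in
theorem p_CLS (h1 : T_SVP) (h2 : T_RHO3) : T_CLS := by
  obtain ⟨C, hC, hS⟩ := h1
  refine ⟨2 * C, by positivity, ?_⟩
  intro n L l h a b ha hb hab hne
  have hL := h.Lpos
  have hl := h.lpos
  refine ⟨?_, ?_⟩
  · intro hg
    rw [Finset.eq_empty_iff_forall_notMem]
    intro k hk
    apply hg
    obtain ⟨hkn, _, _, r, s, _, _, _, _, hr, hs, _, _⟩ := mem_KK hk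
    have e : n = k + (n - k) := by omega
    rw [e]
    apply dvd_add
    · rw [hr]
      exact (Nat.gcd_dvd_left a b).mul_right r
    · rw [hs]
      exact (Nat.gcd_dvd_right a b).mul_right s
  · rcases Finset.eq_empty_or_nonempty (KK n L l a b) with he | ⟨k1, hk1⟩
    · rw [he, Finset.card_empty, Nat.cast_zero]
      positivity
    · obtain ⟨A1, B1, A2, B2, hd⟩ := exists_dat h ha hb hab hne hk1
      have hm0 : 0 < Nat.lcm a b := Nat.lcm_pos ha hb
      have hyb := yv_big h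
      have hmy := mul_yv h hab
      have hmr : (0 : ℝ) < Nat.lcm a b := by exact_mod_cast hm0
      have hmab : (Nat.lcm a b : ℝ) ≤ a * b := by exact_mod_cast hd.mab
      have hab0 : (0 : ℝ) < (a : ℝ) * b := by
        have : 0 < a * b := Nat.mul_pos ha hb
        exact_mod_cast this
      have hn100 : 100 ≤ n := by
        have h4 : (1 : ℝ) ≤ (a : ℝ) * b := by
          have : 1 ≤ a * b := Nat.mul_pos ha hb
          exact_mod_cast this
        have h5 : (100 : ℝ) ≤ n := by nlinarith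
        exact_mod_cast h5
      have hquo : yv L l ≤ (n : ℝ) / Nat.lcm a b := by
        rw [le_div_iff₀ hmr]
        calc yv L l * Nat.lcm a b ≤ yv L l * (a * b) := by
              apply mul_le_mul_of_nonneg_left hmab
              linarith
          _ = a * b * yv L l := by ring
          _ ≤ n := hmy
      have hTlow : (n : ℝ) / Nat.lcm a b ≤ ((n / Nat.lcm a b + 1 : ℕ) : ℝ) := by
        rw [div_le_iff₀ hmr]
        have := Nat.lt_div_mul_add (a := n) hm0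
        have h6 : n ≤ (n / Nat.lcm a b + 1) * Nat.lcm a b := by
          rw [Nat.add_mul, one_mul]
          exact this.le
        exact_mod_cast h6
      have hThigh : ((n / Nat.lcm a b + 1 : ℕ) : ℝ) ≤ 2 * ((Nat.gcd a b : ℝ) * n / (a * b)) := by
        have h7 : ((n / Nat.lcm a b : ℕ) : ℝ) ≤ (n : ℝ) / Nat.lcm a b := Nat.cast_div_le
        have h8 : (n : ℝ) / Nat.lcm a b = (Nat.gcd a b : ℝ) * n / (a * b) := by
          have h9 : (Nat.gcd a b : ℝ) * Nat.lcm a b = a * b := by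
            exact_mod_cast Nat.gcd_mul_lcm a b
          rw [div_eq_div_iff hmr.ne' hab0.ne', ← h9]
          ring
        rw [← h8]
        push_cast
        linarith
      obtain ⟨hper, hrho⟩ := h2 A1 B1 A2 B2 (A3 a b A1 A2) (B3 a b B1 B2)
      have hN0 : 2 * (PP a b A1 B1 A2 B2).natAbs ≠ 0 := by
        have := Int.natAbs_ne_zero.2 hd.pp_ne
        omega
      have hcnt := hS n L l h (Bad3 A1 B1 A2 B2 (A3 a b A1 A2) (B3 a b B1 B2)) hper
        (2 * (PP a b A1 B1 A2 B2).natAbs) (n / Nat.lcm a b + 1) hN0 (dvd_mul_right 2 _)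
        (hd.size hn100) (by linarith) (by
          intro p hp hpN
          apply hrho p hp
          intro hc
          apply hpN
          have hc2 : (p : ℤ) ∣ PP a b A1 B1 A2 B2 := hc
          rw [Int.natCast_dvd] at hc2
          exact hc2.mul_left 2)
      have hinj : ((KK n L l a b).card : ℝ) ≤ cnt (Ioc 0 (n / Nat.lcm a b + 1))
          (fun t => ∀ p : ℕ, p.Prime → (p : ℝ) ≤ z3 L l →
            ¬ p ∣ 2 * (PP a b A1 B1 A2 B2).natAbs →
            ¬ Bad3 A1 B1 A2 B2 (A3 a b A1 A2) (B3 a b B1 B2) p t) := by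
        classical
        unfold cnt
        rw [Nat.cast_le]
        apply Finset.card_le_card_of_injOn (fun k => k / Nat.lcm a b + 1)
        · intro k hk
          have hk' : k ∈ KK n L l a b := hk
          obtain ⟨hkn, _⟩ := mem_KK hk'
          simp only [Finset.coe_filter, Finset.mem_Ioc, Set.mem_ofPred_eq]
          refine ⟨⟨Nat.succ_pos _, Nat.add_le_add_right (Nat.div_le_div_right hkn.le) 1⟩, ?_⟩
          intro p hp hpz hpN
          exact not_bad h hd hk' (mod_eq hk' hk1) hp hpz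
            (fun hp2 => hpN (hp2.mul_right _))
        · intro k hk k' hk' hkk
          have hk2 : k ∈ KK n L l a b := hk
          have hk2' : k' ∈ KK n L l a b := hk'
          have e1 := mod_eq hk2 hk2'
          have e2 : k / Nat.lcm a b + 1 = k' / Nat.lcm a b + 1 := hkk
          have e3 : k / Nat.lcm a b = k' / Nat.lcm a b := by omega
          rw [← Nat.div_add_mod k (Nat.lcm a b), ← Nat.div_add_mod k' (Nat.lcm a b), e1, e3]
      calc ((KK n L l a b).card : ℝ) ≤ C * ((n / Nat.lcm a b + 1 : ℕ) : ℝ) * l ^ 39 / L ^ 3 :=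
            hinj.trans hcnt
        _ ≤ C * (2 * ((Nat.gcd a b : ℝ) * n / (a * b))) * l ^ 39 / L ^ 3 := by gcongr
        _ = 2 * C * ((Nat.gcd a b : ℝ) * n / (a * b)) * l ^ 39 / L ^ 3 := by ring

end Pool.Agent.TSU
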