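import Pool.Agent.TSU.Targets

/-!
# TSU: target CNT
-/

set_option autoImplicit false

open Finset

namespace Pool.Agent.TSU

namespace CNT_

open Classical in
/-- the triples `(k, r, s)` of the sum -/
noncomputable def src (n : ℕ) (L l : ℝ) : Finset (Σ _ : ℕ, ℕ × ℕ) :=
  (Ico 1 n).sigma fun k => (k.primeFactors ×ˢ (n - k).primeFactors).filter fun q =>
    (n : ℝ) / L ^ 2 ≤ k ∧ ¬ q.2 ∣ k ∧ Real.exp (L / 2 + L / l) < q.1 ∧
      Real.exp (L / l) < q.2 ∧ Real.exp (L - L / l ^ 4) < (q.1 : ℝ) * q.2 ∧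
      (q.1 : ℝ) * q.2 < Real.exp (L + L / l ^ 4)

/-- the primes `s` of T_WIN -/
noncomputable def win (n : ℕ) (L l : ℝ) (a : ℕ) : Finset ℕ :=
  prs n (fun s => Real.exp (L / l) < s ∧ a * Real.exp (-(L / l ^ 4)) < s ∧
    (s : ℝ) ≤ a * L ^ 2 * Real.exp (L / l ^ 4))

open Classical in
/-- those which satisfy the hypotheses of T_TAS -/
noncomputable def win' (n : ℕ) (L l : ℝ) (a : ℕ) : Finset ℕ :=
  (win n L l a).filter fun s => ¬ s ∣ a ∧ (a : ℝ) * s ≤ Real.exp (L - L / l)

open Classical in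
/-- the primes `r` of T_TAS -/
noncomputable def rr (n : ℕ) (L l : ℝ) (a s : ℕ) : Finset ℕ :=
  (range n).filter fun r => r.Prime ∧ z1 L l < r ∧ a * r < n ∧ s ∣ n - a * r

/-- the triples `(a, s, r)` -/
noncomputable def tgt (n : ℕ) (L l : ℝ) : Finset (Σ _ : ℕ, Σ _ : ℕ, ℕ) :=
  (Icc 1 n).sigma fun a => (win' n L l a).sigma fun s => rr n L l a s

lemma lhs_eq (n : ℕ) (L l : ℝ) :
    ∑ k ∈ Ico 1 n, ∑ r ∈ k.primeFactors, ∑ s ∈ (n - k).primeFactors,
      (if (n : ℝ) / L ^ 2 ≤ k ∧ ¬ s ∣ k ∧ Real.exp (L / 2 + L / l) < r ∧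
        Real.exp (L / l) < s ∧ Real.exp (L - L / l ^ 4) < (r : ℝ) * s ∧
        (r : ℝ) * s < Real.exp (L + L / l ^ 4) then (1 : ℝ) else 0) = ((src n L l).card : ℝ) := by
  classical
  unfold src
  rw [Finset.card_sigma, Nat.cast_sum]
  refine Finset.sum_congr rfl fun k _ => ?_
  rw [Finset.card_filter, Nat.cast_sum, Finset.sum_product]
  refine Finset.sum_congr rfl fun r _ => ?_
  refine Finset.sum_congr rfl fun s _ => ?_
  push_cast
  rfl

lemma mem_rr_of (n : ℕ) (L l : ℝ) (h : Reg n L l) {k r s : ℕ} (hk1 : 1 ≤ k) (hkn : k < n)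
    (hr : r.Prime) (hrk : r ∣ k) (hs : s.Prime) (hsk : s ∣ n - k) (c1 : (n : ℝ) / L ^ 2 ≤ k)
    (c2 : ¬ s ∣ k) (c3 : Real.exp (L / 2 + L / l) < r) (c4 : Real.exp (L / l) < s)
    (c5 : Real.exp (L - L / l ^ 4) < (r : ℝ) * s)
    (c6 : (r : ℝ) * s < Real.exp (L + L / l ^ 4)) :
    k / r ∈ Icc 1 n ∧ s ∈ win' n L l (k / r) ∧ r ∈ rr n L l (k / r) s := by
  classical
  have hL := h.Lpos
  have hl := h.lpos
  have hl1 := h.one
  obtain ⟨a, rfl⟩ := hrk
  have hr0 : 0 < r := hr.pos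
  have ha : r * a / r = a := Nat.mul_div_cancel_left a hr0
  rw [ha]
  have ha1 : 1 ≤ a := by
    rcases Nat.eq_zero_or_pos a with h0 | h0
    · subst h0; simp at hk1
    · exact h0
  have han : a ≤ n := by
    have : a ≤ r * a := Nat.le_mul_of_pos_left a hr0
    omega
  have hrn : r < n := by
    have : r ≤ r * a := Nat.le_mul_of_pos_right r ha1
    omega
  have hsn : s ≤ n := by
    have h1 := Nat.le_of_dvd (by omega) hsk
    omega
  have hr0' : (0 : ℝ) < r := by exact_mod_cast hr0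
  have ha0' : (0 : ℝ) < a := by exact_mod_cast ha1
  have hs0' : (0 : ℝ) < s := by exact_mod_cast hs.pos
  have hkn' : (r : ℝ) * a < Real.exp L := by
    rw [h.expL]; exact_mod_cast hkn
  have hnk' : Real.exp L ≤ (r : ℝ) * a * L ^ 2 := by
    rw [h.expL]
    have := (div_le_iff₀ (by positivity : (0 : ℝ) < L ^ 2)).1 c1
    push_cast at this
    exact this
  refine ⟨Finset.mem_Icc.2 ⟨ha1, han⟩, ?_, ?_⟩
  · simp only [win', win, prs, Finset.mem_filter, Finset.mem_range]
    refine ⟨⟨by omega, hs, c4, ?_, ?_⟩, ?_, ?_⟩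
    · -- lower bound
      have h1 : (r : ℝ) * (a * Real.exp (-(L / l ^ 4))) < r * s := by
        calc (r : ℝ) * (a * Real.exp (-(L / l ^ 4))) = (r * a) * Real.exp (-(L / l ^ 4)) := by
              ring
          _ < Real.exp L * Real.exp (-(L / l ^ 4)) := by
              exact mul_lt_mul_of_pos_right hkn' (Real.exp_pos _)
          _ = Real.exp (L - L / l ^ 4) := by rw [← Real.exp_add]; ring_nf
          _ < r * s := c5
      exact lt_of_mul_lt_mul_left h1 hr0'.le
    · -- upper bound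
      have h1 : (r : ℝ) * s ≤ r * (a * L ^ 2 * Real.exp (L / l ^ 4)) := by
        calc (r : ℝ) * s ≤ Real.exp (L + L / l ^ 4) := c6.le
          _ = Real.exp L * Real.exp (L / l ^ 4) := by rw [Real.exp_add]
          _ ≤ (r * a * L ^ 2) * Real.exp (L / l ^ 4) := by
              exact mul_le_mul_of_nonneg_right hnk' (Real.exp_pos _).le
          _ = _ := by ring
      exact le_of_mul_le_mul_left h1 hr0'
    · intro hsa
      exact c2 (Dvd.dvd.mul_left hsa r)
    · -- product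
      have h1 : ((a : ℝ) * s) * (r * r) ≤ Real.exp (L - L / l) * (r * r) := by
        calc ((a : ℝ) * s) * (r * r) = (r * a) * (r * s) := by ring
          _ ≤ Real.exp L * Real.exp (L + L / l ^ 4) :=
              mul_le_mul hkn'.le c6.le (by positivity) (Real.exp_pos _).le
          _ = Real.exp (L + (L + L / l ^ 4)) := by rw [← Real.exp_add]
          _ ≤ Real.exp ((L - L / l) + ((L / 2 + L / l) + (L / 2 + L / l))) := by
              apply Real.exp_le_exp.2
              have h2 : L / l ^ 4 ≤ L / l := by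
                apply div_le_div_of_nonneg_left hL.le hl
                calc l = l ^ 1 := (pow_one l).symm
                  _ ≤ l ^ 4 := pow_le_pow_right₀ hl1 (by norm_num)
              linarith
          _ = Real.exp (L - L / l) * (Real.exp (L / 2 + L / l) * Real.exp (L / 2 + L / l)) := by
              rw [Real.exp_add, Real.exp_add (L / 2 + L / l)]
          _ ≤ Real.exp (L - L / l) * (r * r) := by
              apply mul_le_mul_of_nonneg_left _ (Real.exp_pos _).le
              exact mul_le_mul c3.le c3.le (Real.exp_pos _).le hr0'.le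
      exact le_of_mul_le_mul_right h1 (by positivity)
  · simp only [rr, Finset.mem_filter, Finset.mem_range]
    refine ⟨hrn, hr, ?_, ?_, ?_⟩
    · refine lt_of_le_of_lt ?_ c3
      unfold z1
      apply Real.exp_le_exp.2
      have h2 : L / (250 * l ^ 2) ≤ L / l := by
        apply div_le_div_of_nonneg_left hL.le hl
        nlinarith
      linarith
    · rw [mul_comm]; exact hkn
    · rw [mul_comm a r]; exact hsk

lemma card_le (n : ℕ) (L l : ℝ) (h : Reg n L l) : (src n L l).card ≤ (tgt n L l).card := by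
  classical
  apply Finset.card_le_card_of_injOn (fun x => ⟨x.1 / x.2.1, ⟨x.2.2, x.2.1⟩⟩)
  · rintro ⟨k, r, s⟩ hx
    simp only [src, Finset.coe_sigma, Set.mem_sigma_iff, Finset.mem_coe, Finset.mem_Ico,
      Finset.mem_filter, Finset.mem_product] at hx
    obtain ⟨⟨hk1, hkn⟩, ⟨hr, hs⟩, c1, c2, c3, c4, c5, c6⟩ := hx
    have hr' := Nat.prime_of_mem_primeFactors hr
    have hr'' := Nat.dvd_of_mem_primeFactors hr
    have hs' := Nat.prime_of_mem_primeFactors hs
    have hs'' := Nat.dvd_of_mem_primeFactors hs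
    obtain ⟨h1, h2, h3⟩ := mem_rr_of n L l h hk1 hkn hr' hr'' hs' hs'' c1 c2 c3 c4 c5 c6
    simp only [tgt, Finset.coe_sigma, Set.mem_sigma_iff, Finset.mem_coe]
    exact ⟨h1, h2, h3⟩
  · rintro ⟨k, r, s⟩ hx ⟨k', r', s'⟩ hx' he
    simp only [src, Finset.coe_sigma, Set.mem_sigma_iff, Finset.mem_coe, Finset.mem_Ico,
      Finset.mem_filter, Finset.mem_product] at hx hx'
    have hr := Nat.dvd_of_mem_primeFactors hx.2.1.1
    have hr' := Nat.dvd_of_mem_primeFactors hx'.2.1.1
    simp only [Sigma.mk.injEq, heq_eq_eq] at he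
    obtain ⟨e1, e2, e3⟩ := he
    subst e2 e3
    have e4 : k = k' := by
      rw [← Nat.div_mul_cancel hr, ← Nat.div_mul_cancel hr', e1]
    subst e4
    rfl

lemma harm (n : ℕ) (L l : ℝ) (h : Reg n L l) : ∑ a ∈ Icc 1 n, 1 / (a : ℝ) ≤ 1 + L := by
  have h1 := harmonic_le_one_add_log n
  rw [h.hL]
  refine le_trans (le_of_eq ?_) h1
  rw [harmonic_eq_sum_Icc]
  push_cast
  refine Finset.sum_congr rfl fun a _ => ?_
  rw [one_div]

end CNT_

open CNT_ in
theorem p_CNT (h1 : T_TAS) (h2 : T_WIN) : T_CNT := by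
  classical
  obtain ⟨C1, hC1, H1⟩ := h1
  obtain ⟨C2, hC2, H2⟩ := h2
  refine ⟨2 * C1 * C2, by positivity, ?_⟩
  intro n L l h
  have hL := h.Lpos
  have hl := h.lpos
  have hl1 := h.one
  have hn := h.n0
  rw [lhs_eq]
  have e1 : ((src n L l).card : ℝ) ≤ ((tgt n L l).card : ℝ) := by
    exact_mod_cast card_le n L l h
  refine le_trans e1 ?_
  unfold tgt
  rw [Finset.card_sigma, Nat.cast_sum]
  have e2 : ∀ a ∈ Icc 1 n, ((((win' n L l a).sigma fun s => rr n L l a s).card : ℕ) : ℝ) ≤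
      (C1 * n * l ^ 2 / L * (C2 / l ^ 3)) * (1 / (a : ℝ)) := by
    intro a ha
    have ha1 : 1 ≤ a := (Finset.mem_Icc.1 ha).1
    have ha0 : (0 : ℝ) < a := by exact_mod_cast ha1
    rw [Finset.card_sigma, Nat.cast_sum]
    have e3 : ∀ s ∈ win' n L l a, ((rr n L l a s).card : ℝ) ≤
        (C1 * n * l ^ 2 / L * (1 / (a : ℝ))) * (1 / (s : ℝ)) := by
      intro s hs
      simp only [win', win, prs, Finset.mem_filter, Finset.mem_range] at hs
      obtain ⟨⟨_, hsp, c1, _, _⟩, c2, c3⟩ := hs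
      have e4 := H1 n L l h a s ha1 hsp c2 c1 c3
      have hs0 : (0 : ℝ) < s := by exact_mod_cast hsp.pos
      unfold cnt at e4
      refine le_trans (le_of_eq ?_) (le_trans e4 (le_of_eq ?_))
      · unfold rr
        congr 2
        ext r
        simp only [Finset.mem_filter]
      · field_simp
    refine le_trans (Finset.sum_le_sum e3) ?_
    rw [← Finset.mul_sum]
    have e5 : ∑ s ∈ win' n L l a, 1 / (s : ℝ) ≤ ∑ s ∈ win n L l a, 1 / (s : ℝ) := by
      apply Finset.sum_le_sum_of_subset_of_nonneg (Finset.filter_subset _ _)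
      intro s _ _
      positivity
    have e6 := H2 n L l h a ha1
    have e7 : ∑ s ∈ win' n L l a, 1 / (s : ℝ) ≤ C2 / l ^ 3 := le_trans e5 e6
    calc (C1 * n * l ^ 2 / L * (1 / (a : ℝ))) * ∑ s ∈ win' n L l a, 1 / (s : ℝ)
        ≤ (C1 * n * l ^ 2 / L * (1 / (a : ℝ))) * (C2 / l ^ 3) :=
          mul_le_mul_of_nonneg_left e7 (by positivity)
      _ = _ := by ring
  refine le_trans (Finset.sum_le_sum e2) ?_
  rw [← Finset.mul_sum]
  have e8 := harm n L l h
  have e9 : 1 + L ≤ 2 * L := by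
    have := h.Lge
    linarith
  calc (C1 * n * l ^ 2 / L * (C2 / l ^ 3)) * ∑ a ∈ Icc 1 n, 1 / (a : ℝ)
      ≤ (C1 * n * l ^ 2 / L * (C2 / l ^ 3)) * (2 * L) :=
        mul_le_mul_of_nonneg_left (le_trans e8 e9) (by positivity)
    _ = 2 * C1 * C2 * n / l := by
        field_simp

end Pool.Agent.TSU
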