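import Pool.Agent.TSU.Targets

set_option autoImplicit false

/-!
# TSU: CRT, the number of `k` with `r ∣ k` and `s ∣ n - k`
-/

open Finset

namespace Pool.Agent.TSU

theorem p_CRT : T_CRT := by
  classical
  intro n r s hr hs hrs
  unfold cnt
  have hcop : Nat.Coprime r s := (Nat.coprime_primes hr hs).2 hrs
  set S := (Ico 1 n).filter (fun k => r ∣ k ∧ s ∣ n - k) with hS
  suffices hm : ((#S : ℕ) : ℝ) ≤ (n : ℝ) / (r * s) + 1 by convert hm
  rcases S.eq_empty_or_nonempty with he | ⟨k1, hk1⟩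
  · rw [he, card_empty]
    have : (0 : ℝ) ≤ (n : ℝ) / (r * s) := by positivity
    push_cast
    linarith
  · rw [hS, mem_filter, mem_Ico] at hk1
    obtain ⟨⟨h1, h2⟩, h3, h4⟩ := hk1
    have hn : 1 ≤ n := by omega
    have hrs0 : 0 < r * s := Nat.mul_pos hr.pos hs.pos
    have hsub : S ⊆ (Ioc 0 (n - 1)).filter (fun k => k ≡ k1 [MOD r * s]) := by
      intro k hk
      rw [hS, mem_filter, mem_Ico] at hk
      obtain ⟨⟨g1, g2⟩, g3, g4⟩ := hk
      rw [mem_filter, mem_Ioc]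
      refine ⟨⟨by omega, by omega⟩, ?_⟩
      rw [← Nat.modEq_and_modEq_iff_modEq_mul hcop]
      constructor
      · exact ((Nat.modEq_zero_iff_dvd.2 g3).trans (Nat.modEq_zero_iff_dvd.2 h3).symm)
      · rw [Nat.modEq_iff_dvd]
        have e1 : ((k1 : ℤ) - k) = ((n - k : ℕ) : ℤ) - ((n - k1 : ℕ) : ℤ) := by
          rw [Nat.cast_sub g2.le, Nat.cast_sub h2.le]
          ring
        rw [e1]
        exact dvd_sub (Int.natCast_dvd_natCast.2 g4) (Int.natCast_dvd_natCast.2 h4)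
    have h5 := Finset.card_le_card hsub
    have h6 := Pool.Agent.Cyclic.count_class 0 (n - 1) (r * s) k1 hrs0
    rw [zero_add] at h6
    have h7 := (abs_le.1 h6).2
    have h8 : ((n - 1 : ℕ) : ℝ) ≤ n := by exact_mod_cast Nat.sub_le n 1
    have h9 : (0 : ℝ) < ((r * s : ℕ) : ℝ) := by exact_mod_cast hrs0
    have h10 : ((n - 1 : ℕ) : ℝ) / ((r * s : ℕ) : ℝ) ≤ (n : ℝ) / ((r * s : ℕ) : ℝ) :=
      div_le_div_of_nonneg_right h8 h9.le
    have h11 : ((#S : ℕ) : ℝ) ≤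
        ((#((Ioc 0 (n - 1)).filter (fun k => k ≡ k1 [MOD r * s])) : ℕ) : ℝ) := by
      exact_mod_cast h5
    have h12 : (n : ℝ) / ((r * s : ℕ) : ℝ) = (n : ℝ) / (r * s) := by push_cast; rfl
    rw [h12] at h10
    linarith

end Pool.Agent.TSU
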