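import Pool.Agent.TSU.Targets

/-!
# TSU, target DEG
-/

set_option autoImplicit false

open Finset

namespace Pool.Agent.TSU

namespace DEG_

lemma pi_bound {x : ℝ} (hx1 : 1 < x) : (Nat.primeCounting ⌊x⌋₊ : ℝ) ≤ 8 * x / Real.log x := by
  have h2 := Chebyshev.pi_le_log4_mul_div hx1
  refine h2.trans ?_
  have hlog : 0 < Real.log x := Real.log_pos hx1
  rw [Real.log_sqrt (by linarith)]
  have h4 : Real.log 4 ≤ 2 := by
    have : Real.log 4 = 2 * Real.log 2 := by
      rw [show (4 : ℝ) = 2 ^ 2 by norm_num, Real.log_pow]; norm_num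
    have := Real.log_two_lt_d9
    linarith
  have h5 : √(x : ℝ) ≤ 2 * x / Real.log x := by
    rw [le_div_iff₀ hlog]
    have h6 : Real.log x ≤ 2 * √x := by
      have h7 : Real.log √(x : ℝ) ≤ √x := Real.log_le_self (Real.sqrt_nonneg _)
      rw [Real.log_sqrt (by linarith)] at h7
      linarith
    calc √(x : ℝ) * Real.log x ≤ √(x : ℝ) * (2 * √x) :=
          mul_le_mul_of_nonneg_left h6 (Real.sqrt_nonneg _)
      _ = 2 * (√(x : ℝ) * √x) := by ring
      _ = 2 * x := by rw [Real.mul_self_sqrt (by linarith)]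
  have h6 : Real.log 4 * x / (Real.log x / 2) ≤ 4 * x / Real.log x := by
    rw [div_div_eq_mul_div]
    apply div_le_div_of_nonneg_right _ hlog.le
    nlinarith
  have h7 : 8 * (x : ℝ) / Real.log x = 4 * x / Real.log x + 2 * x / Real.log x
      + 2 * x / Real.log x := by ring
  have h8 : 0 ≤ 2 * (x : ℝ) / Real.log x := by positivity
  rw [h7]
  linarith

open Classical in
lemma one_a {n a : ℕ} {L l : ℝ} (hR : Reg n L l) (ha : 0 < a) :
    ((((range n).filter fun k => ∃ r : ℕ, r.Prime ∧ yv L l ≤ r ∧ k = a * r).card : ℕ) : ℝ) ≤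
      8 * n * l ^ 4 / L * (1 / (a : ℝ)) := by
  have hl := hR.lpos
  have hL := hR.Lpos
  have ha0 : (0 : ℝ) < a := by exact_mod_cast ha
  have hn0 := hR.n0
  set T := (range n).filter fun k => ∃ r : ℕ, r.Prime ∧ yv L l ≤ r ∧ k = a * r with hT
  rcases T.eq_empty_or_nonempty with h0 | ⟨k, hk⟩
  · rw [h0, card_empty, Nat.cast_zero]
    positivity
  · rw [hT, mem_filter, mem_range] at hk
    obtain ⟨hkn, r, hr, hyr, rfl⟩ := hk
    have h1 : (a : ℝ) * r < n := by exact_mod_cast hkn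
    have h2 : yv L l < (n : ℝ) / a := by
      rw [lt_div_iff₀ ha0]
      nlinarith
    have hyv1 : 1 < yv L l := by
      unfold yv
      rw [← Real.exp_zero]
      exact Real.exp_lt_exp.2 (by positivity)
    have hx1 : 1 < (n : ℝ) / a := hyv1.trans h2
    have h3 : L / l ^ 4 ≤ Real.log ((n : ℝ) / a) := by
      rw [Real.le_log_iff_exp_le (by linarith)]
      exact h2.le
    have h4 : T.card ≤ Nat.primeCounting ⌊(n : ℝ) / a⌋₊ := by
      rw [Nat.primeCounting, Nat.primeCounting', Nat.count_eq_card_filter_range]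
      refine Finset.card_le_card_of_injOn (fun k => k / a) ?_ ?_
      · intro k hk
        have hk' := hk
        rw [mem_coe, hT, mem_filter, mem_range] at hk'
        obtain ⟨hkn', r', hr', -, rfl⟩ := hk'
        rw [mem_coe, mem_filter, mem_range]
        simp only [Nat.mul_div_cancel_left _ ha]
        refine ⟨Nat.lt_succ_of_le (Nat.le_floor ?_), hr'⟩
        rw [le_div_iff₀ ha0]
        have : ((a * r' : ℕ) : ℝ) < n := by exact_mod_cast hkn'
        push_cast at this
        linarith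
      · intro k hk k' hk' hkk
        rw [mem_coe, hT, mem_filter, mem_range] at hk hk'
        obtain ⟨-, r', -, -, rfl⟩ := hk
        obtain ⟨-, r'', -, -, rfl⟩ := hk'
        simp only [Nat.mul_div_cancel_left _ ha] at hkk
        rw [hkk]
    have h5 : (T.card : ℝ) ≤ 8 * ((n : ℝ) / a) / Real.log ((n : ℝ) / a) := by
      refine le_trans ?_ (pi_bound hx1)
      exact_mod_cast h4
    refine h5.trans ?_
    have h6 : 8 * ((n : ℝ) / a) / Real.log ((n : ℝ) / a) ≤ 8 * ((n : ℝ) / a) / (L / l ^ 4) :=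
      div_le_div_of_nonneg_left (by positivity) (by positivity) h3
    refine h6.trans (le_of_eq ?_)
    field_simp

end DEG_

theorem p_DEG (h : T_FNS) : T_DEG := by
  classical
  obtain ⟨C, hC, h⟩ := h
  refine ⟨8 * C, by positivity, fun n L l hR => ?_⟩
  have hl := hR.lpos
  have hL := hR.Lpos
  have hn0 := hR.n0
  have hn2 : 2 ≤ n := by
    by_contra hcon
    have h1 : n ≤ 1 := by omega
    have h2 : (n : ℝ) ≤ 1 := by exact_mod_cast h1
    have h3 := Real.log_nonpos hn0.le h2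
    rw [← hR.hL] at h3
    linarith
  set S : Finset ℕ := (Icc 1 n).filter fun a => ∀ p : ℕ, p.Prime → p ∣ a → p ∣ 2 * n with hS
  have hsum := h n L l hR (2 * n) (by omega) (by nlinarith) S (by
    intro m hm
    rw [hS, mem_filter, mem_Icc] at hm
    exact ⟨by omega, hm.2⟩)
  unfold cnt
  have hsub : ((range n).filter fun k => ∃ a r : ℕ, 0 < a ∧ r.Prime ∧ yv L l ≤ r ∧ k = a * r ∧
      ∀ p : ℕ, p.Prime → p ∣ a → p ∣ 2 * n) ⊆
      S.biUnion fun a => (range n).filter fun k => ∃ r : ℕ, r.Prime ∧ yv L l ≤ r ∧ k = a * r := by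
    intro k hk
    rw [mem_filter, mem_range] at hk
    obtain ⟨hkn, a, r, ha, hr, hy, rfl, hp⟩ := hk
    rw [mem_biUnion]
    refine ⟨a, ?_, ?_⟩
    · rw [hS, mem_filter, mem_Icc]
      refine ⟨⟨ha, ?_⟩, hp⟩
      have := Nat.le_mul_of_pos_right a hr.pos
      omega
    · rw [mem_filter, mem_range]
      exact ⟨hkn, r, hr, hy, rfl⟩
  have h1 := card_le_card hsub
  have h2 := h1.trans card_biUnion_le
  have h3 : ((((range n).filter fun k => ∃ a r : ℕ, 0 < a ∧ r.Prime ∧ yv L l ≤ r ∧ k = a * r ∧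
      ∀ p : ℕ, p.Prime → p ∣ a → p ∣ 2 * n).card : ℕ) : ℝ) ≤
      ∑ a ∈ S, 8 * n * l ^ 4 / L * (1 / (a : ℝ)) := by
    refine le_trans (Nat.cast_le.2 h2) ?_
    push_cast
    refine sum_le_sum fun a ha => DEG_.one_a hR ?_
    rw [hS, mem_filter, mem_Icc] at ha
    omega
  refine le_trans ?_ (h3.trans ?_)
  · exact le_of_eq (by congr)
  · rw [← mul_sum]
    have h4 : 8 * n * l ^ 4 / L * ∑ a ∈ S, 1 / (a : ℝ) ≤ 8 * n * l ^ 4 / L * (C * l ^ 8) :=
      mul_le_mul_of_nonneg_left hsum (by positivity)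
    refine h4.trans (le_of_eq ?_)
    ring

end Pool.Agent.TSU
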