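import Pool.Agent.TSU.Targets

set_option autoImplicit false

/-!
# TSU: FIN, the final theorem from GOOD and BAD
-/

open Finset Filter

namespace Pool.Agent.TSU

namespace FIN_

lemma cnt_le_card (S : Finset ℕ) (P : ℕ → Prop) : cnt S P ≤ S.card := by
  classical
  unfold cnt
  exact_mod_cast Finset.card_filter_le _ _

lemma L_eq {n : ℕ} {L l : ℝ} (h : Reg n L l) : Real.exp l = L := h.expl

/-- part (1) for large `n` -/
lemma sub_good {n : ℕ} {L l δ : ℝ} (h : Reg n L l) (hδ : 0 < δ) (hl : 1 / δ ≤ l) :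
    cnt (range (n - 2)) (fun k => 0 < k ∧ (qq n k).Prime ∧ ∃ r s : ℕ, r.Prime ∧ s.Prime ∧
      r ∣ k ∧ s ∣ n - k ∧ (n : ℝ) ^ (1 + δ) ≤ (r : ℝ) * s) ≤ (good n L l).card := by
  classical
  have hlp := h.lpos
  have hLp := h.Lpos
  have h4 : 1 / l ^ 4 ≤ δ := by
    have h5 : l ≤ l ^ 4 := by
      calc l = l ^ 1 := (pow_one l).symm
        _ ≤ l ^ 4 := pow_le_pow_right₀ h.one (by norm_num)
    rw [div_le_iff₀ (by positivity)]
    rw [div_le_iff₀ hδ] at hl
    nlinarith
  have h6 : Real.exp (L + L / l ^ 4) ≤ (n : ℝ) ^ (1 + δ) := by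
    rw [Real.rpow_def_of_pos h.n0, ← h.hL]
    apply Real.exp_le_exp.2
    have : L / l ^ 4 = L * (1 / l ^ 4) := by ring
    rw [this, mul_add, mul_one]
    have := mul_le_mul_of_nonneg_left h4 hLp.le
    linarith
  unfold cnt good
  have hsub : (range (n - 2)).filter (fun k => 0 < k ∧ (qq n k).Prime ∧ ∃ r s : ℕ, r.Prime ∧
      s.Prime ∧ r ∣ k ∧ s ∣ n - k ∧ (n : ℝ) ^ (1 + δ) ≤ (r : ℝ) * s) ⊆
      (range n).filter (fun k => 0 < k ∧ (qq n k).Prime ∧ ∃ r s : ℕ, r.Prime ∧ s.Prime ∧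
        r ∣ k ∧ s ∣ n - k ∧ Real.exp (L + L / l ^ 4) ≤ (r : ℝ) * s) := by
    intro k hk
    rw [mem_filter, mem_range] at hk ⊢
    obtain ⟨hk1, hk2, hk3, r, s, hr, hs, h7, h8, h9⟩ := hk
    exact ⟨by omega, hk2, hk3, r, s, hr, hs, h7, h8, h6.trans h9⟩
  exact_mod_cast Finset.card_le_card hsub

/-- part (2): every `k` is good or bad -/
lemma sub_union {n : ℕ} {L l : ℝ} :
    cnt (range (n - 2)) (fun k => 0 < k ∧ (qq n k).Prime) ≤
      (good n L l).card + (bad n L l).card := by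
  classical
  unfold cnt
  have hsub : (range (n - 2)).filter (fun k => 0 < k ∧ (qq n k).Prime) ⊆
      good n L l ∪ bad n L l := by
    intro k hk
    rw [mem_filter, mem_range] at hk
    obtain ⟨hk1, hk2, hk3⟩ := hk
    rw [mem_union]
    unfold good bad
    rw [mem_filter, mem_filter, mem_range]
    by_cases h : ∃ r s : ℕ, r.Prime ∧ s.Prime ∧ r ∣ k ∧ s ∣ n - k ∧
        Real.exp (L + L / l ^ 4) ≤ (r : ℝ) * s
    · exact Or.inl ⟨by omega, hk2, hk3, h⟩
    · right
      refine ⟨by omega, hk2, fun r s hr hs h1 h2 => ?_⟩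
      by_contra hcon
      exact h ⟨r, s, hr, hs, h1, h2, not_lt.1 hcon⟩
  have h1 := (Finset.card_le_card hsub).trans (Finset.card_union_le _ _)
  have h2 : ((#((range (n - 2)).filter (fun k => 0 < k ∧ (qq n k).Prime)) : ℕ) : ℝ) ≤
      ((#(good n L l) + #(bad n L l) : ℕ) : ℝ) := by exact_mod_cast h1
  rw [Nat.cast_add] at h2
  convert h2

end FIN_

open FIN_

theorem p_FIN (h1 : T_REG) (h2 : T_GOOD) (h3 : T_BAD) : T_FIN := by
  obtain ⟨C1, hC1, hg⟩ := h2
  obtain ⟨C2, hC2, hb⟩ := h3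
  refine ⟨?_, ?_⟩
  · intro δ hδ
    obtain ⟨n0, hn0⟩ := h1 (1 / δ)
    have h16 : 1 < Real.log 16 := by
      rw [Real.lt_log_iff_exp_lt (by norm_num)]
      have := Real.exp_one_lt_d9
      linarith
    set c0 := Real.log (Real.log 16) with hc0
    have hc0p : 0 < c0 := Real.log_pos h16
    have hpos : 0 < Real.log (max n0 16 : ℕ) / c0 ^ 47 := by
      apply div_pos _ (by positivity)
      apply Real.log_pos
      have : 16 ≤ max n0 16 := le_max_right _ _
      have h' : (16 : ℝ) ≤ (max n0 16 : ℕ) := by exact_mod_cast this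
      linarith
    refine ⟨max C1 (Real.log (max n0 16 : ℕ) / c0 ^ 47), lt_max_of_lt_left hC1, ?_⟩
    intro n hn
    have hn0' : (0 : ℝ) < n := by
      have : (16 : ℝ) ≤ n := by exact_mod_cast hn
      linarith
    have hlog16 : Real.log 16 ≤ Real.log n :=
      Real.log_le_log (by norm_num) (by exact_mod_cast hn)
    have hLp : 0 < Real.log n := by linarith
    have hll : c0 ≤ Real.log (Real.log n) := Real.log_le_log (by linarith) hlog16
    have hllp : 0 < Real.log (Real.log n) := lt_of_lt_of_le hc0p hll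
    by_cases hc : n0 ≤ n
    · obtain ⟨hR, hK⟩ := hn0 n hc
      refine (sub_good hR hδ hK).trans ((hg n _ _ hR).trans ?_)
      apply div_le_div_of_nonneg_right _ hLp.le
      apply mul_le_mul_of_nonneg_right _ (by positivity)
      exact mul_le_mul_of_nonneg_right (le_max_left _ _) hn0'.le
    · have h5 := cnt_le_card (range (n - 2)) (fun k => 0 < k ∧ (qq n k).Prime ∧
        ∃ r s : ℕ, r.Prime ∧ s.Prime ∧ r ∣ k ∧ s ∣ n - k ∧ (n : ℝ) ^ (1 + δ) ≤ (r : ℝ) * s)
      rw [card_range] at h5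
      refine h5.trans ?_
      have h6 : ((n - 2 : ℕ) : ℝ) ≤ n := by exact_mod_cast Nat.sub_le n 2
      refine h6.trans ?_
      rw [le_div_iff₀ hLp]
      have h7 : Real.log n ≤ Real.log (max n0 16 : ℕ) := by
        apply Real.log_le_log hn0'
        exact_mod_cast (by omega : n ≤ max n0 16)
      have h8 : c0 ^ 47 ≤ (Real.log (Real.log n)) ^ 47 := pow_le_pow_left₀ hc0p.le hll 47
      have h9 : Real.log (max n0 16 : ℕ) ≤
          max C1 (Real.log (max n0 16 : ℕ) / c0 ^ 47) * (Real.log (Real.log n)) ^ 47 := by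
        calc Real.log (max n0 16 : ℕ) = Real.log (max n0 16 : ℕ) / c0 ^ 47 * c0 ^ 47 := by
              field_simp
          _ ≤ max C1 (Real.log (max n0 16 : ℕ) / c0 ^ 47) * (Real.log (Real.log n)) ^ 47 := by
              apply mul_le_mul (le_max_right _ _) h8 (by positivity)
              exact le_trans hpos.le (le_max_right _ _)
      calc (n : ℝ) * Real.log n ≤ n * (max C1 (Real.log (max n0 16 : ℕ) / c0 ^ 47) *
            (Real.log (Real.log n)) ^ 47) :=
            mul_le_mul_of_nonneg_left (h7.trans h9) hn0'.le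
        _ = _ := by ring
  · intro ε hε
    have ht := Real.tendsto_pow_mul_exp_neg_atTop_nhds_zero 47
    have h5 : ∀ᶠ x : ℝ in atTop, x ^ 47 * Real.exp (-x) < ε / (2 * C1) :=
      ht.eventually (gt_mem_nhds (by positivity))
    obtain ⟨K1, hK1⟩ := eventually_atTop.1 h5
    obtain ⟨n0, hn0⟩ := h1 (max K1 (2 * C2 / ε))
    refine ⟨n0, fun n hn => ?_⟩
    obtain ⟨hR, hK⟩ := hn0 n hn
    set L := Real.log n with hL
    set l := Real.log L with hl
    have hlp := hR.lpos
    have hLp := hR.Lpos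
    have hnp := hR.n0
    have h6 := hK1 l ((le_max_left _ _).trans hK)
    have h7 : C2 / l ≤ ε / 2 := by
      have h8 : 2 * C2 / ε ≤ l := (le_max_right _ _).trans hK
      rw [div_le_iff₀ hε] at h8
      rw [div_le_iff₀ hlp]
      linarith
    have h9 : C1 * n * l ^ 47 / L ≤ ε / 2 * n := by
      rw [← hR.expl, div_eq_mul_inv, ← Real.exp_neg]
      calc C1 * n * l ^ 47 * Real.exp (-l) = C1 * n * (l ^ 47 * Real.exp (-l)) := by ring
        _ ≤ C1 * n * (ε / (2 * C1)) := mul_le_mul_of_nonneg_left h6.le (by positivity)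
        _ = ε / 2 * n := by field_simp
    refine (sub_union (L := L) (l := l)).trans ?_
    have ha := hg n L l hR
    have hb' := hb n L l hR
    have h10 : (1 / 2 + C2 / l) * n ≤ (1 / 2 + ε / 2) * n :=
      mul_le_mul_of_nonneg_right (by linarith) hnp.le
    calc ((good n L l).card : ℝ) + (bad n L l).card ≤ ε / 2 * n + (1 / 2 + ε / 2) * n := by
          linarith
      _ = (1 / 2 + ε) * n := by ring

end Pool.Agent.TSU
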