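import Pool.Agent.TSU.Targets

set_option autoImplicit false

open Finset

namespace Pool.Agent.TSU

open Pool.Agent.Cyclic (pr mem_pr)

/-- the sum over numbers composed of the primes of `M` -/
theorem FNS_sum (M : ℕ) (hM : M ≠ 0) (S : Finset ℕ)
    (hS : ∀ m ∈ S, m ≠ 0 ∧ ∀ p : ℕ, p.Prime → p ∣ m → p ∣ M) :
    ∑ m ∈ S, 1 / (m : ℝ) ≤ (∏ p ∈ (pr M).filter (fun p => p ∣ M), (1 - 1 / (p : ℝ)))⁻¹ := by
  classical
  have hpw : ∀ m : ℕ, Pool.Agent.TSP.pw 1 m = 1 / (m : ℝ) := by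
    intro m
    change (m : ℝ) ^ (-1 : ℝ) = 1 / (m : ℝ)
    rw [Real.rpow_neg_one, one_div]
  have h0 : ∀ {p : ℕ}, p.Prime → ‖Pool.Agent.TSP.pw 1 p‖ < 1 := by
    intro p hp
    have h1 : Pool.Agent.TSP.pw 1 p = (p : ℝ) ^ (-1 : ℝ) := rfl
    rw [h1, Real.norm_eq_abs, abs_of_nonneg (Real.rpow_nonneg (Nat.cast_nonneg _) _)]
    exact Pool.Agent.TSP.pw_lt one_pos hp
  obtain ⟨-, hh⟩ :=
    EulerProduct.summable_and_hasSum_factoredNumbers_prod_filter_prime_geometric h0 M.primeFactors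
  have hmem : ∀ m ∈ S, m ∈ Nat.factoredNumbers M.primeFactors := by
    intro m hm
    apply Nat.mem_factoredNumbers_of_primeFactors_subset (hS m hm).1
    intro p hp
    rw [Nat.mem_primeFactors] at hp ⊢
    exact ⟨hp.1, (hS m hm).2 p hp.1 hp.2.1, hM⟩
  have h3 := sum_le_hasSum (S.attach.map ⟨fun m => (⟨m.1, hmem m.1 m.2⟩ :
      Nat.factoredNumbers M.primeFactors),
    fun a b hab => by
      apply Subtype.ext
      exact congrArg (fun t : Nat.factoredNumbers M.primeFactors => (t : ℕ)) hab⟩)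
    (fun i _ => by rw [hpw]; positivity) hh
  rw [Finset.sum_map] at h3
  have h4 : ∑ m ∈ S, 1 / (m : ℝ) = ∑ x ∈ S.attach, Pool.Agent.TSP.pw 1 (x : ℕ) := by
    rw [← Finset.sum_attach]
    exact Finset.sum_congr rfl fun x _ => (hpw _).symm
  rw [h4]
  refine h3.trans (le_of_eq ?_)
  rw [← Finset.prod_inv_distrib]
  have h5 : M.primeFactors.filter (fun p => p.Prime) = (pr M).filter (fun p => p ∣ M) := by
    ext p
    rw [mem_filter, mem_filter, Nat.mem_primeFactors, mem_pr]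
    constructor
    · rintro ⟨⟨h1, h2, -⟩, -⟩
      exact ⟨⟨Nat.le_of_dvd (Nat.pos_of_ne_zero hM) h2, h1⟩, h2⟩
    · rintro ⟨⟨-, h1⟩, h2⟩
      exact ⟨⟨h1, h2, hM⟩, h1⟩
  rw [h5]
  refine Finset.prod_congr rfl fun p _ => ?_
  rw [hpw]

/-- the number of prime factors -/
theorem FNS_card (M : ℕ) (hM : M ≠ 0) :
    (M.primeFactors.card : ℝ) * Real.log 2 ≤ Real.log M := by
  have h1 : 2 ^ M.primeFactors.card ≤ M := by
    refine (Finset.pow_card_le_prod M.primeFactors (fun p => p) 2 fun p hp => ?_).trans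
      (Nat.le_of_dvd (Nat.pos_of_ne_zero hM) (Nat.prod_primeFactors_dvd M))
    exact (Nat.mem_primeFactors.1 hp).1.two_le
  have h2 : ((2 : ℝ)) ^ M.primeFactors.card ≤ M := by exact_mod_cast h1
  have h3 := Real.log_le_log (by positivity) h2
  rwa [Real.log_pow] at h3

/-- FNS. -/
theorem p_FNS : T_FNS := by
  refine ⟨Real.exp 18 * 3 ^ 8, by positivity, ?_⟩
  intro n L l h M hM0 hM S hS
  have hB := h.toBig
  refine (FNS_sum M hM0 S hS).trans ?_
  refine (Pool.Agent.TSP.prodH M M (Pool.Agent.TSP.Big.cc l) hM0 (Pool.Agent.TSP.Big.cc_one l)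
    ?_).trans hB.exp_cc
  have h1 := FNS_card M hM0
  have h2 : Real.log M ≤ 2 * L := by
    have h3 : (M : ℝ) ≤ (n : ℝ) ^ 2 := by exact_mod_cast hM
    have h4 : (0 : ℝ) < M := by exact_mod_cast Nat.pos_of_ne_zero hM0
    have h5 := Real.log_le_log h4 h3
    rw [Real.log_pow, ← h.hL] at h5
    exact_mod_cast h5
  have h3 := Real.log_two_gt_d9
  have h4 := hB.L_le_cc
  have h5 := h.Lpos
  have h6 : (M.primeFactors.card : ℝ) ≤ 3 * L := by
    have h7 : (0 : ℝ) ≤ M.primeFactors.card := Nat.cast_nonneg _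
    nlinarith
  have h7 : (M.primeFactors.card : ℝ) ≤ 4 * 2 ^ Pool.Agent.TSP.Big.cc l := by
    have : (0 : ℝ) < 2 ^ Pool.Agent.TSP.Big.cc l := by positivity
    linarith
  exact_mod_cast h7

end Pool.Agent.TSU
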