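import Pool.Agent.TSU.Targets

/-!
TSU: the target GOOD, the number of the `k` with a large pair of primes.
-/

set_option autoImplicit false

open Finset

namespace Pool.Agent.TSU

namespace GOOD_

lemma cnt_eq (S : Finset ℕ) (P : ℕ → Prop) [DecidablePred P] :
    cnt S P = ((S.filter P).card : ℝ) := by
  unfold cnt
  congr

/-- the pairs of cofactors -/
noncomputable def prs2 (n : ℕ) (L l : ℝ) : Finset (ℕ × ℕ) := by
  classical
  exact (Icc 1 n ×ˢ Icc 1 n).filter fun x =>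
    (x.1 : ℝ) * x.2 ≤ Real.exp (L - L / l ^ 4) ∧ 2 * x.1.totient * x.2 ≠ x.2.totient * x.1

lemma mem_prs2 {n : ℕ} {L l : ℝ} {a b : ℕ} : (a, b) ∈ prs2 n L l ↔
    (1 ≤ a ∧ a ≤ n) ∧ (1 ≤ b ∧ b ≤ n) ∧ (a : ℝ) * b ≤ Real.exp (L - L / l ^ 4) ∧
      2 * a.totient * b ≠ b.totient * a := by
  classical
  unfold prs2
  simp only [mem_filter, mem_product, mem_Icc]
  tauto

/-- where the elements of `good` are -/
lemma loc (h3 : T_RAD) {n : ℕ} {L l : ℝ} (hR : Reg n L l) {k : ℕ} (hk : k ∈ good n L l) :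
    (k ∈ range n ∧ (0 < k ∧ ∃ p : ℕ, p.Prime ∧ yv L l ≤ p ∧ (p ^ 2 ∣ k ∨ p ^ 2 ∣ n - k))) ∨
    (k ∈ range n ∧ ∃ a r : ℕ, 0 < a ∧ r.Prime ∧ yv L l ≤ r ∧ k = a * r ∧
      ∀ p : ℕ, p.Prime → p ∣ a → p ∣ 2 * n) ∨
    ∃ a b : ℕ, (a, b) ∈ prs2 n L l ∧ k ∈ KK n L l a b := by
  classical
  unfold good at hk
  rw [mem_filter] at hk
  obtain ⟨hkn, hk0, hq, r, s, hr, hs, hrk, hsk, hrs⟩ := hk
  have hkn' := mem_range.1 hkn
  have hnk : 0 < n - k := by omega
  have hn0 := hR.n0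
  have hrn : (r : ℝ) ≤ n := by
    have := Nat.le_of_dvd hk0 hrk
    exact_mod_cast (by omega : r ≤ n)
  have hsn : (s : ℝ) ≤ n := by
    have := Nat.le_of_dvd hnk hsk
    exact_mod_cast (by omega : s ≤ n)
  have hr0 : (0 : ℝ) < r := by exact_mod_cast hr.pos
  have hs0 : (0 : ℝ) < s := by exact_mod_cast hs.pos
  have hexp : Real.exp (L + L / l ^ 4) = n * yv L l := by
    rw [Real.exp_add, hR.expL]
    rfl
  have hyr : yv L l ≤ r := by
    rw [hexp] at hrs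
    have h : (n : ℝ) * yv L l ≤ n * r := by nlinarith
    exact le_of_mul_le_mul_left h hn0
  have hys : yv L l ≤ s := by
    rw [hexp] at hrs
    have h : (n : ℝ) * yv L l ≤ n * s := by nlinarith
    exact le_of_mul_le_mul_left h hn0
  by_cases hsq : r ^ 2 ∣ k ∨ s ^ 2 ∣ n - k
  · refine Or.inl ⟨hkn, hk0, ?_⟩
    rcases hsq with h | h
    · exact ⟨r, hr, hyr, Or.inl h⟩
    · exact ⟨s, hs, hys, Or.inr h⟩
  right
  push Not at hsq
  obtain ⟨a, ha⟩ := hrk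
  obtain ⟨b, hb⟩ := hsk
  have hra : ¬ r ∣ a := by
    rintro ⟨c, rfl⟩
    exact hsq.1 ⟨c, by rw [ha]; ring⟩
  have hsb : ¬ s ∣ b := by
    rintro ⟨c, rfl⟩
    exact hsq.2 ⟨c, by rw [hb]; ring⟩
  have ha0 : 0 < a := by
    rcases Nat.eq_zero_or_pos a with h | h
    · rw [h] at ha
      omega
    · exact h
  have hb0 : 0 < b := by
    rcases Nat.eq_zero_or_pos b with h | h
    · rw [h] at hb
      omega
    · exact h
  have hka : k = a * r := by rw [ha]; ring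
  have hkb : n - k = b * s := by rw [hb]; ring
  have han : a ≤ n := by
    have := Nat.le_mul_of_pos_right a hr.pos
    omega
  have hbn : b ≤ n := by
    have := Nat.le_mul_of_pos_right b hs.pos
    omega
  by_cases hdeg : 2 * a.totient * b = b.totient * a
  · left
    refine ⟨hkn, a, r, ha0, hr, hyr, hka, fun p hp hpa => ?_⟩
    rcases h3 a b ha0 hb0 hdeg p hp hpa with h | h
    · rw [h]
      exact Dvd.intro _ rfl
    · have h4 : p ∣ k := by rw [hka]; exact Dvd.dvd.mul_right hpa r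
      have h5 : p ∣ n - k := by rw [hkb]; exact Dvd.dvd.mul_right h s
      have h6 : p ∣ n := by
        have h7 := dvd_add h4 h5
        rwa [Nat.add_sub_cancel' hkn'.le] at h7
      exact Dvd.dvd.mul_left h6 2
  · right
    refine ⟨a, b, mem_prs2.2 ⟨⟨ha0, han⟩, ⟨hb0, hbn⟩, ?_, hdeg⟩, ?_⟩
    · have h1 : (k : ℝ) = a * r := by exact_mod_cast hka
      have h2 : ((n - k : ℕ) : ℝ) = b * s := by exact_mod_cast hkb
      have h4 : (k : ℝ) ≤ n := by exact_mod_cast hkn'.le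
      have h5 : ((n - k : ℕ) : ℝ) ≤ n := by exact_mod_cast (Nat.sub_le n k)
      have h6 : (k : ℝ) * ((n - k : ℕ) : ℝ) ≤ n * n :=
        mul_le_mul h4 h5 (Nat.cast_nonneg _) hn0.le
      have h7 : ((a : ℝ) * b) * (r * s) ≤ n * n := by
        calc ((a : ℝ) * b) * (r * s) = (a * r) * (b * s) := by ring
          _ = (k : ℝ) * ((n - k : ℕ) : ℝ) := by rw [← h1, ← h2]
          _ ≤ n * n := h6
      have h8 : ((a : ℝ) * b) * Real.exp (L + L / l ^ 4) ≤ n * n := by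
        refine le_trans ?_ h7
        exact mul_le_mul_of_nonneg_left hrs (by positivity)
      have h9 : (n : ℝ) * n = Real.exp (L - L / l ^ 4) * Real.exp (L + L / l ^ 4) := by
        rw [← Real.exp_add, ← hR.expL, ← Real.exp_add]
        ring_nf
      rw [h9] at h8
      exact le_of_mul_le_mul_right h8 (Real.exp_pos _)
    · unfold KK
      rw [mem_filter]
      exact ⟨hkn, hk0, hq, r, s, hr, hs, hyr, hys, hka, hkb, hra, hsb⟩

/-- the sum of the cardinalities of the classes -/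
lemma card_classes {C1 C2 : ℝ} (hC1 : 0 < C1) {n : ℕ} {L l : ℝ} (hR : Reg n L l)
    (h1 : ∀ a b : ℕ, 1 ≤ a → 1 ≤ b → (a : ℝ) * b ≤ Real.exp (L - L / l ^ 4) →
      2 * a.totient * b ≠ b.totient * a → (¬ Nat.gcd a b ∣ n → KK n L l a b = ∅) ∧
      ((KK n L l a b).card : ℝ) ≤ C1 * ((Nat.gcd a b : ℝ) * n / (a * b)) * l ^ 39 / L ^ 3)
    (h2 : ∑ a ∈ Icc 1 n, ∑ b ∈ Icc 1 n,
      (if Nat.gcd a b ∣ n then (Nat.gcd a b : ℝ) / (a * b) else 0) ≤ C2 * l ^ 8 * L ^ 2) :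
    ∑ x ∈ prs2 n L l, ((KK n L l x.1 x.2).card : ℝ) ≤ C1 * C2 * n * l ^ 47 / L := by
  classical
  have hl := hR.lpos
  have hL := hR.Lpos
  have step : ∀ x ∈ prs2 n L l, ((KK n L l x.1 x.2).card : ℝ) ≤
      (C1 * n * l ^ 39 / L ^ 3) *
        (if Nat.gcd x.1 x.2 ∣ n then (Nat.gcd x.1 x.2 : ℝ) / (x.1 * x.2) else 0) := by
    rintro ⟨a, b⟩ hx
    obtain ⟨⟨ha, -⟩, ⟨hb, -⟩, hab, hdeg⟩ := mem_prs2.1 hx
    obtain ⟨h3, h4⟩ := h1 a b ha hb hab hdeg
    by_cases hg : Nat.gcd a b ∣ n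
    · simp only [if_pos hg]
      refine le_trans h4 (le_of_eq ?_)
      ring
    · simp only [if_neg hg, h3 hg]
      simp
  have hK : 0 ≤ C1 * n * l ^ 39 / L ^ 3 := by positivity
  calc ∑ x ∈ prs2 n L l, ((KK n L l x.1 x.2).card : ℝ)
      ≤ ∑ x ∈ prs2 n L l, (C1 * n * l ^ 39 / L ^ 3) *
        (if Nat.gcd x.1 x.2 ∣ n then (Nat.gcd x.1 x.2 : ℝ) / (x.1 * x.2) else 0) :=
        Finset.sum_le_sum step
    _ = (C1 * n * l ^ 39 / L ^ 3) * ∑ x ∈ prs2 n L l,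
        (if Nat.gcd x.1 x.2 ∣ n then (Nat.gcd x.1 x.2 : ℝ) / (x.1 * x.2) else 0) := by
        rw [Finset.mul_sum]
    _ ≤ (C1 * n * l ^ 39 / L ^ 3) * ∑ x ∈ Icc 1 n ×ˢ Icc 1 n,
        (if Nat.gcd x.1 x.2 ∣ n then (Nat.gcd x.1 x.2 : ℝ) / (x.1 * x.2) else 0) := by
        refine mul_le_mul_of_nonneg_left ?_ hK
        refine Finset.sum_le_sum_of_subset_of_nonneg ?_ ?_
        · rintro ⟨a, b⟩ hx
          obtain ⟨ha, hb, -⟩ := mem_prs2.1 hx
          exact mem_product.2 ⟨mem_Icc.2 ha, mem_Icc.2 hb⟩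
        · intro x _ _
          split_ifs
          · positivity
          · exact le_refl _
    _ ≤ (C1 * n * l ^ 39 / L ^ 3) * (C2 * l ^ 8 * L ^ 2) := by
        refine mul_le_mul_of_nonneg_left ?_ hK
        rw [Finset.sum_product]
        exact h2
    _ = C1 * C2 * n * l ^ 47 / L := by
        field_simp

end GOOD_

open GOOD_

theorem p_GOOD (h1 : T_CLS) (h2 : T_GSM) (h3 : T_RAD) (h4 : T_DEG) (h5 : T_SQF) : T_GOOD := by
  classical
  obtain ⟨C1, hC1, h1⟩ := h1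
  obtain ⟨C2, hC2, h2⟩ := h2
  obtain ⟨C4, hC4, h4⟩ := h4
  refine ⟨1 + C4 + C1 * C2, by positivity, fun n L l hR => ?_⟩
  have hl := hR.lpos
  have hL := hR.Lpos
  have hn := hR.n0
  have hone := hR.one
  have e1 := h5 n L l hR
  have e2 := h4 n L l hR
  have e3 := card_classes hC1 hR (h1 n L l hR) (h2 n L l hR)
  rw [cnt_eq] at e1 e2
  set S1 := (range n).filter fun k => 0 < k ∧ ∃ p : ℕ, p.Prime ∧ yv L l ≤ p ∧
    (p ^ 2 ∣ k ∨ p ^ 2 ∣ n - k) with hS1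
  set S2 := (range n).filter fun k => ∃ a r : ℕ, 0 < a ∧ r.Prime ∧ yv L l ≤ r ∧ k = a * r ∧
    ∀ p : ℕ, p.Prime → p ∣ a → p ∣ 2 * n with hS2
  set S3 := (prs2 n L l).biUnion fun x => KK n L l x.1 x.2 with hS3
  have hsub : good n L l ⊆ S1 ∪ (S2 ∪ S3) := by
    intro k hk
    rw [mem_union, mem_union]
    rcases loc h3 hR hk with h | h | ⟨a, b, h, h'⟩
    · exact Or.inl (mem_filter.2 h)
    · exact Or.inr (Or.inl (mem_filter.2 h))
    · exact Or.inr (Or.inr (mem_biUnion.2 ⟨(a, b), h, h'⟩))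
  have hc : (good n L l).card ≤ S1.card + (S2.card + ∑ x ∈ prs2 n L l,
      (KK n L l x.1 x.2).card) := by
    refine le_trans (card_le_card hsub) (le_trans (card_union_le _ _) ?_)
    refine Nat.add_le_add_left (le_trans (card_union_le _ _) ?_) _
    exact Nat.add_le_add_left card_biUnion_le _
  have hc' : ((good n L l).card : ℝ) ≤ S1.card + (S2.card + ∑ x ∈ prs2 n L l,
      ((KK n L l x.1 x.2).card : ℝ)) := by exact_mod_cast hc
  have f1 : (n : ℝ) / L ≤ n * l ^ 47 / L := by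
    have : 1 ≤ l ^ 47 := one_le_pow₀ hone
    gcongr
    nlinarith
  have f2 : C4 * n * l ^ 12 / L ≤ C4 * (n * l ^ 47 / L) := by
    have : l ^ 12 ≤ l ^ 47 := pow_le_pow_right₀ hone (by norm_num)
    calc C4 * n * l ^ 12 / L ≤ C4 * n * l ^ 47 / L := by gcongr
      _ = C4 * (n * l ^ 47 / L) := by ring
  calc ((good n L l).card : ℝ) ≤ S1.card + (S2.card + ∑ x ∈ prs2 n L l,
      ((KK n L l x.1 x.2).card : ℝ)) := hc'
    _ ≤ (n : ℝ) / L + (C4 * n * l ^ 12 / L + C1 * C2 * n * l ^ 47 / L) :=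
      add_le_add e1 (add_le_add e2 e3)
    _ ≤ n * l ^ 47 / L + (C4 * (n * l ^ 47 / L) + C1 * C2 * n * l ^ 47 / L) := by
      linarith
    _ = (1 + C4 + C1 * C2) * n * l ^ 47 / L := by ring

end Pool.Agent.TSU
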