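import Pool.Agent.TSU.Targets

set_option autoImplicit false

open Finset

namespace Pool.Agent.TSU

namespace GSM_

lemma harm (n : ℕ) : ∑ j ∈ Icc 1 n, 1 / (j : ℝ) ≤ 1 + Real.log n := by
  have h1 := harmonic_le_one_add_log n
  rw [harmonic_eq_sum_Icc] at h1
  push_cast at h1
  simpa [one_div] using h1

lemma gcd_sum (n : ℕ) (hn : n ≠ 0) :
    ∑ a ∈ Icc 1 n, ∑ b ∈ Icc 1 n,
      (if Nat.gcd a b ∣ n then (Nat.gcd a b : ℝ) / (a * b) else 0) ≤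
    (∑ g ∈ n.divisors, 1 / (g : ℝ)) * ((∑ j ∈ Icc 1 n, 1 / (j : ℝ)) *
      ∑ j ∈ Icc 1 n, 1 / (j : ℝ)) := by
  classical
  rw [← sum_product', ← sum_filter]
  set S := (Icc 1 n ×ˢ Icc 1 n).filter (fun x : ℕ × ℕ => Nat.gcd x.1 x.2 ∣ n) with hS
  set φ : ℕ × ℕ → ℕ × ℕ × ℕ := fun x => (Nat.gcd x.1 x.2, x.1 / Nat.gcd x.1 x.2,
    x.2 / Nat.gcd x.1 x.2) with hφ
  set h : ℕ × ℕ × ℕ → ℝ := fun y => 1 / (y.1 : ℝ) * (1 / (y.2.1 : ℝ) * (1 / (y.2.2 : ℝ))) with hh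
  have hmem : ∀ x ∈ S, 1 ≤ x.1 ∧ x.1 ≤ n ∧ 1 ≤ x.2 ∧ x.2 ≤ n ∧ Nat.gcd x.1 x.2 ∣ n := by
    intro x hx
    rw [hS, mem_filter, mem_product, mem_Icc, mem_Icc] at hx
    exact ⟨hx.1.1.1, hx.1.1.2, hx.1.2.1, hx.1.2.2, hx.2⟩
  have hterm : ∀ x ∈ S, (Nat.gcd x.1 x.2 : ℝ) / (x.1 * x.2) = h (φ x) := by
    intro x hx
    obtain ⟨h1, -, h2, -, -⟩ := hmem x hx
    have hg : 0 < Nat.gcd x.1 x.2 := Nat.gcd_pos_of_pos_left _ h1
    have hg' : (Nat.gcd x.1 x.2 : ℝ) ≠ 0 := by exact_mod_cast hg.ne'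
    have ha : (x.1 : ℝ) ≠ 0 := by exact_mod_cast (by omega : x.1 ≠ 0)
    have hb : (x.2 : ℝ) ≠ 0 := by exact_mod_cast (by omega : x.2 ≠ 0)
    simp only [hh, hφ]
    rw [Nat.cast_div (Nat.gcd_dvd_left _ _) hg', Nat.cast_div (Nat.gcd_dvd_right _ _) hg']
    field_simp
  have hinj : Set.InjOn φ (S : Set (ℕ × ℕ)) := by
    intro x hx y hy hxy
    obtain ⟨h1, -, h2, -, -⟩ := hmem x hx
    simp only [hφ, Prod.mk.injEq] at hxy
    obtain ⟨e1, e2, e3⟩ := hxy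
    have a1 := Nat.div_mul_cancel (Nat.gcd_dvd_left x.1 x.2)
    have a2 := Nat.div_mul_cancel (Nat.gcd_dvd_right x.1 x.2)
    have b1 := Nat.div_mul_cancel (Nat.gcd_dvd_left y.1 y.2)
    have b2 := Nat.div_mul_cancel (Nat.gcd_dvd_right y.1 y.2)
    rw [← e1] at b1 b2
    rw [e1, ← e1, e2] at a1
    rw [e1, ← e1, e3] at a2
    rw [← e1] at a1 a2
    exact Prod.ext (a1.symm.trans b1) (a2.symm.trans b2)
  rw [sum_congr rfl hterm]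
  have h0 : ∑ x ∈ S, h (φ x) = ∑ y ∈ S.image φ, h y := (sum_image hinj).symm
  rw [h0]
  have hsub : S.image φ ⊆ n.divisors ×ˢ (Icc 1 n ×ˢ Icc 1 n) := by
    intro y hy
    rw [mem_image] at hy
    obtain ⟨x, hx, rfl⟩ := hy
    obtain ⟨h1, h2, h3, h4, h5⟩ := hmem x hx
    simp only [hφ, mem_product, mem_Icc, Nat.mem_divisors]
    have hg : 0 < Nat.gcd x.1 x.2 := Nat.gcd_pos_of_pos_left _ h1
    refine ⟨⟨h5, hn⟩, ⟨?_, ?_⟩, ?_, ?_⟩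
    · exact Nat.div_pos (Nat.le_of_dvd h1 (Nat.gcd_dvd_left _ _)) hg
    · exact (Nat.div_le_self _ _).trans h2
    · exact Nat.div_pos (Nat.le_of_dvd h3 (Nat.gcd_dvd_right _ _)) hg
    · exact (Nat.div_le_self _ _).trans h4
  refine (sum_le_sum_of_subset_of_nonneg hsub fun y _ _ => ?_).trans ?_
  · simp only [hh]; positivity
  · rw [sum_mul_sum, ← sum_product']
    rw [sum_mul_sum, ← sum_product']

end GSM_

theorem p_GSM (h : T_FNS) : T_GSM := by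
  obtain ⟨C, hC, h1⟩ := h
  refine ⟨4 * C, by positivity, fun n L l hR => ?_⟩
  have hn : n ≠ 0 := by
    have := hR.n0
    rintro rfl
    simp at this
  have hL := hR.Lge
  have e1 : ∑ g ∈ n.divisors, 1 / (g : ℝ) ≤ C * l ^ 8 := by
    apply h1 n L l hR n hn
    · nlinarith [Nat.pos_of_ne_zero hn]
    · intro m hm
      rw [Nat.mem_divisors] at hm
      refine ⟨?_, fun p _ hp => hp.trans hm.1⟩
      rintro rfl
      exact hm.2 (Nat.eq_zero_of_zero_dvd hm.1)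
  have e2 : ∑ j ∈ Icc 1 n, 1 / (j : ℝ) ≤ 2 * L := by
    refine (GSM_.harm n).trans ?_
    rw [← hR.hL]
    linarith
  have e3 : 0 ≤ ∑ j ∈ Icc 1 n, 1 / (j : ℝ) := sum_nonneg fun j _ => by positivity
  have e4 : 0 ≤ ∑ g ∈ n.divisors, 1 / (g : ℝ) := sum_nonneg fun j _ => by positivity
  have hl := hR.lpos
  calc _ ≤ _ := GSM_.gcd_sum n hn
    _ ≤ (C * l ^ 8) * ((2 * L) * (2 * L)) := by
        apply mul_le_mul e1 _ (mul_nonneg e3 e3) (by positivity)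
        exact mul_le_mul e2 e2 e3 (by linarith)
    _ = 4 * C * l ^ 8 * L ^ 2 := by ring

end Pool.Agent.TSU
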