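import Pool.Agent.TSU.Targets

/-!
# TSU: the target T_HIG (MP_61a569_nt)
-/

set_option autoImplicit false

open Finset

namespace Pool.Agent.TSU

namespace HIG_

lemma om_nonneg (k : ℕ) : 0 ≤ om k := by
  unfold om
  exact Finset.sum_nonneg fun p _ => Real.log_natCast_nonneg p

lemma om_le {k : ℕ} (hk : k ≠ 0) : om k ≤ Real.log k := by
  unfold om
  rw [← Real.log_prod (fun p hp => by
    have := (Nat.prime_of_mem_primeFactors hp).pos
    positivity)]
  have h1 : ((∏ p ∈ k.primeFactors, (p : ℝ))) = ((∏ p ∈ k.primeFactors, p : ℕ) : ℝ) := by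
    push_cast
    rfl
  rw [h1]
  have h2 : 0 < ∏ p ∈ k.primeFactors, p :=
    Finset.prod_pos fun p hp => (Nat.prime_of_mem_primeFactors hp).pos
  have h3 : ∏ p ∈ k.primeFactors, p ≤ k :=
    Nat.le_of_dvd (Nat.pos_of_ne_zero hk) (Nat.prod_primeFactors_dvd k)
  exact Real.log_le_log (by exact_mod_cast h2) (by exact_mod_cast h3)

lemma om_le_L {n k : ℕ} {L l : ℝ} (h : Reg n L l) (hk : k ≠ 0) (hkn : k ≤ n) : om k ≤ L := by
  refine (om_le hk).trans ?_
  rw [h.hL]
  exact Real.log_le_log (by exact_mod_cast Nat.pos_of_ne_zero hk) (by exact_mod_cast hkn)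

lemma log_le_L {n s : ℕ} {L l : ℝ} (h : Reg n L l) (hs : s ≠ 0) (hsn : s ≤ n) :
    Real.log s ≤ L := by
  rw [h.hL]
  exact Real.log_le_log (by exact_mod_cast Nat.pos_of_ne_zero hs) (by exact_mod_cast hsn)

lemma card_primeFactors_le {n : ℕ} {L l : ℝ} (h : Reg n L l) :
    (n.primeFactors.card : ℝ) ≤ 2 * L := by
  have hn : n ≠ 0 := by
    rintro rfl
    have := h.n0
    simp at this
  have h1 := Pool.Agent.TSP.two_pow_card_le hn
  have h2 : (2 : ℝ) ^ n.primeFactors.card ≤ n := by exact_mod_cast h1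
  have h3 := Real.log_le_log (by positivity) h2
  rw [Real.log_pow, ← h.hL] at h3
  have h4 := Real.log_two_gt_d9
  have h5 : (0 : ℝ) ≤ n.primeFactors.card := Nat.cast_nonneg _
  nlinarith

/-- the number of multiples of `s` -/
lemma card_mult_le (n s : ℕ) :
    (((Ico 1 n).filter fun k => s ∣ k).card : ℝ) ≤ n / s := by
  have h1 : (Ico 1 n).filter (fun k => s ∣ k) ⊆ (Ioc 0 n).filter fun k => s ∣ k := by
    intro k hk
    simp only [mem_filter, mem_Ico, mem_Ioc] at hk ⊢
    exact ⟨⟨by omega, by omega⟩, hk.2⟩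
  have h2 := Finset.card_le_card h1
  rw [Nat.Ioc_filter_dvd_card_eq_div] at h2
  calc (((Ico 1 n).filter fun k => s ∣ k).card : ℝ) ≤ ((n / s : ℕ) : ℝ) := by exact_mod_cast h2
    _ ≤ n / s := Nat.cast_div_le

/-- the number of small `k` -/
lemma card_small_le (n : ℕ) (t : ℝ) (ht : 0 ≤ t) :
    (((Ico 1 n).filter fun k : ℕ => (k : ℝ) < t).card : ℝ) ≤ t := by
  have h1 : ((Ico 1 n).filter fun k : ℕ => (k : ℝ) < t) ⊆ Ico 1 ⌈t⌉₊ := by
    intro k hk
    simp only [mem_filter, mem_Ico] at hk ⊢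
    exact ⟨hk.1.1, Nat.lt_ceil.2 hk.2⟩
  have h2 := Finset.card_le_card h1
  rw [Nat.card_Ico] at h2
  have h3 := Nat.ceil_lt_add_one ht
  rcases Nat.eq_zero_or_pos ⌈t⌉₊ with h4 | h4
  · rw [h4] at h2
    have h5 : ((Ico 1 n).filter fun k : ℕ => (k : ℝ) < t).card = 0 := by omega
    rw [h5]
    simpa using ht
  · have h5 : (((Ico 1 n).filter fun k : ℕ => (k : ℝ) < t).card : ℝ) ≤ ((⌈t⌉₊ - 1 : ℕ) : ℝ) := by
      exact_mod_cast h2
    rw [Nat.cast_sub h4] at h5
    push_cast at h5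
    linarith

open Classical in
/-- the bound for one `k` -/
lemma term_le {n k : ℕ} {L l : ℝ} (h : Reg n L l) (hk : k ∈ Ico 1 n) :
    ws (fun r s => Real.exp (L / 2 + L / l) < r ∧ Real.exp (L / l) < s ∧
      Real.exp (L - L / l ^ 4) < (r : ℝ) * s ∧ (r : ℝ) * s < Real.exp (L + L / l ^ 4))
      k (n - k) ≤
    (if (k : ℝ) < n / L ^ 2 then L ^ 2 else 0) +
    L ^ 2 * (∑ s ∈ n.primeFactors, if s ∣ k ∧ Real.exp (L / l) < s then (1 : ℝ) else 0) +
    L ^ 2 * ∑ r ∈ k.primeFactors, ∑ s ∈ (n - k).primeFactors,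
      (if (n : ℝ) / L ^ 2 ≤ k ∧ ¬ s ∣ k ∧ Real.exp (L / 2 + L / l) < r ∧
        Real.exp (L / l) < s ∧ Real.exp (L - L / l ^ 4) < (r : ℝ) * s ∧
        (r : ℝ) * s < Real.exp (L + L / l ^ 4) then (1 : ℝ) else 0) := by
  rw [mem_Ico] at hk
  have hL := h.Lpos
  have hk0 : k ≠ 0 := by omega
  have hnk0 : n - k ≠ 0 := by omega
  have hn0 : n ≠ 0 := by omega
  have homk : om k ≤ L := om_le_L h hk0 hk.2.le
  have homnk : om (n - k) ≤ L := om_le_L h hnk0 (Nat.sub_le _ _)
  have hlogr : ∀ r ∈ k.primeFactors, 0 ≤ Real.log r ∧ Real.log r ≤ L := by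
    intro r hr
    have hp := Nat.prime_of_mem_primeFactors hr
    have hle := Nat.le_of_dvd (by omega) (Nat.dvd_of_mem_primeFactors hr)
    exact ⟨Real.log_natCast_nonneg r, log_le_L h hp.ne_zero (by omega)⟩
  have hlogs : ∀ s ∈ (n - k).primeFactors, 0 ≤ Real.log s ∧ Real.log s ≤ L := by
    intro r hr
    have hp := Nat.prime_of_mem_primeFactors hr
    have hle := Nat.le_of_dvd (by omega) (Nat.dvd_of_mem_primeFactors hr)
    exact ⟨Real.log_natCast_nonneg r, log_le_L h hp.ne_zero (by omega)⟩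
  -- (1) first part
  have h1 : ∑ r ∈ k.primeFactors, ∑ s ∈ (n - k).primeFactors,
      (if (k : ℝ) < n / L ^ 2 then Real.log r * Real.log s else 0) ≤
      if (k : ℝ) < n / L ^ 2 then L ^ 2 else 0 := by
    by_cases hc : (k : ℝ) < n / L ^ 2
    · simp only [if_pos hc]
      calc ∑ r ∈ k.primeFactors, ∑ s ∈ (n - k).primeFactors, Real.log r * Real.log s
          = om k * om (n - k) := by
            unfold om
            rw [Finset.sum_mul_sum]
        _ ≤ L * L := mul_le_mul homk homnk (om_nonneg _) hL.le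
        _ = L ^ 2 := by ring
    · simp only [if_neg hc, Finset.sum_const_zero, le_refl]
  -- (2) second part
  have h2 : ∑ r ∈ k.primeFactors, ∑ s ∈ (n - k).primeFactors,
      (if s ∣ k ∧ Real.exp (L / l) < s then Real.log r * Real.log s else 0) ≤
      L ^ 2 * ∑ s ∈ n.primeFactors, if s ∣ k ∧ Real.exp (L / l) < s then (1 : ℝ) else 0 := by
    have e1 : ∑ r ∈ k.primeFactors, ∑ s ∈ (n - k).primeFactors,
        (if s ∣ k ∧ Real.exp (L / l) < s then Real.log r * Real.log s else 0) =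
        om k * ∑ s ∈ (n - k).primeFactors,
          (if s ∣ k ∧ Real.exp (L / l) < s then Real.log s else 0) := by
      unfold om
      rw [Finset.sum_mul_sum]
      refine Finset.sum_congr rfl fun r _ => Finset.sum_congr rfl fun s _ => ?_
      split_ifs <;> simp
    rw [e1]
    have e2 : ∑ s ∈ (n - k).primeFactors,
        (if s ∣ k ∧ Real.exp (L / l) < s then Real.log s else 0) ≤
        L * ∑ s ∈ n.primeFactors, if s ∣ k ∧ Real.exp (L / l) < s then (1 : ℝ) else 0 := by
      rw [← Finset.sum_filter, Finset.mul_sum]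
      calc ∑ s ∈ (n - k).primeFactors.filter (fun s => s ∣ k ∧ Real.exp (L / l) < s),
            Real.log s
          ≤ ∑ s ∈ (n - k).primeFactors.filter (fun s => s ∣ k ∧ Real.exp (L / l) < s),
            L * (if s ∣ k ∧ Real.exp (L / l) < s then (1 : ℝ) else 0) := by
            refine Finset.sum_le_sum fun s hs => ?_
            rw [mem_filter] at hs
            rw [if_pos hs.2, mul_one]
            exact (hlogs s hs.1).2
        _ ≤ ∑ s ∈ n.primeFactors,
            L * (if s ∣ k ∧ Real.exp (L / l) < s then (1 : ℝ) else 0) := by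
            refine Finset.sum_le_sum_of_subset_of_nonneg ?_ ?_
            · intro s hs
              rw [mem_filter] at hs
              have hp := Nat.prime_of_mem_primeFactors hs.1
              have hd := Nat.dvd_of_mem_primeFactors hs.1
              have hd' : s ∣ n := by
                have := Nat.dvd_add hs.2.1 hd
                rwa [Nat.add_sub_cancel' hk.2.le] at this
              exact Nat.mem_primeFactors.2 ⟨hp, hd', hn0⟩
            · intro s _ _
              split_ifs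
              · simpa using hL.le
              · simp
    have e3 : 0 ≤ ∑ s ∈ (n - k).primeFactors,
        (if s ∣ k ∧ Real.exp (L / l) < s then Real.log s else 0) := by
      refine Finset.sum_nonneg fun s hs => ?_
      split_ifs
      · exact (hlogs s hs).1
      · exact le_refl _
    calc om k * ∑ s ∈ (n - k).primeFactors,
          (if s ∣ k ∧ Real.exp (L / l) < s then Real.log s else 0)
        ≤ L * (L * ∑ s ∈ n.primeFactors,
          if s ∣ k ∧ Real.exp (L / l) < s then (1 : ℝ) else 0) :=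
          mul_le_mul homk e2 e3 hL.le
      _ = _ := by ring
  -- (3) all together
  refine le_trans ?_ (add_le_add (add_le_add h1 h2) (le_refl _))
  unfold ws
  rw [Finset.mul_sum, ← Finset.sum_add_distrib, ← Finset.sum_add_distrib]
  refine Finset.sum_le_sum fun r hr => ?_
  rw [Finset.mul_sum, ← Finset.sum_add_distrib, ← Finset.sum_add_distrib]
  refine Finset.sum_le_sum fun s hs => ?_
  obtain ⟨hr0, hrL⟩ := hlogr r hr
  obtain ⟨hs0, hsL⟩ := hlogs s hs
  have hrs0 : 0 ≤ Real.log r * Real.log s := mul_nonneg hr0 hs0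
  have hrsL : Real.log r * Real.log s ≤ L ^ 2 := by
    rw [sq]
    exact mul_le_mul hrL hsL hs0 hL.le
  have hL2 : 0 ≤ L ^ 2 := by positivity
  have n1 : (0 : ℝ) ≤ if (k : ℝ) < n / L ^ 2 then Real.log r * Real.log s else 0 := by
    split_ifs
    · exact hrs0
    · exact le_refl _
  have n2 : (0 : ℝ) ≤
      if s ∣ k ∧ Real.exp (L / l) < s then Real.log r * Real.log s else 0 := by
    split_ifs
    · exact hrs0
    · exact le_refl _
  have n3 : (0 : ℝ) ≤ L ^ 2 * (if (n : ℝ) / L ^ 2 ≤ k ∧ ¬ s ∣ k ∧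
        Real.exp (L / 2 + L / l) < r ∧
        Real.exp (L / l) < s ∧ Real.exp (L - L / l ^ 4) < (r : ℝ) * s ∧
        (r : ℝ) * s < Real.exp (L + L / l ^ 4) then (1 : ℝ) else 0) := by
    split_ifs
    · simpa using hL2
    · simp
  by_cases hP : Real.exp (L / 2 + L / l) < r ∧ Real.exp (L / l) < s ∧
      Real.exp (L - L / l ^ 4) < (r : ℝ) * s ∧ (r : ℝ) * s < Real.exp (L + L / l ^ 4)
  swap
  · rw [if_neg hP]
    linarith
  rw [if_pos hP]
  by_cases hc1 : (k : ℝ) < n / L ^ 2
  · rw [if_pos hc1]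
    linarith
  by_cases hc2 : s ∣ k
  · rw [if_pos (⟨hc2, hP.2.1⟩ : s ∣ k ∧ Real.exp (L / l) < s)]
    linarith
  · rw [if_pos (⟨not_lt.1 hc1, hc2, hP⟩ : (n : ℝ) / L ^ 2 ≤ k ∧ ¬ s ∣ k ∧
        Real.exp (L / 2 + L / l) < r ∧
        Real.exp (L / l) < s ∧ Real.exp (L - L / l ^ 4) < (r : ℝ) * s ∧
        (r : ℝ) * s < Real.exp (L + L / l ^ 4))]
    linarith

open Classical in
/-- the second part of the sum -/
lemma part2 {n : ℕ} {L l : ℝ} (h : Reg n L l) :
    ∑ k ∈ Ico 1 n, L ^ 2 * (∑ s ∈ n.primeFactors,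
      if s ∣ k ∧ Real.exp (L / l) < s then (1 : ℝ) else 0) ≤ n := by
  have hL := h.Lpos
  have hl := h.lpos
  have hn := h.n0
  rw [← Finset.mul_sum, Finset.sum_comm]
  have h1 : ∀ s ∈ n.primeFactors, ∑ k ∈ Ico 1 n,
      (if s ∣ k ∧ Real.exp (L / l) < s then (1 : ℝ) else 0) ≤ n / Real.exp (L / l) := by
    intro s hs
    have hp := Nat.prime_of_mem_primeFactors hs
    have hs0 : (0 : ℝ) < s := by exact_mod_cast hp.pos
    by_cases hc : Real.exp (L / l) < s
    · have e1 : ∑ k ∈ Ico 1 n, (if s ∣ k ∧ Real.exp (L / l) < s then (1 : ℝ) else 0) =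
          (((Ico 1 n).filter fun k => s ∣ k).card : ℝ) := by
        rw [Finset.card_filter]
        push_cast
        refine Finset.sum_congr rfl fun k _ => ?_
        by_cases hk : s ∣ k
        · rw [if_pos ⟨hk, hc⟩, if_pos hk]
        · rw [if_neg (fun h => hk h.1), if_neg hk]
      rw [e1]
      refine (card_mult_le n s).trans ?_
      exact div_le_div_of_nonneg_left hn.le (Real.exp_pos _) hc.le
    · have e1 : ∑ k ∈ Ico 1 n, (if s ∣ k ∧ Real.exp (L / l) < s then (1 : ℝ) else 0) = 0 := by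
        refine Finset.sum_eq_zero fun k _ => ?_
        rw [if_neg (fun h => hc h.2)]
      rw [e1]
      positivity
  have h2 := Finset.sum_le_sum h1
  rw [Finset.sum_const, nsmul_eq_mul] at h2
  have h3 := card_primeFactors_le h
  have h4 : L ^ 4 ≤ Real.exp (L / l) := by
    refine (h.pow_le_yv (m := 4) (by norm_num)).trans ?_
    apply Real.exp_le_exp.2
    apply div_le_div_of_nonneg_left hL.le hl
    have : l ^ 1 ≤ l ^ 4 := pow_le_pow_right₀ h.one (by norm_num)
    simpa using this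
  have h5 : 2 * L ^ 3 ≤ Real.exp (L / l) := by
    have h6 := h.Lge
    have h7 : L ^ 4 = L * L ^ 3 := by ring
    have h8 : 0 < L ^ 3 := by positivity
    nlinarith
  have hE := Real.exp_pos (L / l)
  calc L ^ 2 * ∑ s ∈ n.primeFactors, ∑ k ∈ Ico 1 n,
        (if s ∣ k ∧ Real.exp (L / l) < s then (1 : ℝ) else 0)
      ≤ L ^ 2 * ((n.primeFactors.card : ℝ) * (n / Real.exp (L / l))) :=
        mul_le_mul_of_nonneg_left h2 (by positivity)
    _ ≤ L ^ 2 * (2 * L * (n / Real.exp (L / l))) := by gcongr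
    _ = (2 * L ^ 3) * n / Real.exp (L / l) := by ring
    _ ≤ Real.exp (L / l) * n / Real.exp (L / l) := by gcongr
    _ = n := by field_simp

end HIG_

open HIG_ in
theorem p_HIG (h : T_CNT) : T_HIG := by
  classical
  obtain ⟨C, hC, hcnt⟩ := h
  refine ⟨C + 2, by linarith, ?_⟩
  intro n L l hR
  have hL := hR.Lpos
  have hl := hR.lpos
  have hn := hR.n0
  unfold wsum
  refine (Finset.sum_le_sum fun k hk => term_le hR hk).trans ?_
  rw [Finset.sum_add_distrib, Finset.sum_add_distrib]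
  have h1 : ∑ k ∈ Ico 1 n, (if (k : ℝ) < n / L ^ 2 then L ^ 2 else 0) ≤ (n : ℝ) := by
    have e1 := card_small_le n (n / L ^ 2) (by positivity)
    rw [← Finset.sum_filter, Finset.sum_const, nsmul_eq_mul]
    calc (((Ico 1 n).filter fun k : ℕ => (k : ℝ) < n / L ^ 2).card : ℝ) * L ^ 2
        ≤ ((n : ℝ) / L ^ 2) * L ^ 2 := by gcongr
      _ = (n : ℝ) := by field_simp
  have h2 := part2 hR
  have h3 := hcnt n L l hR
  have h4 : (n : ℝ) ≤ n * L ^ 2 / l := by
    rw [le_div_iff₀ hl]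
    have e1 := hR.pow_le (k := 1) (by norm_num)
    have e2 := hR.Lge
    have e3 : l ≤ L ^ 2 := by nlinarith
    exact mul_le_mul_of_nonneg_left e3 hn.le
  have h5 : L ^ 2 * ∑ k ∈ Ico 1 n, ∑ r ∈ k.primeFactors, ∑ s ∈ (n - k).primeFactors,
      (if (n : ℝ) / L ^ 2 ≤ k ∧ ¬ s ∣ k ∧ Real.exp (L / 2 + L / l) < r ∧
        Real.exp (L / l) < s ∧ Real.exp (L - L / l ^ 4) < (r : ℝ) * s ∧
        (r : ℝ) * s < Real.exp (L + L / l ^ 4) then (1 : ℝ) else 0) ≤
      L ^ 2 * (C * n / l) := mul_le_mul_of_nonneg_left h3 (by positivity)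
  rw [Finset.mul_sum] at h5
  have h6 : L ^ 2 * (C * n / l) = C * (n * L ^ 2 / l) := by ring
  have h7 : (C + 2) * n * L ^ 2 / l = C * (n * L ^ 2 / l) + 2 * (n * L ^ 2 / l) := by ring
  rw [h7]
  linarith

end Pool.Agent.TSU
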