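import Pool.Agent.TSU.Targets

/-!
# TSU: the pairs of primes with a small product (target LOW)
-/

set_option autoImplicit false

open Finset

namespace Pool.Agent.TSU

namespace LOW_

lemma mem_prs {n r : ℕ} : r ∈ prs n (fun _ => True) ↔ r ≤ n ∧ r.Prime := by
  unfold prs
  simp only [mem_filter, mem_range]
  constructor
  · rintro ⟨h1, h2, -⟩
    exact ⟨by omega, h2⟩
  · rintro ⟨h1, h2⟩
    exact ⟨by omega, h2, trivial⟩

lemma primeFactors_eq {n k : ℕ} (hk : 1 ≤ k) (hkn : k ≤ n) :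
    k.primeFactors = (prs n (fun _ => True)).filter (fun r => r ∣ k) := by
  ext p
  rw [mem_filter, mem_prs, Nat.mem_primeFactors]
  constructor
  · rintro ⟨h1, h2, h3⟩
    exact ⟨⟨(Nat.le_of_dvd hk h2).trans hkn, h1⟩, h2⟩
  · rintro ⟨⟨-, h1⟩, h2⟩
    exact ⟨h1, h2, by omega⟩

lemma ws_eq {n k : ℕ} (hk : k ∈ Ico 1 n) (P : ℕ → ℕ → Prop) [∀ r s, Decidable (P r s)] :
    ws P k (n - k) = ∑ r ∈ prs n (fun _ => True), ∑ s ∈ prs n (fun _ => True),
      (if r ∣ k ∧ s ∣ n - k ∧ P r s then Real.log r * Real.log s else 0) := by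
  rw [mem_Ico] at hk
  unfold ws
  rw [primeFactors_eq (n := n) hk.1 hk.2.le,
    primeFactors_eq (n := n) (k := n - k) (by omega) (by omega), sum_filter]
  refine sum_congr rfl fun r _ => ?_
  by_cases h1 : r ∣ k
  · rw [if_pos h1, sum_filter]
    refine sum_congr rfl fun s _ => ?_
    by_cases h2 : s ∣ n - k
    · rw [if_pos h2]
      by_cases h3 : P r s
      · rw [if_pos h3, if_pos ⟨h1, h2, h3⟩]
      · rw [if_neg h3, if_neg (fun h => h3 h.2.2)]
    · rw [if_neg h2, if_neg (fun h => h2 h.2.1)]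
  · rw [if_neg h1]
    symm
    apply sum_eq_zero
    intro s _
    rw [if_neg (fun h => h1 h.1)]

lemma sum_cnt (S : Finset ℕ) (Q : ℕ → Prop) [DecidablePred Q] (c : ℝ) :
    ∑ k ∈ S, (if Q k then c else 0) = cnt S Q * c := by
  classical
  unfold cnt
  rw [card_filter]
  push_cast
  rw [sum_mul]
  refine sum_congr rfl fun k _ => ?_
  by_cases h : Q k
  · rw [if_pos h, if_pos h, one_mul]
  · rw [if_neg h, if_neg h, zero_mul]

lemma cnt_eq (S : Finset ℕ) (Q : ℕ → Prop) [DecidablePred Q] :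
    cnt S Q = ((S.filter Q).card : ℝ) := by
  have h := sum_cnt S Q 1
  rw [mul_one] at h
  rw [← h, card_filter]
  push_cast
  rfl

lemma cnt_nonneg (S : Finset ℕ) (Q : ℕ → Prop) : 0 ≤ cnt S Q := Nat.cast_nonneg _

lemma cnt_same {n r : ℕ} : cnt (Ico 1 n) (fun k => r ∣ k ∧ r ∣ n - k) ≤ (n : ℝ) / r := by
  rw [cnt_eq]
  have h1 : ((Ico 1 n).filter fun k => r ∣ k ∧ r ∣ n - k).card ≤ n / r := by
    rw [← Nat.Ioc_filter_dvd_card_eq_div]
    apply card_le_card
    intro k hk
    rw [mem_filter, mem_Ico] at hk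
    rw [mem_filter, mem_Ioc]
    exact ⟨⟨by omega, by omega⟩, hk.2.1⟩
  calc (((Ico 1 n).filter fun k => r ∣ k ∧ r ∣ n - k).card : ℝ) ≤ ((n / r : ℕ) : ℝ) := by
        exact_mod_cast h1
    _ ≤ (n : ℝ) / r := Nat.cast_div_le

lemma cnt_zero {n r : ℕ} (h : ¬ r ∣ n) : cnt (Ico 1 n) (fun k => r ∣ k ∧ r ∣ n - k) = 0 := by
  rw [cnt_eq, card_eq_zero.2, Nat.cast_zero]
  rw [filter_eq_empty_iff]
  rintro k hk ⟨h1, h2⟩
  rw [mem_Ico] at hk
  apply h
  have h3 : n = k + (n - k) := by omega
  rw [h3]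
  exact dvd_add h1 h2

/-- One pair `(r, s)`. -/
lemma pair_le (h2 : T_CRT) {n r s : ℕ} (hr : r.Prime) (hs : s.Prime) {D : ℝ} (hD : 0 ≤ D) :
    ∑ k ∈ Ico 1 n, (if r ∣ k ∧ s ∣ n - k ∧ (r : ℝ) * s ≤ D then
        Real.log r * Real.log s else 0) ≤
      (n + D) * (if (r : ℝ) * s ≤ D then Real.log r * Real.log s / (r * s) else 0) +
      (if r = s then (if r ∣ n then n * ((Real.log r) ^ 2 / r) else 0) else 0) := by
  have hr0 : (0 : ℝ) < r := by exact_mod_cast hr.pos
  have hs0 : (0 : ℝ) < s := by exact_mod_cast hs.pos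
  have hlr : 0 ≤ Real.log r := Real.log_natCast_nonneg r
  have hls : 0 ≤ Real.log s := Real.log_natCast_nonneg s
  have hn0 : (0 : ℝ) ≤ n := Nat.cast_nonneg n
  have hextra : (0 : ℝ) ≤
      (if r = s then (if r ∣ n then n * ((Real.log r) ^ 2 / r) else 0) else 0) := by
    split_ifs
    · positivity
    · exact le_rfl
    · exact le_rfl
  by_cases hP : (r : ℝ) * s ≤ D
  · rw [if_pos hP]
    have h3 : ∑ k ∈ Ico 1 n, (if r ∣ k ∧ s ∣ n - k ∧ (r : ℝ) * s ≤ D then
        Real.log r * Real.log s else 0) =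
        cnt (Ico 1 n) (fun k => r ∣ k ∧ s ∣ n - k) * (Real.log r * Real.log s) := by
      rw [← sum_cnt]
      refine sum_congr rfl fun k _ => ?_
      by_cases h : r ∣ k ∧ s ∣ n - k
      · rw [if_pos h, if_pos ⟨h.1, h.2, hP⟩]
      · rw [if_neg h, if_neg (fun h' => h ⟨h'.1, h'.2.1⟩)]
    rw [h3]
    by_cases hrs : r = s
    · subst hrs
      rw [if_pos rfl]
      by_cases hd : r ∣ n
      · rw [if_pos hd]
        have h4 : cnt (Ico 1 n) (fun k => r ∣ k ∧ r ∣ n - k) * (Real.log r * Real.log r) ≤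
            (n : ℝ) / r * (Real.log r * Real.log r) := by
          gcongr
          exact cnt_same
        have h5 : (n : ℝ) / r * (Real.log r * Real.log r) = n * ((Real.log r) ^ 2 / r) := by
          field_simp
        have h6 : 0 ≤ ((n : ℝ) + D) * (Real.log r * Real.log r / (r * r)) := by positivity
        linarith
      · rw [if_neg hd, cnt_zero hd, zero_mul, add_zero]
        positivity
    · rw [if_neg hrs, add_zero]
      have h4 := h2 n r s hr hs hrs
      have h5 : (n : ℝ) / (r * s) + 1 ≤ (n + D) / (r * s) := by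
        rw [add_div]
        gcongr
        rw [le_div_iff₀ (by positivity), one_mul]
        exact hP
      calc cnt (Ico 1 n) (fun k => r ∣ k ∧ s ∣ n - k) * (Real.log r * Real.log s)
          ≤ ((n + D) / (r * s)) * (Real.log r * Real.log s) := by
            gcongr
            exact h4.trans h5
        _ = (n + D) * (Real.log r * Real.log s / (r * s)) := by
            field_simp
  · rw [if_neg hP, mul_zero, zero_add]
    have h3 : ∑ k ∈ Ico 1 n, (if r ∣ k ∧ s ∣ n - k ∧ (r : ℝ) * s ≤ D then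
        Real.log r * Real.log s else 0) = 0 := by
      apply sum_eq_zero
      intro k _
      rw [if_neg (fun h => hP h.2.2)]
    rw [h3]
    exact hextra

/-- The prime divisors of `n`. -/
lemma sum_dvd {n : ℕ} (hn : 1 ≤ n) :
    ∑ r ∈ prs n (fun _ => True), (if r ∣ n then (n : ℝ) * ((Real.log r) ^ 2 / r) else 0) ≤
      n * Real.log n := by
  rw [← sum_filter, ← primeFactors_eq hn le_rfl, ← mul_sum]
  have h1 : ∑ r ∈ n.primeFactors, (Real.log r) ^ 2 / r ≤ ∑ r ∈ n.primeFactors, Real.log r := by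
    apply sum_le_sum
    intro r hr
    have hr' := Nat.prime_of_mem_primeFactors hr
    have hr0 : (0 : ℝ) < r := by exact_mod_cast hr'.pos
    have hlr : 0 ≤ Real.log r := Real.log_natCast_nonneg r
    rw [div_le_iff₀ hr0, sq]
    gcongr
    have := Real.log_le_sub_one_of_pos hr0
    linarith
  have h2 : ∑ r ∈ n.primeFactors, Real.log r ≤ Real.log n := by
    rw [← Real.log_prod]
    · apply Real.log_le_log
      · apply prod_pos
        intro r hr
        exact_mod_cast (Nat.prime_of_mem_primeFactors hr).pos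
      · have h3 : ∏ p ∈ n.primeFactors, p ≤ n := Nat.le_of_dvd hn (Nat.prod_primeFactors_dvd n)
        calc (∏ p ∈ n.primeFactors, (p : ℝ)) = ((∏ p ∈ n.primeFactors, p : ℕ) : ℝ) := by
              push_cast
              rfl
          _ ≤ n := by exact_mod_cast h3
    · intro r hr
      exact_mod_cast (Nat.prime_of_mem_primeFactors hr).ne_zero
  have hn0 : (0 : ℝ) ≤ n := Nat.cast_nonneg n
  gcongr
  exact h1.trans h2

end LOW_

open LOW_ in
/-- LOW. -/
theorem p_LOW (h1 : T_TWO) (h2 : T_CRT) : T_LOW := by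
  obtain ⟨C, hC, hT⟩ := h1
  refine ⟨4 * C + 2, by linarith, fun n L l h => ?_⟩
  have hl := h.lpos
  have hL := h.Lpos
  have hL1 : 1 ≤ L := by have := h.Lge; linarith
  have hn := h.n0
  have hn1 : 1 ≤ n := by
    have : 0 < n := by exact_mod_cast hn
    omega
  set D : ℝ := Real.exp (L - L / l ^ 4) with hDdef
  have hl4 : 1 ≤ l ^ 4 := one_le_pow₀ h.one
  have hLl : L / l ^ 4 ≤ L := div_le_self hL.le hl4
  have hLl0 : 0 ≤ L / l ^ 4 := by positivity
  have hD1 : 1 ≤ D := by
    rw [hDdef]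
    apply Real.one_le_exp
    linarith
  have hlogD : Real.log D = L - L / l ^ 4 := by rw [hDdef, Real.log_exp]
  have hlogD0 : 0 ≤ Real.log D := by rw [hlogD]; linarith
  have hlogD1 : Real.log D ≤ L := by rw [hlogD]; linarith
  -- `D ≤ n / L`
  have hDn : D * L ≤ n := by
    have h3 := h.pow_le_yv (m := 1) (by norm_num)
    rw [pow_one] at h3
    have h4 : D = n / Real.exp (L / l ^ 4) := by
      rw [hDdef, Real.exp_sub, h.expL]
    have h5 : 0 < Real.exp (L / l ^ 4) := Real.exp_pos _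
    rw [h4, div_mul_eq_mul_div, div_le_iff₀ h5]
    gcongr
  have hD0 : 0 ≤ D := by linarith
  -- the double sum
  have hsum := hT D n hD1
  set T := ∑ r ∈ prs n (fun _ => True), ∑ s ∈ prs n (fun _ => True),
    (if (r : ℝ) * s ≤ D then Real.log r * Real.log s / (r * s) else 0) with hTdef
  have hTle : T ≤ L ^ 2 / 2 + 2 * C * L := by
    have h3 : (Real.log D) ^ 2 ≤ L ^ 2 := by gcongr
    have h4 : C * Real.log D ≤ C * L := by gcongr
    have h5 : C ≤ C * L := le_mul_of_one_le_right hC.le hL1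
    linarith
  have h3 : wsum (fun r s => (r : ℝ) * s ≤ D) n ≤ (n + D) * T + n * Real.log n := by
    have h4 : wsum (fun r s => (r : ℝ) * s ≤ D) n =
        ∑ r ∈ prs n (fun _ => True), ∑ s ∈ prs n (fun _ => True), ∑ k ∈ Ico 1 n,
          (if r ∣ k ∧ s ∣ n - k ∧ (r : ℝ) * s ≤ D then Real.log r * Real.log s else 0) := by
      unfold wsum
      rw [sum_congr rfl fun k hk => ws_eq hk (fun r s => (r : ℝ) * s ≤ D), sum_comm]
      refine sum_congr rfl fun r _ => ?_
      rw [sum_comm]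
    rw [h4]
    calc _ ≤ ∑ r ∈ prs n (fun _ => True), ∑ s ∈ prs n (fun _ => True),
          ((n + D) * (if (r : ℝ) * s ≤ D then Real.log r * Real.log s / (r * s) else 0) +
          (if r = s then (if r ∣ n then n * ((Real.log r) ^ 2 / r) else 0) else 0)) := by
          apply sum_le_sum
          intro r hr
          apply sum_le_sum
          intro s hs
          exact pair_le h2 (mem_prs.1 hr).2 (mem_prs.1 hs).2 hD0
      _ = (n + D) * T + ∑ r ∈ prs n (fun _ => True),
          (if r ∣ n then n * ((Real.log r) ^ 2 / r) else 0) := by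
          rw [hTdef, mul_sum, ← sum_add_distrib]
          refine sum_congr rfl fun r hr => ?_
          rw [sum_add_distrib, mul_sum, sum_ite_eq, if_pos hr]
      _ ≤ (n + D) * T + n * Real.log n := by
          gcongr
          exact sum_dvd hn1
  rw [← h.hL] at h3
  have h4 : (n + D) * T ≤ (n + D) * (L ^ 2 / 2 + 2 * C * L) := by gcongr
  have h5 : D * (L ^ 2 / 2 + 2 * C * L) ≤ n * (L / 2 + 2 * C) := by
    calc D * (L ^ 2 / 2 + 2 * C * L) = D * L * (L / 2 + 2 * C) := by ring
      _ ≤ n * (L / 2 + 2 * C) := by gcongr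
  have h6 : (n : ℝ) * C ≤ n * C * L := le_mul_of_one_le_right (by positivity) hL1
  nlinarith [mul_nonneg hn.le hL.le, mul_nonneg (mul_nonneg hn.le hC.le) hL.le]

end Pool.Agent.TSU
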