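import Pool.Agent.TSU.Targets
import Pool.Agent.ACP.P_M1

set_option autoImplicit false

/-!
# TSU: MER, the first theorem of Mertens for real numbers
-/

open Finset

namespace Pool.Agent.TSU

theorem p_MER : T_MER := by
  obtain ⟨C, hC, hM⟩ := Pool.Agent.ACP.p_M1
  have hset : ∀ m : ℕ, prs m (fun _ => True) = Pool.Agent.ACP.pr m := by
    intro m
    unfold prs Pool.Agent.ACP.pr
    ext p
    simp only [mem_filter, mem_range, mem_Icc, and_true]
    constructor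
    · rintro ⟨h1, h2⟩
      exact ⟨⟨h2.one_lt.le, by omega⟩, h2⟩
    · rintro ⟨⟨_, h1⟩, h2⟩
      exact ⟨by omega, h2⟩
  have hl2 : 0 ≤ Real.log 2 := Real.log_nonneg (by norm_num)
  refine ⟨C + Real.log 2, by linarith, fun x hx => ?_⟩
  rw [hset]
  by_cases h1 : 1 ≤ x
  · have hm : 1 ≤ ⌊x⌋₊ := Nat.one_le_floor_iff x |>.2 h1
    have hm' : (1 : ℝ) ≤ (⌊x⌋₊ : ℝ) := by exact_mod_cast hm
    have h2 := abs_le.1 (hM ⌊x⌋₊ hm)
    have h3 : (⌊x⌋₊ : ℝ) ≤ x := Nat.floor_le hx.le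
    have h4 : x < (⌊x⌋₊ : ℝ) + 1 := Nat.lt_floor_add_one x
    have h5 : Real.log (⌊x⌋₊ : ℝ) ≤ Real.log x := Real.log_le_log (by linarith) h3
    have h6 : Real.log x ≤ Real.log 2 + Real.log (⌊x⌋₊ : ℝ) := by
      rw [← Real.log_mul (by norm_num) (by linarith)]
      exact Real.log_le_log hx (by linarith)
    exact ⟨by linarith, fun _ => by linarith⟩
  · have h2 : ⌊x⌋₊ = 0 := Nat.floor_eq_zero.2 (not_le.1 h1)
    rw [h2]
    have h3 : Pool.Agent.ACP.pr 0 = ∅ := by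
      unfold Pool.Agent.ACP.pr
      simp
    rw [h3, Finset.sum_empty]
    have h4 : Real.log x ≤ 0 := Real.log_nonpos hx.le (not_le.1 h1).le
    exact ⟨by linarith, fun h => absurd h h1⟩

end Pool.Agent.TSU
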