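import Pool.Agent.TSU.Targets

/-!
# TSU, target MID
-/

set_option autoImplicit false

open Finset

namespace Pool.Agent.TSU

namespace MID_

lemma om_le {m : ℕ} (hm : m ≠ 0) : ∑ s ∈ m.primeFactors, Real.log s ≤ Real.log m := by
  have h0 : ∀ x ∈ m.primeFactors, ((x : ℕ) : ℝ) ≠ 0 := by
    intro x hx
    have := (Nat.prime_of_mem_primeFactors hx).pos
    positivity
  rw [← Real.log_prod h0, ← Nat.cast_prod]
  have h1 : ∏ p ∈ m.primeFactors, p ∣ m := Nat.prod_primeFactors_dvd m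
  have h2 : ∏ p ∈ m.primeFactors, p ≤ m := Nat.le_of_dvd (Nat.pos_of_ne_zero hm) h1
  have h3 : 0 < ∏ p ∈ m.primeFactors, p :=
    Finset.prod_pos fun p hp => (Nat.prime_of_mem_primeFactors hp).pos
  exact Real.log_le_log (by exact_mod_cast h3) (by exact_mod_cast h2)

lemma cnt_dvd (n r : ℕ) : (((Ico 1 n).filter fun k => r ∣ k).card : ℝ) ≤ (n : ℝ) / r := by
  have h1 : ((Ico 1 n).filter fun k => r ∣ k) ⊆ ((Ioc 0 n).filter fun k => r ∣ k) := by
    intro k hk
    rw [mem_filter, mem_Ico] at hk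
    rw [mem_filter, mem_Ioc]
    exact ⟨⟨by omega, by omega⟩, hk.2⟩
  have h2 := card_le_card h1
  rw [Nat.Ioc_filter_dvd_card_eq_div] at h2
  calc (((Ico 1 n).filter fun k => r ∣ k).card : ℝ) ≤ ((n / r : ℕ) : ℝ) := by exact_mod_cast h2
    _ ≤ (n : ℝ) / r := Nat.cast_div_le

lemma mem_prs {n r : ℕ} {P : ℕ → Prop} : r ∈ prs n P ↔ r ≤ n ∧ r.Prime ∧ P r := by
  simp only [prs, mem_filter, mem_range, Nat.lt_succ_iff]

end MID_

open MID_

theorem p_MID (h : T_MER) : T_MID := by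
  classical
  obtain ⟨C, hC, hM⟩ := h
  refine ⟨2 + 2 * C, by positivity, ?_⟩
  intro n L l hR
  have hl := hR.lpos
  have hL := hR.Lpos
  have hn := hR.n0
  set x := Real.exp (L / 2 - L / l) with hx
  set x' := Real.exp (L / 2 + L / l) with hx'
  set Q : ℕ → Prop := fun r => x < r ∧ (r : ℝ) ≤ x' with hQ
  -- step 1: the inner sum
  have h1 : ∀ k ∈ Ico 1 n, ws (fun r _ => Q r) k (n - k) ≤
      L * ∑ r ∈ k.primeFactors, if Q r then Real.log r else 0 := by
    intro k hk
    rw [mem_Ico] at hk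
    unfold ws
    rw [mul_sum]
    refine sum_le_sum fun r hr => ?_
    have hrl : 0 ≤ Real.log r := Real.log_natCast_nonneg r
    by_cases hq : Q r
    · simp only [hq, if_true]
      rw [← mul_sum, mul_comm]
      refine mul_le_mul_of_nonneg_right ?_ hrl
      refine (om_le (by omega)).trans ?_
      rw [hR.hL]
      refine Real.log_le_log ?_ ?_
      · have : 0 < n - k := by omega
        exact_mod_cast this
      · have : n - k ≤ n := Nat.sub_le _ _
        exact_mod_cast this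
    · simp only [hq, if_false, sum_const_zero, mul_zero, le_refl]
  have h2 : wsum (fun r _ => Q r) n ≤
      L * ∑ k ∈ Ico 1 n, ∑ r ∈ k.primeFactors, if Q r then Real.log r else 0 := by
    unfold wsum
    rw [mul_sum]
    exact sum_le_sum h1
  -- step 2: exchange
  have h3 : ∀ k ∈ Ico 1 n, (∑ r ∈ k.primeFactors, if Q r then Real.log r else 0) =
      ∑ r ∈ prs n Q, if r ∣ k then Real.log r else 0 := by
    intro k hk
    rw [mem_Ico] at hk
    rw [← sum_filter, ← sum_filter]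
    refine sum_congr ?_ fun _ _ => rfl
    ext r
    rw [mem_filter, mem_filter, Nat.mem_primeFactors, mem_prs]
    constructor
    · rintro ⟨⟨hp, hd, h0⟩, hq⟩
      have := Nat.le_of_dvd (by omega) hd
      exact ⟨⟨by omega, hp, hq⟩, hd⟩
    · rintro ⟨⟨_, hp, hq⟩, hd⟩
      exact ⟨⟨hp, hd, by omega⟩, hq⟩
  have h4 : (∑ k ∈ Ico 1 n, ∑ r ∈ k.primeFactors, if Q r then Real.log r else 0) ≤
      n * ∑ r ∈ prs n Q, Real.log r / r := by
    rw [sum_congr rfl h3, sum_comm, mul_sum]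
    refine sum_le_sum fun r hr => ?_
    have hrl : 0 ≤ Real.log r := Real.log_natCast_nonneg r
    rw [← sum_filter, sum_const, nsmul_eq_mul]
    calc (((Ico 1 n).filter fun k => r ∣ k).card : ℝ) * Real.log r
        ≤ (n : ℝ) / r * Real.log r := mul_le_mul_of_nonneg_right (cnt_dvd n r) hrl
      _ = n * (Real.log r / r) := by ring
  -- step 3: Mertens
  have hLl : 0 < L / l := by positivity
  have hx1 : 1 ≤ x' := Real.one_le_exp (by positivity)
  have h5 := (hM x (Real.exp_pos _)).1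
  have h6 := (hM x' (Real.exp_pos _)).2 hx1
  have hsub : prs n Q ⊆ prs ⌊x'⌋₊ (fun _ => True) \ prs ⌊x⌋₊ (fun _ => True) := by
    intro r hr
    obtain ⟨_, hp, hq1, hq2⟩ := mem_prs.1 hr
    rw [mem_sdiff, mem_prs, mem_prs]
    refine ⟨⟨Nat.le_floor hq2, hp, trivial⟩, ?_⟩
    rintro ⟨h7, _⟩
    have h9 := (Nat.le_floor_iff (Real.exp_pos _).le).1 h7
    linarith
  have hsub2 : prs ⌊x⌋₊ (fun _ => True) ⊆ prs ⌊x'⌋₊ (fun _ => True) := by
    intro r hr
    obtain ⟨h1, h2, _⟩ := mem_prs.1 hr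
    have h7 : x ≤ x' := Real.exp_le_exp.2 (by linarith)
    exact mem_prs.2 ⟨h1.trans (Nat.floor_le_floor h7), h2, trivial⟩
  have hnn : ∀ r : ℕ, 0 ≤ Real.log r / r := fun r =>
    div_nonneg (Real.log_natCast_nonneg r) (Nat.cast_nonneg r)
  have h7 : ∑ r ∈ prs n Q, Real.log r / r ≤ 2 * (L / l) + 2 * C := by
    calc ∑ r ∈ prs n Q, Real.log r / r
        ≤ ∑ r ∈ prs ⌊x'⌋₊ (fun _ => True) \ prs ⌊x⌋₊ (fun _ => True), Real.log r / r :=
          sum_le_sum_of_subset_of_nonneg hsub fun r _ _ => hnn r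
      _ = ∑ r ∈ prs ⌊x'⌋₊ (fun _ => True), Real.log r / r
          - ∑ r ∈ prs ⌊x⌋₊ (fun _ => True), Real.log r / r := by
          rw [← sum_sdiff hsub2]; ring
      _ ≤ (Real.log x' + C) - (Real.log x - C) := by linarith
      _ = 2 * (L / l) + 2 * C := by rw [hx, hx', Real.log_exp, Real.log_exp]; ring
  -- conclusion
  have h8 : 1 ≤ L / l := by
    rw [le_div_iff₀ hl]
    have := hR.pow_le (k := 1) (by norm_num)
    rw [pow_one] at this
    linarith
  have h9 : 2 * (L / l) + 2 * C ≤ (2 + 2 * C) * (L / l) := by nlinarith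
  calc wsum (fun r _ => Q r) n
      ≤ L * ∑ k ∈ Ico 1 n, ∑ r ∈ k.primeFactors, (if Q r then Real.log r else 0) := h2
    _ ≤ L * (n * ∑ r ∈ prs n Q, Real.log r / r) := mul_le_mul_of_nonneg_left h4 hL.le
    _ ≤ L * (n * ((2 + 2 * C) * (L / l))) := by
        refine mul_le_mul_of_nonneg_left ?_ hL.le
        exact mul_le_mul_of_nonneg_left (h7.trans h9) hn.le
    _ = (2 + 2 * C) * n * L ^ 2 / l := by ring

end Pool.Agent.TSU
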