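import Pool.Agent.TSU.Targets

/-!
# TSU, target PPW: the prime divisors of `k` carry almost the whole `log k` on average
-/

set_option autoImplicit false

open Finset

namespace Pool.Agent.TSU

namespace PPW_

theorem mem_prs {n p : ℕ} : p ∈ prs n (fun _ => True) ↔ p ≤ n ∧ p.Prime := by
  simp only [prs, Finset.mem_filter, Finset.mem_range, and_true]
  rw [Nat.lt_succ_iff]

theorem theta_bound (n : ℕ) :
    ∑ p ∈ prs n (fun _ => True), Real.log p ≤ Real.log 4 * n := by
  have h1 := Chebyshev.theta_le_log4_mul_x (x := (n : ℝ)) (Nat.cast_nonneg n)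
  refine le_trans (le_of_eq ?_) h1
  rw [Chebyshev.theta_eq_sum_Icc, Nat.floor_natCast]
  apply Finset.sum_congr _ (fun _ _ => rfl)
  ext p
  rw [mem_prs, Finset.mem_filter, Finset.mem_Icc]
  exact ⟨fun h => ⟨⟨Nat.zero_le _, h.1⟩, h.2⟩, fun h => ⟨h.1.2, h.2⟩⟩

theorem count_dvd (n p : ℕ) (hn : 1 ≤ n) (hp : 0 < p) :
    (n : ℝ) / p - 2 ≤ (((Ico 1 n).filter (fun k => p ∣ k)).card : ℝ) := by
  have h1 : Ico 1 n = Ioc 0 (n - 1) := by
    ext k
    rw [Finset.mem_Ico, Finset.mem_Ioc]
    omega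
  rw [h1, Nat.Ioc_filter_dvd_card_eq_div]
  have hp' : (0 : ℝ) < p := by exact_mod_cast hp
  have hp1 : (1 : ℝ) ≤ p := by exact_mod_cast hp
  have h2 : n - 1 < p * ((n - 1) / p + 1) := Nat.lt_mul_div_succ (n - 1) hp
  have h3 : n ≤ p * ((n - 1) / p + 1) := by omega
  have h4 : (n : ℝ) ≤ p * ((((n - 1) / p : ℕ) : ℝ) + 1) := by exact_mod_cast h3
  have h5 : (n : ℝ) / p ≤ (((n - 1) / p : ℕ) : ℝ) + 1 := by
    rw [div_le_iff₀ hp']
    linarith
  linarith

theorem om_eq (n k : ℕ) (hk : k ∈ Ico 1 n) :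
    om k = ∑ p ∈ prs n (fun _ => True), if p ∣ k then Real.log p else 0 := by
  rw [Finset.mem_Ico] at hk
  unfold om
  rw [← Finset.sum_filter]
  apply Finset.sum_congr _ (fun _ _ => rfl)
  ext p
  rw [Nat.mem_primeFactors, Finset.mem_filter, mem_prs]
  constructor
  · rintro ⟨h1, h2, h3⟩
    exact ⟨⟨by have := Nat.le_of_dvd (by omega) h2; omega, h1⟩, h2⟩
  · rintro ⟨⟨h1, h2⟩, h3⟩
    exact ⟨h2, h3, by omega⟩

end PPW_

open PPW_

theorem p_PPW (h : T_MER) : T_PPW := by
  obtain ⟨C, hC, hM⟩ := h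
  have h4 : 0 < Real.log 4 := Real.log_pos (by norm_num)
  refine ⟨C + 2 * Real.log 4, by linarith, ?_⟩
  intro n hn
  have hn0 : (0 : ℝ) < n := by exact_mod_cast hn
  have hlog : ∑ k ∈ Ico 1 n, Real.log k ≤ n * Real.log n := by
    calc ∑ k ∈ Ico 1 n, Real.log (k : ℝ) ≤ ∑ k ∈ Ico 1 n, Real.log n := by
          apply Finset.sum_le_sum
          intro k hk
          rw [Finset.mem_Ico] at hk
          have hk0 : (0 : ℝ) < k := by exact_mod_cast hk.1
          exact Real.log_le_log hk0 (by exact_mod_cast hk.2.le)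
      _ = ((n - 1 : ℕ) : ℝ) * Real.log n := by
          rw [Finset.sum_const, Nat.card_Ico, nsmul_eq_mul]
      _ ≤ n * Real.log n := by
          apply mul_le_mul_of_nonneg_right
          · exact_mod_cast Nat.sub_le n 1
          · exact Real.log_nonneg (by exact_mod_cast hn)
  have hom : n * (Real.log n - C) - 2 * (Real.log 4 * n) ≤ ∑ k ∈ Ico 1 n, om k := by
    have e1 : ∑ k ∈ Ico 1 n, om k = ∑ p ∈ prs n (fun _ => True),
        (((Ico 1 n).filter (fun k => p ∣ k)).card : ℝ) * Real.log p := by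
      rw [Finset.sum_congr rfl (om_eq n), Finset.sum_comm]
      apply Finset.sum_congr rfl
      intro p _
      rw [← Finset.sum_filter, Finset.sum_const, nsmul_eq_mul]
    have e2 : ∑ p ∈ prs n (fun _ => True), ((n : ℝ) / p - 2) * Real.log p ≤
        ∑ k ∈ Ico 1 n, om k := by
      rw [e1]
      apply Finset.sum_le_sum
      intro p hp
      have hp2 := (mem_prs.1 hp).2
      exact mul_le_mul_of_nonneg_right (count_dvd n p hn hp2.pos)
        (Real.log_nonneg (by exact_mod_cast hp2.one_lt.le))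
    have e3 : ∑ p ∈ prs n (fun _ => True), ((n : ℝ) / p - 2) * Real.log p =
        n * ∑ p ∈ prs n (fun _ => True), Real.log p / p -
          2 * ∑ p ∈ prs n (fun _ => True), Real.log p := by
      rw [Finset.mul_sum, Finset.mul_sum, ← Finset.sum_sub_distrib]
      apply Finset.sum_congr rfl
      intro p _
      ring
    have e4 := (hM n hn0).1
    rw [Nat.floor_natCast] at e4
    have e5 := theta_bound n
    have e6 : (n : ℝ) * (Real.log n - C) ≤
        n * ∑ p ∈ prs n (fun _ => True), Real.log p / p :=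
      mul_le_mul_of_nonneg_left e4 hn0.le
    linarith
  rw [Finset.sum_sub_distrib]
  have : n * Real.log n - (n * (Real.log n - C) - 2 * (Real.log 4 * n)) =
      (C + 2 * Real.log 4) * n := by ring
  linarith

end Pool.Agent.TSU
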