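import Pool.Agent.TSU.Targets

/-!
# TSU, target RAD
-/

set_option autoImplicit false

open Finset

namespace Pool.Agent.TSU

namespace RAD_

/-- the key statement about two disjoint sets of primes -/
lemma key (A B : Finset ℕ) (c : ℕ) (hA : ∀ p ∈ A, p.Prime) (hB : ∀ p ∈ B, p.Prime)
    (hdis : Disjoint A B) (hc : ∀ p ∈ A, ¬ p ∣ c)
    (h : c * (∏ p ∈ A, (p - 1)) * (∏ p ∈ B, p) = (∏ p ∈ B, (p - 1)) * (∏ p ∈ A, p)) :
    A ∪ B = ∅ := by
  rcases (A ∪ B).eq_empty_or_nonempty with he | hne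
  · exact he
  · exfalso
    have hmem := Finset.max'_mem (A ∪ B) hne
    set l := (A ∪ B).max' hne with hl
    have hmax : ∀ p ∈ A ∪ B, p ≤ l := fun p hp => Finset.le_max' _ _ hp
    have hprime : l.Prime := by
      rcases Finset.mem_union.1 hmem with h1 | h1
      · exact hA l h1
      · exact hB l h1
    have hsub : ∀ p : ℕ, p.Prime → p ≤ l → ¬ l ∣ p - 1 := by
      intro p hp hpl hd
      have h1 := hp.two_le
      have h3 := Nat.le_of_dvd (by omega) hd
      omega
    rcases Finset.mem_union.1 hmem with h1 | h1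
    · have hd : l ∣ c * (∏ p ∈ A, (p - 1)) * (∏ p ∈ B, p) := by
        rw [h]
        exact Dvd.dvd.mul_left (Finset.dvd_prod_of_mem (fun p => p) h1) _
      rcases hprime.dvd_mul.1 hd with hd1 | hd1
      · rcases hprime.dvd_mul.1 hd1 with hd2 | hd2
        · exact hc l h1 hd2
        · obtain ⟨p, hp, hpd⟩ := (Prime.dvd_finsetProd_iff hprime.prime _).1 hd2
          exact hsub p (hA p hp) (hmax p (Finset.mem_union_left _ hp)) hpd
      · obtain ⟨p, hp, hpd⟩ := (Prime.dvd_finsetProd_iff hprime.prime _).1 hd1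
        have h3 := (Nat.prime_dvd_prime_iff_eq hprime (hB p hp)).1 hpd
        rw [← h3] at hp
        exact (Finset.disjoint_left.1 hdis h1) hp
    · have hd : l ∣ (∏ p ∈ B, (p - 1)) * (∏ p ∈ A, p) := by
        rw [← h]
        exact Dvd.dvd.mul_left (Finset.dvd_prod_of_mem (fun p => p) h1) _
      rcases hprime.dvd_mul.1 hd with hd1 | hd1
      · obtain ⟨p, hp, hpd⟩ := (Prime.dvd_finsetProd_iff hprime.prime _).1 hd1
        exact hsub p (hB p hp) (hmax p (Finset.mem_union_right _ hp)) hpd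
      · obtain ⟨p, hp, hpd⟩ := (Prime.dvd_finsetProd_iff hprime.prime _).1 hd1
        have h3 := (Nat.prime_dvd_prime_iff_eq hprime (hA p hp)).1 hpd
        rw [← h3] at hp
        exact (Finset.disjoint_left.1 hdis hp) h1

/-- the equation for the private primes of `a` and `b` -/
lemma red (a b : ℕ) (ha : 0 < a) (hb : 0 < b) (h : 2 * a.totient * b = b.totient * a) :
    2 * (∏ p ∈ a.primeFactors \ b.primeFactors, (p - 1)) *
      (∏ p ∈ b.primeFactors \ a.primeFactors, p) =
      (∏ p ∈ b.primeFactors \ a.primeFactors, (p - 1)) *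
        (∏ p ∈ a.primeFactors \ b.primeFactors, p) := by
  have e1 := Nat.totient_mul_prod_primeFactors a
  have e2 := Nat.totient_mul_prod_primeFactors b
  have k1 : 2 * (∏ p ∈ a.primeFactors, (p - 1)) * (∏ p ∈ b.primeFactors, p)
      = (∏ p ∈ b.primeFactors, (p - 1)) * (∏ p ∈ a.primeFactors, p) := by
    have hab : 0 < a * b := Nat.mul_pos ha hb
    apply Nat.eq_of_mul_eq_mul_left hab
    calc a * b * (2 * (∏ p ∈ a.primeFactors, (p - 1)) * (∏ p ∈ b.primeFactors, p))
        = 2 * b * (a * ∏ p ∈ a.primeFactors, (p - 1)) * (∏ p ∈ b.primeFactors, p) := by ring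
      _ = (2 * a.totient * b) * (∏ p ∈ a.primeFactors, p) * (∏ p ∈ b.primeFactors, p) := by
          rw [← e1]; ring
      _ = a * (b.totient * ∏ p ∈ b.primeFactors, p) * (∏ p ∈ a.primeFactors, p) := by
          rw [h]; ring
      _ = a * b * ((∏ p ∈ b.primeFactors, (p - 1)) * (∏ p ∈ a.primeFactors, p)) := by
          rw [e2]; ring
  have hdec : ∀ (X Y : Finset ℕ) (f : ℕ → ℕ),
      (∏ p ∈ X, f p) = (∏ p ∈ X \ Y, f p) * ∏ p ∈ X ∩ Y, f p := by
    intro X Y f
    rw [← Finset.prod_union (Finset.disjoint_sdiff_inter X Y), Finset.sdiff_union_inter]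
  set A := a.primeFactors with hA
  set B := b.primeFactors with hB
  rw [hdec A B (fun p => p - 1), hdec A B (fun p => p), hdec B A (fun p => p - 1),
    hdec B A (fun p => p), Finset.inter_comm B A] at k1
  have hpA : ∀ p ∈ A, p.Prime := fun p hp => Nat.prime_of_mem_primeFactors hp
  have c1 : 0 < ∏ p ∈ A ∩ B, (p - 1) := by
    apply Finset.prod_pos
    intro p hp
    have := (hpA p (Finset.mem_inter.1 hp).1).two_le
    omega
  have c2 : 0 < ∏ p ∈ A ∩ B, p := by
    apply Finset.prod_pos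
    intro p hp
    exact (hpA p (Finset.mem_inter.1 hp).1).pos
  apply Nat.eq_of_mul_eq_mul_left (Nat.mul_pos c1 c2)
  calc _ = 2 * ((∏ p ∈ A \ B, (p - 1)) * ∏ p ∈ A ∩ B, (p - 1))
        * ((∏ p ∈ B \ A, p) * ∏ p ∈ A ∩ B, p) := by ring
    _ = _ := by rw [k1]; ring

end RAD_

theorem p_RAD : T_RAD := by
  intro a b ha hb h p hp hpa
  have k1 := RAD_.red a b ha hb h
  set A := a.primeFactors \ b.primeFactors with hA
  set B := b.primeFactors \ a.primeFactors with hB
  have hpA : ∀ p ∈ A, p.Prime := fun p hp =>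
    Nat.prime_of_mem_primeFactors (Finset.mem_sdiff.1 hp).1
  have hpB : ∀ p ∈ B, p.Prime := fun p hp =>
    Nat.prime_of_mem_primeFactors (Finset.mem_sdiff.1 hp).1
  have hdis : Disjoint A B := by
    rw [Finset.disjoint_left]
    intro p hp hq
    exact (Finset.mem_sdiff.1 hp).2 (Finset.mem_sdiff.1 hq).1
  by_cases hpb : p ∣ b
  · exact Or.inr hpb
  left
  have hpm : p ∈ A := by
    rw [hA, Finset.mem_sdiff]
    refine ⟨Nat.mem_primeFactors.2 ⟨hp, hpa, ha.ne'⟩, fun h1 => hpb ?_⟩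
    exact Nat.dvd_of_mem_primeFactors h1
  by_cases h2 : 2 ∈ A
  · have e1 : (∏ p ∈ A, (p - 1)) = ∏ p ∈ A.erase 2, (p - 1) := by
      rw [← Finset.mul_prod_erase A (fun p => p - 1) h2]
      simp
    have e2 : (∏ p ∈ A, p) = 2 * ∏ p ∈ A.erase 2, p := by
      rw [← Finset.mul_prod_erase A (fun p => p) h2]
    have k2 : 1 * (∏ p ∈ A.erase 2, (p - 1)) * (∏ p ∈ B, p) =
        (∏ p ∈ B, (p - 1)) * (∏ p ∈ A.erase 2, p) := by
      rw [e1, e2] at k1
      apply Nat.eq_of_mul_eq_mul_left (show 0 < 2 by norm_num)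
      calc _ = 2 * (∏ p ∈ A.erase 2, (p - 1)) * (∏ p ∈ B, p) := by ring
        _ = _ := by rw [k1]; ring
    have h3 := RAD_.key (A.erase 2) B 1 (fun q hq => hpA q (Finset.mem_of_mem_erase hq)) hpB
      (Disjoint.mono_left (Finset.erase_subset _ _) hdis)
      (fun q hq hd => (hpA q (Finset.mem_of_mem_erase hq)).one_lt.ne' (Nat.dvd_one.1 hd)) k2
    by_contra hne
    have h4 : p ∈ A.erase 2 ∪ B :=
      Finset.mem_union_left _ (Finset.mem_erase.2 ⟨hne, hpm⟩)
    rw [h3] at h4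
    exact absurd h4 (Finset.notMem_empty _)
  · have h3 := RAD_.key A B 2 hpA hpB hdis (fun q hq hd => by
      have h5 := (Nat.prime_dvd_prime_iff_eq (hpA q hq) Nat.prime_two).1 hd
      rw [h5] at hq
      exact h2 hq) k1
    have h4 : p ∈ A ∪ B := Finset.mem_union_left _ hpm
    rw [h3] at h4
    exact absurd h4 (Finset.notMem_empty _)

end Pool.Agent.TSU
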