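import Pool.Agent.TSU.Targets

/-!
# TSU-SQF: few `k` such that `k` or `n - k` is divisible by the square of a large prime
-/

set_option autoImplicit false

open Finset

namespace Pool.Agent.TSU

namespace SQF_

/-- telescoping bound for the sum of the inverse squares -/
lemma sum_sq (M N : ℕ) (hM : 2 ≤ M) (hMN : M ≤ N) :
    ∑ m ∈ Ico M N, (1 : ℝ) / (m : ℝ) ^ 2 ≤ 1 / ((M : ℝ) - 1) - 1 / ((N : ℝ) - 1) := by
  induction N, hMN using Nat.le_induction with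
  | base => simp
  | succ N hN ih =>
    rw [Finset.sum_Ico_succ_top hN]
    have h1 : (2 : ℝ) ≤ N := by exact_mod_cast hM.trans hN
    have h2 : (1 : ℝ) / (N : ℝ) ^ 2 ≤ 1 / ((N : ℝ) - 1) - 1 / (((N + 1 : ℕ) : ℝ) - 1) := by
      push_cast
      rw [div_sub_div _ _ (by linarith) (by linarith), div_le_div_iff₀ (by positivity)
        (mul_pos (by linarith) (by linarith))]
      nlinarith
    linarith

lemma sum_sq' (M N : ℕ) (hM : 2 ≤ M) :
    ∑ m ∈ Ico M N, (1 : ℝ) / (m : ℝ) ^ 2 ≤ 1 / ((M : ℝ) - 1) := by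
  have hM' : (2 : ℝ) ≤ M := by exact_mod_cast hM
  rcases le_or_gt M N with h | h
  · have h1 := sum_sq M N hM h
    have h2 : (2 : ℝ) ≤ N := by exact_mod_cast hM.trans h
    have h3 : 0 ≤ 1 / ((N : ℝ) - 1) := div_nonneg zero_le_one (by linarith)
    linarith
  · rw [Finset.Ico_eq_empty_of_le h.le, Finset.sum_empty]
    exact div_nonneg zero_le_one (by linarith)

lemma cardA (n m : ℕ) :
    (((Ioc 0 n).filter (fun k => m ^ 2 ∣ k)).card : ℝ) ≤ (n : ℝ) * (1 / (m : ℝ) ^ 2) := by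
  rw [Nat.Ioc_filter_dvd_card_eq_div n (m ^ 2)]
  have h := Nat.cast_div_le (α := ℝ) (m := n) (n := m ^ 2)
  push_cast at h
  rw [mul_one_div]
  exact h

lemma cardB (n m : ℕ) :
    (((Ico 1 n).filter (fun k => m ^ 2 ∣ n - k)).card : ℝ) ≤ (n : ℝ) * (1 / (m : ℝ) ^ 2) := by
  refine le_trans ?_ (cardA n m)
  have h : ((Ico 1 n).filter (fun k => m ^ 2 ∣ n - k)).card ≤
      ((Ioc 0 n).filter (fun k => m ^ 2 ∣ k)).card := by
    apply Finset.card_le_card_of_injOn (fun k => n - k)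
    · intro k hk
      have hk' := Finset.mem_filter.1 (Finset.mem_coe.1 hk)
      have hk1 := Finset.mem_Ico.1 hk'.1
      refine Finset.mem_coe.2 (Finset.mem_filter.2 ⟨Finset.mem_Ioc.2 ⟨?_, ?_⟩, hk'.2⟩)
      · have : 0 < n - k := by omega
        exact this
      · exact Nat.sub_le _ _
    · intro k hk k' hk' hkk
      have h1 := Finset.mem_Ico.1 (Finset.mem_filter.1 (Finset.mem_coe.1 hk)).1
      have h2 := Finset.mem_Ico.1 (Finset.mem_filter.1 (Finset.mem_coe.1 hk')).1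
      have h3 : n - k = n - k' := hkk
      omega
  exact_mod_cast h

open Classical in
theorem cnt_le_card {S T : Finset ℕ} {P : ℕ → Prop} (h : ∀ k ∈ S, P k → k ∈ T) :
    cnt S P ≤ (T.card : ℝ) := by
  unfold cnt
  refine Nat.cast_le.2 (Finset.card_le_card fun k hk => ?_)
  exact h k (Finset.mem_filter.1 hk).1 (Finset.mem_filter.1 hk).2

end SQF_

theorem p_SQF : T_SQF := by
  classical
  intro n L l h
  have hL := h.Lge
  have hn0 := h.n0
  obtain ⟨M, hM⟩ : ∃ M : ℕ, M = ⌈yv L l⌉₊ := ⟨_, rfl⟩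
  have hyM : yv L l ≤ (M : ℝ) := by rw [hM]; exact Nat.le_ceil _
  have hy2 : L ^ 2 ≤ yv L l := h.pow_le_yv (m := 2) (by norm_num)
  have hM2 : L ^ 2 ≤ (M : ℝ) := hy2.trans hyM
  have hM3 : 2 * L ≤ (M : ℝ) - 1 := by nlinarith
  have hM4 : 2 ≤ M := by
    have : (2 : ℝ) ≤ M := by linarith
    exact_mod_cast this
  have hmem : ∀ k ∈ range n, (0 < k ∧ ∃ p : ℕ, p.Prime ∧ yv L l ≤ p ∧
      (p ^ 2 ∣ k ∨ p ^ 2 ∣ n - k)) → k ∈ (Ico M n).biUnion (fun m =>
        ((Ioc 0 n).filter (fun k => m ^ 2 ∣ k)) ∪ ((Ico 1 n).filter (fun k => m ^ 2 ∣ n - k))) := by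
    intro k hk1 hk
    obtain ⟨hk2, p, hp, hyp, hpk⟩ := hk
    have hkn := Finset.mem_range.1 hk1
    have hMp : M ≤ p := by rw [hM]; exact Nat.ceil_le.2 hyp
    have hpp : p < p ^ 2 := by nlinarith [hp.one_lt]
    refine Finset.mem_biUnion.2 ⟨p, Finset.mem_Ico.2 ⟨hMp, ?_⟩, ?_⟩
    · rcases hpk with h1 | h1
      · have := Nat.le_of_dvd hk2 h1
        omega
      · have := Nat.le_of_dvd (by omega) h1
        omega
    · rcases hpk with h1 | h1
      · exact Finset.mem_union_left _ (Finset.mem_filter.2 ⟨Finset.mem_Ioc.2 ⟨hk2, hkn.le⟩, h1⟩)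
      · exact Finset.mem_union_right _ (Finset.mem_filter.2 ⟨Finset.mem_Ico.2 ⟨hk2, hkn⟩, h1⟩)
  have hbig : (((Ico M n).biUnion (fun m => ((Ioc 0 n).filter (fun k => m ^ 2 ∣ k)) ∪
      ((Ico 1 n).filter (fun k => m ^ 2 ∣ n - k)))).card : ℝ) ≤
      ∑ m ∈ Ico M n, 2 * (n : ℝ) * (1 / (m : ℝ) ^ 2) := by
    have h1 := Finset.card_biUnion_le (s := Ico M n)
      (t := fun m => ((Ioc 0 n).filter (fun k => m ^ 2 ∣ k)) ∪
      ((Ico 1 n).filter (fun k => m ^ 2 ∣ n - k)))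
    have h2 : (((Ico M n).biUnion (fun m => ((Ioc 0 n).filter (fun k => m ^ 2 ∣ k)) ∪
      ((Ico 1 n).filter (fun k => m ^ 2 ∣ n - k)))).card : ℝ) ≤ ∑ m ∈ Ico M n,
        ((((Ioc 0 n).filter (fun k => m ^ 2 ∣ k)) ∪
          ((Ico 1 n).filter (fun k => m ^ 2 ∣ n - k))).card : ℝ) := by
      exact_mod_cast h1
    refine h2.trans (Finset.sum_le_sum fun m _ => ?_)
    have h3 := Finset.card_union_le ((Ioc 0 n).filter (fun k => m ^ 2 ∣ k))
      ((Ico 1 n).filter (fun k => m ^ 2 ∣ n - k))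
    have h4 : ((((Ioc 0 n).filter (fun k => m ^ 2 ∣ k)) ∪
          ((Ico 1 n).filter (fun k => m ^ 2 ∣ n - k))).card : ℝ) ≤
        (((Ioc 0 n).filter (fun k => m ^ 2 ∣ k)).card : ℝ) +
          (((Ico 1 n).filter (fun k => m ^ 2 ∣ n - k)).card : ℝ) := by
      exact_mod_cast h3
    have h5 := SQF_.cardA n m
    have h6 := SQF_.cardB n m
    linarith
  have hcard : cnt (range n) (fun k => 0 < k ∧ ∃ p : ℕ, p.Prime ∧ yv L l ≤ p ∧
      (p ^ 2 ∣ k ∨ p ^ 2 ∣ n - k)) ≤ ∑ m ∈ Ico M n, 2 * (n : ℝ) * (1 / (m : ℝ) ^ 2) := by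
    refine le_trans ?_ hbig
    exact SQF_.cnt_le_card hmem
  refine hcard.trans ?_
  rw [← Finset.mul_sum]
  have h7 := SQF_.sum_sq' M n hM4
  have h8 : 1 / ((M : ℝ) - 1) ≤ 1 / (2 * L) :=
    one_div_le_one_div_of_le (by linarith) hM3
  calc 2 * (n : ℝ) * ∑ m ∈ Ico M n, (1 : ℝ) / (m : ℝ) ^ 2
      ≤ 2 * (n : ℝ) * (1 / (2 * L)) :=
        mul_le_mul_of_nonneg_left (h7.trans h8) (by linarith)
    _ = (n : ℝ) / L := by
        field_simp

end Pool.Agent.TSU
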