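import Pool.Agent.TSU.Targets

/-!
# TSU: STR, the strip around `rs = n`
-/

set_option autoImplicit false

open Finset

namespace Pool.Agent.TSU

namespace STR_

open Classical in
/-- Exchange of the two variables. -/
theorem ws_swap (P : ℕ → ℕ → Prop) (k m : ℕ) :
    ∑ r ∈ k.primeFactors, ∑ s ∈ m.primeFactors,
      (if P s r then Real.log r * Real.log s else 0) = ws P m k := by
  unfold ws
  rw [Finset.sum_comm]
  refine Finset.sum_congr rfl fun s _ => Finset.sum_congr rfl fun r _ => ?_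
  rw [mul_comm]

/-- The substitution `k ↦ n - k`. -/
theorem wsum_swap (P : ℕ → ℕ → Prop) (n : ℕ) :
    ∑ k ∈ Ico 1 n, ws P (n - k) k = wsum P n := by
  unfold wsum
  refine Finset.sum_nbij' (fun k => n - k) (fun k => n - k) ?_ ?_ ?_ ?_ ?_
  · intro k hk
    simp only [Finset.mem_Ico] at hk ⊢
    omega
  · intro k hk
    simp only [Finset.mem_Ico] at hk ⊢
    omega
  · intro k hk
    simp only [Finset.mem_Ico] at hk
    omega
  · intro k hk
    simp only [Finset.mem_Ico] at hk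
    omega
  · intro k hk
    simp only [Finset.mem_Ico] at hk
    have : n - (n - k) = k := by omega
    rw [this]

/-- The case distinction for `s ≤ r`. -/
theorem cases_le {n : ℕ} {L l : ℝ} (h : Reg n L l) {r s : ℕ} (hsr : s ≤ r)
    (h1 : Real.exp (L - L / l ^ 4) < (r : ℝ) * s) (h2 : (r : ℝ) * s < Real.exp (L + L / l ^ 4)) :
    (s : ℝ) ≤ Real.exp (L / l) ∨
    (Real.exp (L / 2 - L / l) < r ∧ (r : ℝ) ≤ Real.exp (L / 2 + L / l)) ∨
    (Real.exp (L / 2 + L / l) < r ∧ Real.exp (L / l) < s ∧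
      Real.exp (L - L / l ^ 4) < (r : ℝ) * s ∧ (r : ℝ) * s < Real.exp (L + L / l ^ 4)) := by
  rcases le_or_gt (s : ℝ) (Real.exp (L / l)) with hs | hs
  · exact Or.inl hs
  rcases le_or_gt (r : ℝ) (Real.exp (L / 2 + L / l)) with hr | hr
  · refine Or.inr (Or.inl ⟨?_, hr⟩)
    by_contra hc
    rw [not_lt] at hc
    have hsr' : (s : ℝ) ≤ r := by exact_mod_cast hsr
    have e1 : (r : ℝ) * s ≤ Real.exp (L / 2 - L / l) * Real.exp (L / 2 - L / l) :=
      mul_le_mul hc (hsr'.trans hc) (Nat.cast_nonneg _) (Real.exp_pos _).le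
    rw [← Real.exp_add] at e1
    have hl := h.lpos
    have hL := h.Lpos
    have e2 : L / l ^ 4 ≤ L / l := by
      have e3 : l ≤ l ^ 4 := le_self_pow₀ h.one (by norm_num)
      gcongr
    have e4 : 0 ≤ L / l := by positivity
    have e5 : Real.exp (L / 2 - L / l + (L / 2 - L / l)) ≤ Real.exp (L - L / l ^ 4) := by
      apply Real.exp_le_exp.2
      linarith
    linarith
  · exact Or.inr (Or.inr ⟨hr, hs, h1, h2⟩)

open Classical in
/-- The weight `w` if `p` holds. -/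
noncomputable def iv (p : Prop) (w : ℝ) : ℝ := if p then w else 0

theorem iv_pos {p : Prop} (h : p) (w : ℝ) : iv p w = w := by
  unfold iv
  rw [if_pos h]

theorem iv_neg {p : Prop} (h : ¬ p) (w : ℝ) : iv p w = 0 := by
  unfold iv
  rw [if_neg h]

theorem iv_nonneg (p : Prop) {w : ℝ} (hw : 0 ≤ w) : 0 ≤ iv p w := by
  by_cases h : p
  · rw [iv_pos h]
    exact hw
  · rw [iv_neg h]

/-- The pointwise bound. -/
theorem pt {n : ℕ} {L l : ℝ} (h : Reg n L l) (r s : ℕ) :
    iv (Real.exp (L - L / l ^ 4) < (r : ℝ) * s ∧ (r : ℝ) * s < Real.exp (L + L / l ^ 4))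
      (Real.log r * Real.log s) ≤
    iv ((s : ℝ) ≤ Real.exp (L / l)) (Real.log r * Real.log s) +
    iv (Real.exp (L / 2 - L / l) < r ∧ (r : ℝ) ≤ Real.exp (L / 2 + L / l))
      (Real.log r * Real.log s) +
    iv (Real.exp (L / 2 + L / l) < r ∧ Real.exp (L / l) < s ∧
      Real.exp (L - L / l ^ 4) < (r : ℝ) * s ∧ (r : ℝ) * s < Real.exp (L + L / l ^ 4))
      (Real.log r * Real.log s) +
    iv ((r : ℝ) ≤ Real.exp (L / l)) (Real.log r * Real.log s) +
    iv (Real.exp (L / 2 - L / l) < s ∧ (s : ℝ) ≤ Real.exp (L / 2 + L / l))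
      (Real.log r * Real.log s) +
    iv (Real.exp (L / 2 + L / l) < s ∧ Real.exp (L / l) < r ∧
      Real.exp (L - L / l ^ 4) < (s : ℝ) * r ∧ (s : ℝ) * r < Real.exp (L + L / l ^ 4))
      (Real.log r * Real.log s) := by
  have hw : 0 ≤ Real.log r * Real.log s :=
    mul_nonneg (Real.log_natCast_nonneg _) (Real.log_natCast_nonneg _)
  have n1 := iv_nonneg ((s : ℝ) ≤ Real.exp (L / l)) hw
  have n2 := iv_nonneg (Real.exp (L / 2 - L / l) < r ∧ (r : ℝ) ≤ Real.exp (L / 2 + L / l)) hw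
  have n3 := iv_nonneg (Real.exp (L / 2 + L / l) < r ∧ Real.exp (L / l) < s ∧
    Real.exp (L - L / l ^ 4) < (r : ℝ) * s ∧ (r : ℝ) * s < Real.exp (L + L / l ^ 4)) hw
  have n4 := iv_nonneg ((r : ℝ) ≤ Real.exp (L / l)) hw
  have n5 := iv_nonneg (Real.exp (L / 2 - L / l) < s ∧ (s : ℝ) ≤ Real.exp (L / 2 + L / l)) hw
  have n6 := iv_nonneg (Real.exp (L / 2 + L / l) < s ∧ Real.exp (L / l) < r ∧
    Real.exp (L - L / l ^ 4) < (s : ℝ) * r ∧ (s : ℝ) * r < Real.exp (L + L / l ^ 4)) hw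
  by_cases hst : Real.exp (L - L / l ^ 4) < (r : ℝ) * s ∧ (r : ℝ) * s < Real.exp (L + L / l ^ 4)
  · rw [iv_pos hst]
    rcases le_total s r with hsr | hrs
    · rcases cases_le h hsr hst.1 hst.2 with c | c | c
      · have := iv_pos c (Real.log r * Real.log s)
        linarith
      · have := iv_pos c (Real.log r * Real.log s)
        linarith
      · have := iv_pos c (Real.log r * Real.log s)
        linarith
    · have hst' : Real.exp (L - L / l ^ 4) < (s : ℝ) * r ∧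
          (s : ℝ) * r < Real.exp (L + L / l ^ 4) := by
        rw [mul_comm (s : ℝ) r]
        exact hst
      rcases cases_le h hrs hst'.1 hst'.2 with c | c | c
      · have := iv_pos c (Real.log r * Real.log s)
        linarith
      · have := iv_pos c (Real.log r * Real.log s)
        linarith
      · have := iv_pos c (Real.log r * Real.log s)
        linarith
  · rw [iv_neg hst]
    linarith

/-- The bound for one pair `k`, `m`. -/
theorem ws_le {n : ℕ} {L l : ℝ} (h : Reg n L l) (k m : ℕ) :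
    ws (fun r s => Real.exp (L - L / l ^ 4) < (r : ℝ) * s ∧
      (r : ℝ) * s < Real.exp (L + L / l ^ 4)) k m ≤
    ws (fun _ s => (s : ℝ) ≤ Real.exp (L / l)) k m +
    ws (fun r _ => Real.exp (L / 2 - L / l) < r ∧ (r : ℝ) ≤ Real.exp (L / 2 + L / l)) k m +
    ws (fun r s => Real.exp (L / 2 + L / l) < r ∧ Real.exp (L / l) < s ∧
      Real.exp (L - L / l ^ 4) < (r : ℝ) * s ∧ (r : ℝ) * s < Real.exp (L + L / l ^ 4)) k m +
    ws (fun _ s => (s : ℝ) ≤ Real.exp (L / l)) m k +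
    ws (fun r _ => Real.exp (L / 2 - L / l) < r ∧ (r : ℝ) ≤ Real.exp (L / 2 + L / l)) m k +
    ws (fun r s => Real.exp (L / 2 + L / l) < r ∧ Real.exp (L / l) < s ∧
      Real.exp (L - L / l ^ 4) < (r : ℝ) * s ∧ (r : ℝ) * s < Real.exp (L + L / l ^ 4)) m k := by
  rw [← ws_swap (fun _ s => (s : ℝ) ≤ Real.exp (L / l)) k m,
    ← ws_swap (fun r _ => Real.exp (L / 2 - L / l) < r ∧
      (r : ℝ) ≤ Real.exp (L / 2 + L / l)) k m,
    ← ws_swap (fun r s => Real.exp (L / 2 + L / l) < r ∧ Real.exp (L / l) < s ∧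
      Real.exp (L - L / l ^ 4) < (r : ℝ) * s ∧ (r : ℝ) * s < Real.exp (L + L / l ^ 4)) k m]
  unfold ws
  simp only [← Finset.sum_add_distrib]
  exact Finset.sum_le_sum fun r _ => Finset.sum_le_sum fun s _ => pt h r s

end STR_

open STR_ in
theorem p_STR (h1 : T_SML) (h2 : T_MID) (h3 : T_HIG) : T_STR := by
  obtain ⟨C1, hC1, h1⟩ := h1
  obtain ⟨C2, hC2, h2⟩ := h2
  obtain ⟨C3, hC3, h3⟩ := h3
  refine ⟨2 * (C1 + C2 + C3), by positivity, fun n L l h => ?_⟩
  have a1 := h1 n L l h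
  have a2 := h2 n L l h
  have a3 := h3 n L l h
  have hs : wsum (fun r s => Real.exp (L - L / l ^ 4) < (r : ℝ) * s ∧
      (r : ℝ) * s < Real.exp (L + L / l ^ 4)) n ≤
      wsum (fun _ s => (s : ℝ) ≤ Real.exp (L / l)) n +
      wsum (fun r _ => Real.exp (L / 2 - L / l) < r ∧
        (r : ℝ) ≤ Real.exp (L / 2 + L / l)) n +
      wsum (fun r s => Real.exp (L / 2 + L / l) < r ∧ Real.exp (L / l) < s ∧
        Real.exp (L - L / l ^ 4) < (r : ℝ) * s ∧ (r : ℝ) * s < Real.exp (L + L / l ^ 4)) n +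
      wsum (fun _ s => (s : ℝ) ≤ Real.exp (L / l)) n +
      wsum (fun r _ => Real.exp (L / 2 - L / l) < r ∧
        (r : ℝ) ≤ Real.exp (L / 2 + L / l)) n +
      wsum (fun r s => Real.exp (L / 2 + L / l) < r ∧ Real.exp (L / l) < s ∧
        Real.exp (L - L / l ^ 4) < (r : ℝ) * s ∧
        (r : ℝ) * s < Real.exp (L + L / l ^ 4)) n := by
    have e1 := wsum_swap (fun _ s => (s : ℝ) ≤ Real.exp (L / l)) n
    have e2 := wsum_swap (fun r _ => Real.exp (L / 2 - L / l) < r ∧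
        (r : ℝ) ≤ Real.exp (L / 2 + L / l)) n
    have e3 := wsum_swap (fun r s => Real.exp (L / 2 + L / l) < r ∧ Real.exp (L / l) < s ∧
        Real.exp (L - L / l ^ 4) < (r : ℝ) * s ∧ (r : ℝ) * s < Real.exp (L + L / l ^ 4)) n
    have e4 := Finset.sum_le_sum (s := Ico 1 n) fun k _ => ws_le h k (n - k)
    simp only [Finset.sum_add_distrib] at e4
    rw [e1, e2, e3] at e4
    exact e4
  have e : 2 * (C1 + C2 + C3) * n * L ^ 2 / l =
      2 * (C1 * n * L ^ 2 / l + C2 * n * L ^ 2 / l + C3 * n * L ^ 2 / l) := by ring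
  rw [e]
  linarith

end Pool.Agent.TSU
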