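import Pool.Agent.TSU.Targets

/-!
# TSU: the sieve for one linear form
-/

set_option autoImplicit false

open Finset

namespace Pool.Agent.TSU

open Pool.Agent.TSP (Per rho brun mertens one_sub_inv_pos)
open Pool.Agent.Cyclic (pr mem_pr sum_upto pr_mono)

namespace SV1_

/-- `p` divides `α t + β` -/
def B (α β : ℤ) (p t : ℕ) : Prop := (p : ℤ) ∣ α * t + β

lemma per_B (α β : ℤ) : Per (B α β) := by
  intro p t
  unfold B
  have h1 : (t : ℤ) = p * ((t / p : ℕ) : ℤ) + ((t % p : ℕ) : ℤ) := by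
    exact_mod_cast (Nat.div_add_mod t p).symm
  have h2 : α * (t : ℤ) + β = (p : ℤ) * (α * ((t / p : ℕ) : ℤ)) + (α * ((t % p : ℕ) : ℤ) + β) := by
    rw [h1]
    ring
  rw [h2]
  exact (Int.dvd_add_right (Int.dvd_mul_right _ _)).symm

lemma rho_B {α β : ℤ} {p : ℕ} (hp : p.Prime) (ha : ¬ (p : ℤ) ∣ α) :
    rho (B α β) p = 1 := by
  classical
  have : Fact p.Prime := ⟨hp⟩
  have ha' : (α : ZMod p) ≠ 0 := by rwa [Ne, ZMod.intCast_zmod_eq_zero_iff_dvd]
  unfold rho
  have hc : ((range p).filter (B α β p)).card =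
      ({-(β : ZMod p) / α} : Finset (ZMod p)).card := by
    refine Finset.card_bij (fun t _ => (t : ZMod p)) ?_ ?_ ?_
    · intro t ht
      rw [mem_filter, mem_range] at ht
      rw [mem_singleton]
      have h : (p : ℤ) ∣ α * t + β := ht.2
      rw [← ZMod.intCast_zmod_eq_zero_iff_dvd] at h
      push_cast at h
      rw [eq_div_iff ha']
      linear_combination h
    · intro s hs t ht hst
      rw [mem_filter, mem_range] at hs ht
      have h := (ZMod.natCast_eq_natCast_iff' s t p).1 hst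
      rwa [Nat.mod_eq_of_lt hs.1, Nat.mod_eq_of_lt ht.1] at h
    · intro u hu
      refine ⟨u.val, ?_, ZMod.natCast_zmod_val u⟩
      rw [mem_filter, mem_range]
      refine ⟨ZMod.val_lt u, ?_⟩
      rw [mem_singleton] at hu
      show (p : ℤ) ∣ α * (u.val : ℕ) + β
      rw [← ZMod.intCast_zmod_eq_zero_iff_dvd]
      push_cast
      rw [ZMod.natCast_zmod_val, hu]
      field_simp
      ring
  rw [hc, card_singleton]

/-- the sieve bound with free parameters -/
lemma sieve (α β : ℤ) (z r T bz : ℕ) (hz : 2 ≤ z) (hbz : 1 ≤ bz) (hz2 : z ≤ 2 ^ bz)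
    (hα : ∀ p : ℕ, p.Prime → p ≤ z → ¬ (p : ℤ) ∣ α) :
    cnt (Ioc 0 T) (fun t => ∀ p : ℕ, p.Prime → p ≤ z → ¬ (p : ℤ) ∣ α * t + β) ≤
      T * (1 / Real.log (z + 1))
      + T * (Real.exp (-(2 * r : ℕ)) * Real.exp (Real.exp 1 * (5 + 4 * Real.log bz)))
      + (z : ℝ) ^ (2 * r) * Real.exp 2 := by
  classical
  have hPp : ∀ p ∈ pr z, p.Prime := fun p hp => (mem_pr.1 hp).2
  have hrho : ∀ p ∈ pr z, rho (B α β) p = 1 := fun p hp =>
    rho_B (hPp p hp) (hα p (hPp p hp) (mem_pr.1 hp).1)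
  have hz1 : (1 : ℝ) ≤ z := by exact_mod_cast (by omega : 1 ≤ z)
  have hz0 : (0 : ℝ) < z := by linarith
  have hbr := brun (per_B α β) (pr z) hPp 0 T r z hz1
  rw [zero_add] at hbr
  have hsub : cnt (Ioc 0 T) (fun t => ∀ p : ℕ, p.Prime → p ≤ z → ¬ (p : ℤ) ∣ α * t + β)
      ≤ (((Ioc 0 T).filter (fun t => ∀ p ∈ pr z, ¬ B α β p t)).card : ℝ) := by
    unfold cnt
    have : (Ioc 0 T).filter (fun t : ℕ => ∀ p : ℕ, p.Prime → p ≤ z → ¬ (p : ℤ) ∣ α * t + β) ⊆
        (Ioc 0 T).filter (fun t => ∀ p ∈ pr z, ¬ B α β p t) := by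
      intro t ht
      rw [mem_filter] at ht ⊢
      exact ⟨ht.1, fun p hp => ht.2 p (hPp p hp) (mem_pr.1 hp).1⟩
    exact_mod_cast Finset.card_le_card this
  refine hsub.trans (hbr.trans ?_)
  have hlog : 0 < Real.log (z + 1) := Real.log_pos (by linarith)
  have m1 : ∏ p ∈ pr z, (1 - (rho (B α β) p : ℝ) / p) ≤ 1 / Real.log (z + 1) := by
    have e1 : ∏ p ∈ pr z, (1 - (rho (B α β) p : ℝ) / p) = ∏ p ∈ pr z, (1 - 1 / (p : ℝ)) := by
      refine Finset.prod_congr rfl fun p hp => ?_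
      rw [hrho p hp, Nat.cast_one]
    rw [e1, le_div_iff₀ hlog]
    exact mertens z
  have hsum : ∑ p ∈ pr z, 1 / (p : ℝ) ≤ 5 + 4 * Real.log bz :=
    (Finset.sum_le_sum_of_subset_of_nonneg (pr_mono hz2)
      (fun _ _ _ => by positivity)).trans (sum_upto bz hbz)
  have m2 : ∏ p ∈ pr z, (1 + Real.exp 1 * ((rho (B α β) p : ℝ) / p)) ≤
      Real.exp (Real.exp 1 * (5 + 4 * Real.log bz)) := by
    have e1 : ∏ p ∈ pr z, (1 + Real.exp 1 * ((rho (B α β) p : ℝ) / p)) =
        ∏ p ∈ pr z, (1 + Real.exp 1 * (1 / (p : ℝ))) := by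
      refine Finset.prod_congr rfl fun p hp => ?_
      rw [hrho p hp, Nat.cast_one]
    rw [e1]
    refine (Real.prod_one_add_le_exp_sum (pr z) (fun p => by positivity)).trans ?_
    apply Real.exp_le_exp.2
    rw [← Finset.mul_sum]
    exact mul_le_mul_of_nonneg_left hsum (by positivity)
  have m3 : ∏ p ∈ pr z, (1 + (rho (B α β) p : ℝ) / z) ≤ Real.exp 2 := by
    have e1 : ∏ p ∈ pr z, (1 + (rho (B α β) p : ℝ) / z) = ∏ p ∈ pr z, (1 + 1 / (z : ℝ)) := by
      refine Finset.prod_congr rfl fun p hp => ?_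
      rw [hrho p hp, Nat.cast_one]
    rw [e1]
    refine (Real.prod_one_add_le_exp_sum (pr z) (fun p => by positivity)).trans ?_
    apply Real.exp_le_exp.2
    rw [Finset.sum_const, nsmul_eq_mul]
    have e2 : (pr z).card ≤ z + 1 := by
      refine (Finset.card_filter_le _ _).trans ?_
      rw [card_range]
    have e3 : ((pr z).card : ℝ) ≤ z + 1 := by exact_mod_cast e2
    calc ((pr z).card : ℝ) * (1 / z) ≤ (z + 1) * (1 / z) :=
          mul_le_mul_of_nonneg_right e3 (by positivity)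
      _ = 1 + 1 / z := by field_simp
      _ ≤ 1 + 1 / 1 := by
          have : 1 / (z : ℝ) ≤ 1 / 1 := div_le_div_of_nonneg_left (by norm_num) (by norm_num) hz1
          linarith
      _ = 2 := by norm_num
  have hY : (0 : ℝ) ≤ T := Nat.cast_nonneg _
  gcongr

end SV1_

open SV1_ in
theorem p_SV1 : T_SV1 := by
  refine ⟨251 + 2 * Real.exp 2, by positivity, ?_⟩
  intro n L l h T α β hT hα
  have hl := h.lpos
  have hL := h.Lpos
  have hl1 := h.one
  have hLge := h.Lge
  set y : ℝ := L / (250 * l ^ 2) with hy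
  have hl2 : 0 < l ^ 2 := by positivity
  have hy1 : 1 ≤ y := by
    rw [hy, one_le_div (by positivity)]
    have h1 := h.pow_le (k := 2) (by norm_num)
    linarith
  set z : ℕ := ⌊z1 L l⌋₊ with hz
  have hz1e : z1 L l = Real.exp y := rfl
  have hzle : (z : ℝ) ≤ Real.exp y := Nat.floor_le (Real.exp_pos _).le
  have hz2 : 2 ≤ z := by
    rw [hz, hz1e]
    apply Nat.le_floor
    have := Real.add_one_le_exp y
    push_cast
    linarith
  have hzL : y ≤ Real.log (z + 1) := by
    rw [Real.le_log_iff_exp_le (by positivity)]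
    exact (Nat.lt_floor_add_one _).le
  have hyL : y ≤ L := by
    rw [hy, div_le_iff₀ (by positivity)]
    have : 1 ≤ l ^ 2 := one_le_pow₀ hl1
    nlinarith
  have hbig := h.toBig
  set bz : ℕ := Pool.Agent.TSP.Big.bet L with hbz
  have hzb : z ≤ 2 ^ bz := by
    refine le_trans ?_ hbig.x_le
    have h1 : (z : ℝ) ≤ n := by
      rw [← h.expL]
      exact hzle.trans (Real.exp_le_exp.2 hyL)
    exact_mod_cast h1
  have hlb := hbig.log_bet
  rw [← hbz] at hlb
  set r : ℕ := ⌈30 * l⌉₊ with hr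
  have hr1 : 60 * l ≤ ((2 * r : ℕ) : ℝ) := by
    have := Nat.le_ceil (30 * l)
    push_cast
    rw [← hr] at this
    linarith
  have hr2 : ((2 * r : ℕ) : ℝ) ≤ 62 * l := by
    have := Nat.ceil_lt_add_one (show 0 ≤ 30 * l by positivity)
    push_cast
    rw [← hr] at this
    linarith
  have hmem : ∀ p : ℕ, p ≤ z ↔ (p : ℝ) ≤ z1 L l := fun p =>
    Nat.le_floor_iff (Real.exp_pos _).le
  have hs := sieve α β z r T bz hz2 (Pool.Agent.TSP.Big.bet_one L) hzb
    (fun p hp hpz => hα p hp ((hmem p).1 hpz))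
  have hcnt : cnt (Ioc 0 T) (fun t => ∀ p : ℕ, p.Prime → (p : ℝ) ≤ z1 L l →
      ¬ (p : ℤ) ∣ α * t + β) =
      cnt (Ioc 0 T) (fun t => ∀ p : ℕ, p.Prime → p ≤ z → ¬ (p : ℤ) ∣ α * t + β) := by
    congr 1
    funext t
    simp only [hmem]
  rw [hcnt]
  refine hs.trans ?_
  have hT0 : (0 : ℝ) ≤ T := Nat.cast_nonneg _
  have hlogpos : 0 < Real.log (z + 1) := by linarith
  -- first term
  have t1 : 1 / Real.log (z + 1) ≤ 250 * l ^ 2 / L := by
    calc 1 / Real.log ((z : ℝ) + 1) ≤ 1 / y :=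
          one_div_le_one_div_of_le (by linarith) hzL
      _ = 250 * l ^ 2 / L := by rw [hy, one_div_div]
  -- second term
  have t2 : Real.exp (-(2 * r : ℕ)) * Real.exp (Real.exp 1 * (5 + 4 * Real.log bz)) ≤
      l ^ 2 / L := by
    have e1 : Real.exp (-(2 * r : ℕ)) * Real.exp (Real.exp 1 * (5 + 4 * Real.log bz)) ≤
        Real.exp (-l) := by
      rw [← Real.exp_add]
      apply Real.exp_le_exp.2
      have he := Real.exp_one_lt_d9
      have he0 := Real.exp_pos 1
      have hb0 : 0 ≤ Real.log bz := Real.log_natCast_nonneg _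
      have h1 : Real.exp 1 * (5 + 4 * Real.log bz) ≤ 3 * (5 + 4 * (l + 1.1)) := by
        have h2 : 5 + 4 * Real.log bz ≤ 5 + 4 * (l + 1.1) := by linarith
        exact mul_le_mul (by linarith) h2 (by linarith) (by norm_num)
      linarith
    refine e1.trans ?_
    rw [Real.exp_neg, h.expl, le_div_iff₀ hL, inv_mul_cancel₀ hL.ne']
    exact one_le_pow₀ hl1
  -- third term
  have t3 : (z : ℝ) ^ (2 * r) * Real.exp 2 ≤ 2 * Real.exp 2 * T * (l ^ 2 / L) := by
    set E : ℝ := Real.exp (L / (2 * l)) with hE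
    have hE0 : 0 < E := Real.exp_pos _
    have e1 : (z : ℝ) ^ (2 * r) ≤ E := by
      calc (z : ℝ) ^ (2 * r) ≤ (Real.exp y) ^ (2 * r) :=
            pow_le_pow_left₀ (Nat.cast_nonneg _) hzle _
        _ = Real.exp (((2 * r : ℕ) : ℝ) * y) := by rw [Real.exp_nat_mul]
        _ ≤ E := by
            rw [hE]
            apply Real.exp_le_exp.2
            calc ((2 * r : ℕ) : ℝ) * y ≤ (62 * l) * y :=
                  mul_le_mul_of_nonneg_right hr2 (by linarith)
              _ = (62 / 250) * (L / l) := by rw [hy]; field_simp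
              _ ≤ (1 / 2) * (L / l) :=
                  mul_le_mul_of_nonneg_right (by norm_num) (by positivity)
              _ = L / (2 * l) := by field_simp
    have e2 : E * E = Real.exp (L / l) := by
      rw [hE, ← Real.exp_add]
      congr 1
      field_simp
      ring
    have e3 : L ≤ E := by
      rw [hE]
      nth_rewrite 1 [← h.expl]
      apply Real.exp_le_exp.2
      rw [le_div_iff₀ (by positivity)]
      have h1 := h.pow_le (k := 2) (by norm_num)
      nlinarith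
    have e4 : E * E ≤ 2 * T := by rw [e2]; linarith
    have e5 : E ≤ 2 * T / L := by
      rw [le_div_iff₀ hL]
      calc E * L ≤ E * E := mul_le_mul_of_nonneg_left e3 hE0.le
        _ ≤ 2 * T := e4
    have e6 : (1 : ℝ) ≤ l ^ 2 := one_le_pow₀ hl1
    calc (z : ℝ) ^ (2 * r) * Real.exp 2 ≤ E * Real.exp 2 :=
          mul_le_mul_of_nonneg_right e1 (Real.exp_pos _).le
      _ ≤ (2 * T / L) * Real.exp 2 := mul_le_mul_of_nonneg_right e5 (Real.exp_pos _).le
      _ = (2 * Real.exp 2 * T / L) * 1 := by ring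
      _ ≤ (2 * Real.exp 2 * T / L) * l ^ 2 :=
          mul_le_mul_of_nonneg_left e6 (by positivity)
      _ = 2 * Real.exp 2 * T * (l ^ 2 / L) := by ring
  calc (T : ℝ) * (1 / Real.log (z + 1))
      + T * (Real.exp (-(2 * r : ℕ)) * Real.exp (Real.exp 1 * (5 + 4 * Real.log bz)))
      + (z : ℝ) ^ (2 * r) * Real.exp 2
      ≤ T * (250 * l ^ 2 / L) + T * (l ^ 2 / L) + 2 * Real.exp 2 * T * (l ^ 2 / L) :=
        add_le_add (add_le_add (mul_le_mul_of_nonneg_left t1 hT0)
          (mul_le_mul_of_nonneg_left t2 hT0)) t3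
    _ = (251 + 2 * Real.exp 2) * T * l ^ 2 / L := by ring

end Pool.Agent.TSU
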