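import Pool.Agent.TSU.Targets

/-!
# TSU: TAS, primes in one residue class
-/

set_option autoImplicit false

open Finset

namespace Pool.Agent.TSU

namespace TAS_

/-- All members of the set are congruent. -/
theorem congr {n a s r r' : ℕ} (hs : s.Prime) (hsa : ¬ s ∣ a) (h1 : a * r < n) (h2 : s ∣ n - a * r)
    (h1' : a * r' < n) (h2' : s ∣ n - a * r') : r % s = r' % s := by
  have e1 : (s : ℤ) ∣ (n : ℤ) - a * r := by
    have := Int.natCast_dvd_natCast.2 h2
    rwa [Nat.cast_sub h1.le, Nat.cast_mul] at this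
  have e2 : (s : ℤ) ∣ (n : ℤ) - a * r' := by
    have := Int.natCast_dvd_natCast.2 h2'
    rwa [Nat.cast_sub h1'.le, Nat.cast_mul] at this
  have e3 : (s : ℤ) ∣ (a : ℤ) * ((r : ℤ) - r') := by
    have := dvd_sub e2 e1
    have e : (n : ℤ) - a * r' - (n - a * r) = a * (r - r') := by ring
    rwa [e] at this
  have hp : Prime (s : ℤ) := Nat.prime_iff_prime_int.1 hs
  rcases hp.dvd_or_dvd e3 with h | h
  · exact absurd (Int.natCast_dvd_natCast.1 h) hsa
  · have h3 : (r' : ℤ) ≡ r [ZMOD s] := (Int.modEq_iff_dvd).2 h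
    have h4 : r' ≡ r [MOD s] := (Int.natCast_modEq_iff).1 h3
    exact h4.symm

open Classical in
theorem cnt_zero {S : Finset ℕ} {P : ℕ → Prop} (h : ∀ x ∈ S, ¬ P x) : cnt S P = 0 := by
  unfold cnt
  rw [Nat.cast_eq_zero, Finset.card_eq_zero, Finset.filter_eq_empty_iff]
  exact fun x hx => h x hx

open Classical in
theorem cnt_map {S S' : Finset ℕ} {P P' : ℕ → Prop} (f : ℕ → ℕ)
    (h1 : ∀ x ∈ S, P x → f x ∈ S' ∧ P' (f x))
    (h2 : ∀ x y, P x → P y → f x = f y → x = y) : cnt S P ≤ cnt S' P' := by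
  unfold cnt
  rw [Nat.cast_le]
  apply Finset.card_le_card_of_injOn f
  · intro x hx
    rw [Finset.mem_coe, Finset.mem_filter] at hx
    rw [Finset.mem_coe, Finset.mem_filter]
    exact h1 x hx.1 hx.2
  · intro x hx y hy hxy
    rw [Finset.mem_coe, Finset.mem_filter] at hx hy
    exact h2 x y hx.2 hy.2 hxy

end TAS_

open TAS_ in
theorem p_TAS (h : T_SV1) : T_TAS := by
  obtain ⟨C, hC, h⟩ := h
  refine ⟨2 * C, by positivity, ?_⟩
  intro n L l hR a s ha hs hsa hsL has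
  have hl := hR.lpos
  have hL := hR.Lpos
  have hn := hR.n0
  have hs0 : 0 < s := hs.pos
  have ha1 : (0 : ℝ) < a := by exact_mod_cast ha
  have hs1 : (0 : ℝ) < s := by exact_mod_cast hs0
  have has0 : (0 : ℝ) < (a : ℝ) * s := by positivity
  have hasn : 0 < a * s := Nat.mul_pos ha hs0
  have h1 : Real.exp (L / l) ≤ (n : ℝ) / ((a : ℝ) * s) := by
    rw [le_div_iff₀ has0]
    calc Real.exp (L / l) * ((a : ℝ) * s) ≤ Real.exp (L / l) * Real.exp (L - L / l) := by gcongr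
      _ = Real.exp L := by rw [← Real.exp_add]; ring_nf
      _ = n := hR.expL
  have h0 : 0 < L / l := by positivity
  have h10 : (1 : ℝ) ≤ Real.exp (L / l) := Real.one_le_exp h0.le
  have h2 : (n : ℝ) / ((a : ℝ) * s) ≤ ((n / (a * s) + 1 : ℕ) : ℝ) := by
    rw [div_le_iff₀ has0]
    have h3 : n < (a * s) * (n / (a * s) + 1) := Nat.lt_mul_div_succ n hasn
    have h4 : (n : ℝ) ≤ (((a * s) * (n / (a * s) + 1) : ℕ) : ℝ) := by exact_mod_cast h3.le
    rw [Nat.cast_mul, Nat.cast_mul] at h4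
    linarith [mul_comm ((a : ℝ) * s) ((n / (a * s) + 1 : ℕ) : ℝ)]
  have h3 : ((n / (a * s) + 1 : ℕ) : ℝ) ≤ 2 * ((n : ℝ) / ((a : ℝ) * s)) := by
    have h4 : ((n / (a * s) : ℕ) : ℝ) ≤ (n : ℝ) / ((a * s : ℕ) : ℝ) := Nat.cast_div_le
    rw [Nat.cast_mul] at h4
    rw [Nat.cast_add, Nat.cast_one]
    linarith
  have hz : z1 L l ≤ Real.exp (L / l) := by
    unfold z1
    apply Real.exp_le_exp.2
    apply div_le_div_of_nonneg_left hL.le hl
    nlinarith [hR.one]
  have hrhs : 0 ≤ 2 * C * ((n : ℝ) / (a * s)) * l ^ 2 / L := by positivity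
  by_cases hne : ∃ r₁ : ℕ, r₁.Prime ∧ z1 L l < r₁ ∧ a * r₁ < n ∧ s ∣ n - a * r₁
  swap
  · have e0 : cnt (range n) (fun r => r.Prime ∧ z1 L l < r ∧ a * r < n ∧ s ∣ n - a * r) = 0 := by
      apply cnt_zero
      intro r _ hr
      exact hne ⟨r, hr⟩
    rw [e0]
    exact hrhs
  obtain ⟨r₁, -, -, hr3, hr4⟩ := hne
  have key := h n L l hR (n / (a * s) + 1) (s : ℤ) (((r₁ % s : ℕ) : ℤ) - s)
    (by
      have : Real.exp (L / l) / 2 ≤ Real.exp (L / l) := by
        have := Real.exp_pos (L / l)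
        linarith
      linarith)
    (by
      intro p hp hpz hd
      have hd' : p ∣ s := Int.natCast_dvd_natCast.1 hd
      have e : p = s := (Nat.prime_dvd_prime_iff_eq hp hs).1 hd'
      rw [e] at hpz
      linarith)
  have hcard : cnt (range n) (fun r => r.Prime ∧ z1 L l < r ∧ a * r < n ∧ s ∣ n - a * r) ≤
      cnt (Ioc 0 (n / (a * s) + 1)) (fun t => ∀ p : ℕ, p.Prime → (p : ℝ) ≤ z1 L l →
        ¬ (p : ℤ) ∣ (s : ℤ) * t + (((r₁ % s : ℕ) : ℤ) - s)) := by
    apply cnt_map (fun r => r / s + 1)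
    · rintro r - ⟨hp, hzr, har, hdr⟩
      have hcong := congr hs hsa har hdr hr3 hr4
      rw [Finset.mem_Ioc]
      refine ⟨⟨Nat.succ_pos _, Nat.succ_le_succ ?_⟩, ?_⟩
      · rw [Nat.le_div_iff_mul_le hasn]
        calc r / s * (a * s) = a * (r / s * s) := by ring
          _ ≤ a * r := Nat.mul_le_mul_left _ (Nat.div_mul_le_self r s)
          _ ≤ n := har.le
      · intro p hpp hpz hd
        have e : (s : ℤ) * ((r / s + 1 : ℕ) : ℤ) + (((r₁ % s : ℕ) : ℤ) - s) = (r : ℤ) := by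
          rw [← hcong]
          have e1 : (s : ℤ) * ((r / s : ℕ) : ℤ) + ((r % s : ℕ) : ℤ) = (r : ℤ) := by
            exact_mod_cast Nat.div_add_mod r s
          rw [Nat.cast_add, Nat.cast_one]
          linarith
        rw [e] at hd
        have hd' : p ∣ r := Int.natCast_dvd_natCast.1 hd
        have e2 : p = r := (Nat.prime_dvd_prime_iff_eq hpp hp).1 hd'
        rw [e2] at hpz
        linarith
    · intro r r' hr hr' hrr
      have hc := congr hs hsa hr.2.2.1 hr.2.2.2 hr'.2.2.1 hr'.2.2.2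
      have hq : r / s = r' / s := Nat.succ_injective hrr
      rw [← Nat.div_add_mod r s, ← Nat.div_add_mod r' s, hc, hq]
  calc cnt (range n) (fun r => r.Prime ∧ z1 L l < r ∧ a * r < n ∧ s ∣ n - a * r)
      ≤ _ := hcard
    _ ≤ C * ((n / (a * s) + 1 : ℕ) : ℝ) * l ^ 2 / L := key
    _ ≤ C * (2 * ((n : ℝ) / ((a : ℝ) * s))) * l ^ 2 / L := by gcongr
    _ = 2 * C * ((n : ℝ) / (a * s)) * l ^ 2 / L := by ring

end Pool.Agent.TSU
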