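import Pool.Agent.TSU.Targets

/-!
# TSU-TWO
-/

set_option autoImplicit false

open Finset

namespace Pool.Agent.TSU

namespace TWO_

lemma mem_prs {n : ℕ} {P : ℕ → Prop} {p : ℕ} : p ∈ prs n P ↔ p ≤ n ∧ p.Prime ∧ P p := by
  classical
  unfold prs
  simp only [mem_filter, mem_range, Nat.lt_succ_iff]

lemma term_nonneg {p : ℕ} (hp : p.Prime) : 0 ≤ Real.log p / p := by
  have h1 : (1 : ℝ) ≤ p := by exact_mod_cast hp.one_lt.le
  exact div_nonneg (Real.log_nonneg h1) (by linarith)

/-- the inner sum -/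
lemma inner {C D : ℝ} {M r : ℕ} (hC : ∀ x : ℝ, 1 ≤ x →
    ∑ p ∈ prs ⌊x⌋₊ (fun _ => True), Real.log p / p ≤ Real.log x + C)
    (hr : r.Prime) :
    (∑ s ∈ prs M (fun _ => True),
      (if (r : ℝ) * s ≤ D then Real.log r * Real.log s / (r * s) else 0)) ≤
    if (r : ℝ) ≤ D then Real.log r / r * (Real.log (D / r) + C) else 0 := by
  have hr0 : (0 : ℝ) < r := by exact_mod_cast hr.pos
  have hlr := term_nonneg hr
  split_ifs with h
  · have h1 : 1 ≤ D / r := by rwa [le_div_iff₀ hr0, one_mul]
    refine le_trans ?_ (mul_le_mul_of_nonneg_left (hC (D / r) h1) hlr)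
    rw [mul_sum, ← sum_filter]
    have h2 : ∀ s ∈ (prs M (fun _ => True)).filter (fun s : ℕ => (r : ℝ) * s ≤ D),
        Real.log r * Real.log s / (r * s) = Real.log r / r * (Real.log s / s) := by
      intro s hs
      rw [mem_filter, mem_prs] at hs
      have hs0 : (0 : ℝ) < s := by exact_mod_cast hs.1.2.1.pos
      field_simp
    rw [sum_congr rfl h2]
    apply sum_le_sum_of_subset_of_nonneg
    · intro s hs
      rw [mem_filter, mem_prs] at hs
      rw [mem_prs]
      refine ⟨?_, hs.1.2⟩
      apply Nat.le_floor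
      rw [le_div_iff₀ hr0, mul_comm]
      exact hs.2
    · intro s hs _
      rw [mem_prs] at hs
      exact mul_nonneg hlr (term_nonneg hs.2.1)
  · apply le_of_eq
    apply sum_eq_zero
    intro s hs
    rw [mem_prs] at hs
    rw [if_neg]
    intro h3
    apply h
    have hs1 : (1 : ℝ) ≤ s := by exact_mod_cast hs.2.1.one_lt.le
    nlinarith

/-- the logarithm as a number of integers -/
lemma log_count {D : ℝ} {r m : ℕ} (hr : 1 ≤ r) (hrD : (r : ℝ) ≤ D)
    (hm : Real.log D ≤ m) :
    Real.log (D / r) ≤ ∑ j ∈ range (m + 1), (if Real.log r ≤ (j : ℝ) then (1 : ℝ) else 0) := by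
  have hr0 : (0 : ℝ) < r := by exact_mod_cast hr
  have hD : 0 < D := hr0.trans_le hrD
  have hl : 0 ≤ Real.log r := Real.log_nonneg (by exact_mod_cast hr)
  have hlD : Real.log r ≤ Real.log D := Real.log_le_log hr0 hrD
  rw [Real.log_div hD.ne' hr0.ne', ← sum_filter, sum_const, nsmul_eq_mul, mul_one]
  have h1 : Icc ⌈Real.log r⌉₊ m ⊆
      (range (m + 1)).filter (fun j : ℕ => Real.log r ≤ (j : ℝ)) := by
    intro j hj
    rw [mem_Icc] at hj
    rw [mem_filter, mem_range]
    refine ⟨by omega, ?_⟩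
    exact (Nat.le_ceil _).trans (by exact_mod_cast hj.1)
  have h2 := card_le_card h1
  rw [Nat.card_Icc] at h2
  have h3 : ⌈Real.log r⌉₊ ≤ m := Nat.ceil_le.2 (hlD.trans hm)
  have h4 : (⌈Real.log r⌉₊ : ℝ) < Real.log r + 1 := Nat.ceil_lt_add_one hl
  have h5 : ((m + 1 - ⌈Real.log r⌉₊ : ℕ) : ℝ) ≤
      ((range (m + 1)).filter (fun j : ℕ => Real.log r ≤ (j : ℝ))).card := by
    exact_mod_cast h2
  rw [Nat.cast_sub (by omega)] at h5
  push_cast at h5
  linarith

lemma sum_range_id_real (m : ℕ) (C : ℝ) :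
    ∑ j ∈ range (m + 1), ((j : ℝ) + C) = (m : ℝ) * (m + 1) / 2 + C * (m + 1) := by
  induction m with
  | zero => simp
  | succ m ih =>
    rw [sum_range_succ, ih]
    push_cast
    ring

end TWO_

open TWO_ in
theorem p_TWO (h : T_MER) : T_TWO := by
  obtain ⟨C, hC0, hC⟩ := h
  have hC' : ∀ x : ℝ, 1 ≤ x →
      ∑ p ∈ prs ⌊x⌋₊ (fun _ => True), Real.log p / p ≤ Real.log x + C :=
    fun x hx => (hC x (by linarith)).2 hx
  refine ⟨2 + 2 * C + C ^ 2, by positivity, ?_⟩
  intro D M hD
  have hLD : 0 ≤ Real.log D := Real.log_nonneg hD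
  set m : ℕ := ⌊Real.log D⌋₊ + 1 with hm
  have hm1 : Real.log D ≤ m := by
    rw [hm]
    push_cast
    exact (Nat.lt_floor_add_one _).le
  have hm2 : (m : ℝ) ≤ Real.log D + 1 := by
    rw [hm]
    push_cast
    have := Nat.floor_le hLD
    linarith
  -- step 1
  have s1 : ∑ r ∈ prs M (fun _ => True), ∑ s ∈ prs M (fun _ => True),
      (if (r : ℝ) * s ≤ D then Real.log r * Real.log s / (r * s) else 0) ≤
      ∑ r ∈ prs ⌊D⌋₊ (fun _ => True), Real.log r / r * (Real.log (D / r) + C) := by
    calc _ ≤ ∑ r ∈ prs M (fun _ => True),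
        (if (r : ℝ) ≤ D then Real.log r / r * (Real.log (D / r) + C) else 0) := by
          apply sum_le_sum
          intro r hr
          rw [mem_prs] at hr
          exact inner hC' hr.2.1
      _ ≤ _ := by
          rw [← sum_filter]
          apply sum_le_sum_of_subset_of_nonneg
          · intro r hr
            rw [mem_filter, mem_prs] at hr
            rw [mem_prs]
            exact ⟨Nat.le_floor hr.2, hr.1.2⟩
          · intro r hr _
            rw [mem_prs] at hr
            have hr0 : (0 : ℝ) < r := by exact_mod_cast hr.2.1.pos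
            have h1 : (r : ℝ) ≤ D := (Nat.le_floor_iff (by linarith)).1 hr.1
            apply mul_nonneg (term_nonneg hr.2.1)
            apply add_nonneg _ hC0
            apply Real.log_nonneg
            rwa [le_div_iff₀ hr0, one_mul]
  -- step 2
  have s2 : ∑ r ∈ prs ⌊D⌋₊ (fun _ => True), Real.log r / r * (Real.log (D / r) + C) =
      ∑ r ∈ prs ⌊D⌋₊ (fun _ => True), Real.log r / r * Real.log (D / r) +
      C * ∑ r ∈ prs ⌊D⌋₊ (fun _ => True), Real.log r / r := by
    rw [mul_sum, ← sum_add_distrib]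
    apply sum_congr rfl
    intro r _
    ring
  have s3 : C * ∑ r ∈ prs ⌊D⌋₊ (fun _ => True), Real.log r / r ≤ C * (Real.log D + C) :=
    mul_le_mul_of_nonneg_left (hC' D hD) hC0
  -- step 3
  have s4 : ∑ r ∈ prs ⌊D⌋₊ (fun _ => True), Real.log r / r * Real.log (D / r) ≤
      ∑ j ∈ range (m + 1), ((j : ℝ) + C) := by
    calc _ ≤ ∑ r ∈ prs ⌊D⌋₊ (fun _ => True), ∑ j ∈ range (m + 1),
        (if Real.log r ≤ (j : ℝ) then Real.log r / r else 0) := by
          apply sum_le_sum
          intro r hr
          rw [mem_prs] at hr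
          have h1 : (r : ℝ) ≤ D := (Nat.le_floor_iff (by linarith)).1 hr.1
          have h2 := log_count hr.2.1.one_lt.le h1 hm1
          have h3 := mul_le_mul_of_nonneg_left h2 (term_nonneg hr.2.1)
          refine h3.trans (le_of_eq ?_)
          rw [mul_sum]
          apply sum_congr rfl
          intro j _
          split_ifs <;> simp
      _ = ∑ j ∈ range (m + 1), ∑ r ∈ prs ⌊D⌋₊ (fun _ => True),
        (if Real.log r ≤ (j : ℝ) then Real.log r / r else 0) := sum_comm
      _ ≤ _ := by
          apply sum_le_sum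
          intro j _
          have h1 : (1 : ℝ) ≤ Real.exp j := Real.one_le_exp (Nat.cast_nonneg j)
          have h2 := hC' (Real.exp j) h1
          rw [Real.log_exp] at h2
          refine le_trans ?_ h2
          rw [← sum_filter]
          apply sum_le_sum_of_subset_of_nonneg
          · intro r hr
            rw [mem_filter, mem_prs] at hr
            rw [mem_prs]
            refine ⟨?_, hr.1.2⟩
            apply Nat.le_floor
            have hr0 : (0 : ℝ) < r := by exact_mod_cast hr.1.2.1.pos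
            rw [← Real.exp_log hr0]
            exact Real.exp_le_exp.2 hr.2
          · intro r hr _
            rw [mem_prs] at hr
            exact term_nonneg hr.2.1
  rw [sum_range_id_real] at s4
  have h6 : (m : ℝ) * (m + 1) / 2 ≤ (Real.log D + 1) * (Real.log D + 2) / 2 := by
    have hm0 : (0 : ℝ) ≤ m := Nat.cast_nonneg m
    have : (m : ℝ) * (m + 1) ≤ (Real.log D + 1) * (Real.log D + 2) := by
      apply mul_le_mul hm2 (by linarith) (by linarith) (by linarith)
    linarith
  have h7 : C * ((m : ℝ) + 1) ≤ C * (Real.log D + 2) :=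
    mul_le_mul_of_nonneg_left (by linarith) hC0
  nlinarith [mul_nonneg hC0 hLD, mul_nonneg (mul_nonneg hC0 hC0) hLD, sq_nonneg C]

end Pool.Agent.TSU
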