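import Pool.Agent.TSU.Targets

/-!
# The sum of `1/s` over a short window of primes
-/

set_option autoImplicit false

open Finset

namespace Pool.Agent.TSU

namespace WIN_

theorem mem_prs {n : ℕ} {P : ℕ → Prop} {s : ℕ} : s ∈ prs n P ↔ s ≤ n ∧ s.Prime ∧ P s := by
  simp only [prs, Finset.mem_filter, Finset.mem_range, Nat.lt_succ_iff]

theorem prs_mono {m n : ℕ} (h : m ≤ n) : prs m (fun _ => True) ⊆ prs n (fun _ => True) := by
  intro s hs
  rw [mem_prs] at hs ⊢
  exact ⟨hs.1.trans h, hs.2⟩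

/-- The final numerical estimate. -/
theorem arith {L l C : ℝ} (hl : 1 ≤ l) (hL : l ^ 6 ≤ L) (hC : 0 ≤ C) :
    l / L * (2 * l + 2 * (L / l ^ 4) + 2 * C) ≤ (4 + 2 * C) / l ^ 3 := by
  have hl0 : 0 < l := by linarith
  have hL0 : 0 < L := lt_of_lt_of_le (by positivity) hL
  rw [le_div_iff₀ (by positivity)]
  have h5 : l ^ 5 ≤ L := (pow_le_pow_right₀ hl (by norm_num)).trans hL
  have h4 : l ^ 4 ≤ L := (pow_le_pow_right₀ hl (by norm_num)).trans hL
  have e : l / L * (2 * l + 2 * (L / l ^ 4) + 2 * C) * l ^ 3 =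
      2 * (l ^ 5 / L) + 2 + 2 * C * (l ^ 4 / L) := by
    field_simp
  rw [e]
  have h5' : l ^ 5 / L ≤ 1 := (div_le_one hL0).2 h5
  have h4' : l ^ 4 / L ≤ 1 := (div_le_one hL0).2 h4
  have h6 : 2 * C * (l ^ 4 / L) ≤ 2 * C * 1 := mul_le_mul_of_nonneg_left h4' (by linarith)
  linarith

end WIN_

open WIN_

theorem p_WIN (h : T_MER) : T_WIN := by
  obtain ⟨C, hC, hM⟩ := h
  refine ⟨4 + 2 * C, by linarith, ?_⟩
  intro n L l hR a ha
  have hL := hR.Lpos
  have hl := hR.lpos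
  have ha' : (1 : ℝ) ≤ a := by exact_mod_cast ha
  have ha0 : (0 : ℝ) < a := by linarith
  set E : ℝ := L / l ^ 4 with hE
  have hE0 : 0 < E := by positivity
  set u : ℝ := a * Real.exp (-E) with hu
  set v : ℝ := a * L ^ 2 * Real.exp E with hv
  have hu0 : 0 < u := by positivity
  have hL1 : (1 : ℝ) ≤ L ^ 2 := one_le_pow₀ (by linarith [hR.Lge])
  have hv1 : 1 ≤ v := by
    have h1 : 1 ≤ Real.exp E := Real.one_le_exp hE0.le
    have h2 : 1 ≤ (a : ℝ) * L ^ 2 := one_le_mul_of_one_le_of_one_le ha' hL1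
    exact one_le_mul_of_one_le_of_one_le h2 h1
  have huv : u ≤ v := by
    have h1 : Real.exp (-E) ≤ Real.exp E := Real.exp_le_exp.2 (by linarith)
    calc u = a * 1 * Real.exp (-E) := by rw [hu]; ring
      _ ≤ a * L ^ 2 * Real.exp E := by gcongr
  have hlogu : Real.log u = Real.log a - E := by
    rw [hu, Real.log_mul (by positivity) (Real.exp_pos _).ne', Real.log_exp]
    ring
  have hlogv : Real.log v = Real.log a + 2 * l + E := by
    rw [hv, Real.log_mul (by positivity) (Real.exp_pos _).ne', Real.log_exp,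
      Real.log_mul (by positivity) (by positivity), Real.log_pow, ← hR.hl]
    push_cast
    ring
  obtain ⟨hu1, -⟩ := hM u hu0
  have hv2 := (hM v (by linarith)).2 hv1
  set S := prs n (fun s => Real.exp (L / l) < s ∧ u < s ∧ (s : ℝ) ≤ v) with hS
  have hterm : ∀ s ∈ S, 1 / (s : ℝ) ≤ l / L * (Real.log s / s) := by
    intro s hs
    rw [hS, mem_prs] at hs
    obtain ⟨-, hp, h1, -, -⟩ := hs
    have hs0 : (0 : ℝ) < s := by exact_mod_cast hp.pos
    have h2 : L / l ≤ Real.log s := by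
      rw [Real.le_log_iff_exp_le hs0]
      exact h1.le
    have h3 : 1 ≤ l / L * Real.log s := by
      have h4 : l / L * (L / l) = 1 := by field_simp
      rw [← h4]
      exact mul_le_mul_of_nonneg_left h2 (by positivity)
    calc 1 / (s : ℝ) ≤ (l / L * Real.log s) / s := by gcongr
      _ = l / L * (Real.log s / s) := by ring
  have hsub : S ⊆ prs ⌊v⌋₊ (fun _ => True) \ prs ⌊u⌋₊ (fun _ => True) := by
    intro s hs
    rw [hS, mem_prs] at hs
    obtain ⟨-, hp, -, h1, h2⟩ := hs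
    rw [Finset.mem_sdiff, mem_prs, mem_prs]
    refine ⟨⟨Nat.le_floor h2, hp, trivial⟩, ?_⟩
    rintro ⟨h3, -⟩
    have h4 : (s : ℝ) ≤ u := (Nat.le_floor_iff hu0.le).1 h3
    linarith
  have hpos : ∀ s : ℕ, 0 ≤ Real.log s / (s : ℝ) := fun s =>
    div_nonneg (Real.log_natCast_nonneg s) (Nat.cast_nonneg s)
  have hsum : ∑ s ∈ S, Real.log s / (s : ℝ) ≤ 2 * l + 2 * E + 2 * C := by
    have h1 : ∑ s ∈ S, Real.log s / (s : ℝ) ≤
        ∑ s ∈ prs ⌊v⌋₊ (fun _ => True) \ prs ⌊u⌋₊ (fun _ => True), Real.log s / (s : ℝ) :=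
      Finset.sum_le_sum_of_subset_of_nonneg hsub fun s _ _ => hpos s
    have h2 := Finset.sum_sdiff (f := fun s : ℕ => Real.log s / (s : ℝ))
      (prs_mono (Nat.floor_le_floor huv))
    linarith
  calc ∑ s ∈ S, 1 / (s : ℝ) ≤ ∑ s ∈ S, l / L * (Real.log s / s) := Finset.sum_le_sum hterm
    _ = l / L * ∑ s ∈ S, Real.log s / (s : ℝ) := by rw [Finset.mul_sum]
    _ ≤ l / L * (2 * l + 2 * E + 2 * C) := mul_le_mul_of_nonneg_left hsum (by positivity)
    _ ≤ (4 + 2 * C) / l ^ 3 := by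
      refine arith hR.one ?_ hC
      have h1 := hR.big
      have h2 : 0 ≤ l ^ 6 := by positivity
      linarith

end Pool.Agent.TSU
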