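import Pool.Agent.TSU.P_REG
import Pool.Agent.TSU.P_MER
import Pool.Agent.TSU.P_SV3
import Pool.Agent.TSU.P_SVP
import Pool.Agent.TSU.P_RHO3
import Pool.Agent.TSU.P_CLS
import Pool.Agent.TSU.P_FNS
import Pool.Agent.TSU.P_GSM
import Pool.Agent.TSU.P_RAD
import Pool.Agent.TSU.P_DEG
import Pool.Agent.TSU.P_SQF
import Pool.Agent.TSU.P_GOOD
import Pool.Agent.TSU.P_PPW
import Pool.Agent.TSU.P_TWO
import Pool.Agent.TSU.P_CRT
import Pool.Agent.TSU.P_LOW
import Pool.Agent.TSU.P_SML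
import Pool.Agent.TSU.P_MID
import Pool.Agent.TSU.P_SV1
import Pool.Agent.TSU.P_TAS
import Pool.Agent.TSU.P_WIN
import Pool.Agent.TSU.P_CNT
import Pool.Agent.TSU.P_HIG
import Pool.Agent.TSU.P_STR
import Pool.Agent.TSU.P_BAD
import Pool.Agent.TSU.P_FIN

set_option autoImplicit false

/-!
# TSU: assembly
-/

namespace Pool.Agent.TSU

theorem fin_all : T_FIN := by
  have svp := p_SVP p_SV3
  have cls := p_CLS svp p_RHO3
  have fns := p_FNS
  have good := p_GOOD cls (p_GSM fns) p_RAD (p_DEG fns) p_SQF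
  have mer := p_MER
  have low := p_LOW (p_TWO mer) p_CRT
  have hig := p_HIG (p_CNT (p_TAS p_SV1) (p_WIN mer))
  have str := p_STR (p_SML mer) (p_MID mer) hig
  have bad := p_BAD (p_PPW mer) low str
  exact p_FIN p_REG good bad

end Pool.Agent.TSU
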