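import Mathlib
import Pool.Agent.TSP.Params
import Pool.Agent.ACP.Targets

/-!
# TSU: the number of `k` with `q(n,k)` prime, for EVERY large `n` (MP_61a569_nt): definitions
-/

set_option autoImplicit false

open Finset

namespace Pool.Agent.TSU

/-- `q(n,k) = φ(k) + φ(n-k)/2 + 1` -/
def qq (n k : ℕ) : ℕ := k.totient + (n - k).totient / 2 + 1

/-- the size conditions: `L = log n`, `l = log log n` -/
structure Reg (n : ℕ) (L l : ℝ) : Prop where
  hL : L = Real.log n
  hl : l = Real.log L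
  one : 1 ≤ l
  big : 10 ^ 6 * l ^ 6 ≤ L

namespace Reg

variable {n : ℕ} {L l : ℝ}

lemma lpos (h : Reg n L l) : 0 < l := by have := h.one; linarith

lemma Lge (h : Reg n L l) : 10 ^ 6 ≤ L := by
  have h1 := h.big
  have h2 : 1 ≤ l ^ 6 := one_le_pow₀ h.one
  linarith

lemma Lpos (h : Reg n L l) : 0 < L := by have := h.Lge; linarith

lemma expl (h : Reg n L l) : Real.exp l = L := by rw [h.hl, Real.exp_log h.Lpos]

lemma n0 (h : Reg n L l) : (0 : ℝ) < n := by
  by_contra hx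
  have h1 : (n : ℝ) = 0 := le_antisymm (not_lt.1 hx) (Nat.cast_nonneg _)
  have h2 := h.hL
  rw [h1, Real.log_zero] at h2
  have := h.Lpos
  linarith

lemma expL (h : Reg n L l) : Real.exp L = n := by rw [h.hL, Real.exp_log h.n0]

lemma toBig (h : Reg n L l) : Pool.Agent.TSP.Big n L l := by
  refine ⟨h.hL, h.hl, h.one, ?_⟩
  have h1 : l ^ 2 ≤ l ^ 6 := pow_le_pow_right₀ h.one (by norm_num)
  have h2 := h.big
  have h3 : 0 ≤ l ^ 6 := by have := h.lpos; positivity
  nlinarith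

/-- `L = exp l` is larger than powers of `l` times `10 ^ 6` -/
lemma pow_le (h : Reg n L l) {k : ℕ} (hk : k ≤ 6) : 10 ^ 6 * l ^ k ≤ L := by
  have h1 : l ^ k ≤ l ^ 6 := pow_le_pow_right₀ h.one hk
  have h2 := h.big
  nlinarith

/-- `L ^ m ≤ exp (L / l ^ 4)` for `m ≤ 1000` -/
lemma pow_le_yv (h : Reg n L l) {m : ℕ} (hm : m ≤ 1000) : L ^ m ≤ Real.exp (L / l ^ 4) := by
  have hl := h.lpos
  have h1 : L ^ m = Real.exp (m * l) := by
    rw [← h.expl, ← Real.exp_nat_mul]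
  rw [h1]
  apply Real.exp_le_exp.2
  rw [le_div_iff₀ (by positivity)]
  have h2 := h.pow_le (k := 5) (by norm_num)
  have h3 : (m : ℝ) ≤ 10 ^ 6 := by
    have : (m : ℝ) ≤ 1000 := by exact_mod_cast hm
    linarith
  calc (m : ℝ) * l * l ^ 4 = m * l ^ 5 := by ring
    _ ≤ 10 ^ 6 * l ^ 5 := by gcongr
    _ ≤ L := h2

end Reg

/-- `n^(1/(log log n)^4)`, as a real number -/
noncomputable def yv (L l : ℝ) : ℝ := Real.exp (L / l ^ 4)

/-- the sifting limit for three forms -/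
noncomputable def z3 (L l : ℝ) : ℝ := Real.exp (L / (250 * l ^ 5))

/-- the sifting limit for one form -/
noncomputable def z1 (L l : ℝ) : ℝ := Real.exp (L / (250 * l ^ 2))

/-- `p` divides one of three linear forms -/
def Bad3 (α₁ β₁ α₂ β₂ α₃ β₃ : ℤ) (p t : ℕ) : Prop :=
  (p : ℤ) ∣ α₁ * t + β₁ ∨ (p : ℤ) ∣ α₂ * t + β₂ ∨ (p : ℤ) ∣ α₃ * t + β₃

open Classical in
/-- the `k = a r` with `n - k = b s`, `r`, `s` large primes, `q(n,k)` prime -/
noncomputable def KK (n : ℕ) (L l : ℝ) (a b : ℕ) : Finset ℕ :=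
  (range n).filter fun k => 0 < k ∧ (qq n k).Prime ∧ ∃ r s : ℕ, r.Prime ∧ s.Prime ∧
    yv L l ≤ r ∧ yv L l ≤ s ∧ k = a * r ∧ n - k = b * s ∧ ¬ r ∣ a ∧ ¬ s ∣ b

open Classical in
/-- the `k` with `q(n,k)` prime and a pair of primes `r ∣ k`, `s ∣ n - k` with `rs` a little above
`n` -/
noncomputable def good (n : ℕ) (L l : ℝ) : Finset ℕ :=
  (range n).filter fun k => 0 < k ∧ (qq n k).Prime ∧ ∃ r s : ℕ, r.Prime ∧ s.Prime ∧
    r ∣ k ∧ s ∣ n - k ∧ Real.exp (L + L / l ^ 4) ≤ (r : ℝ) * s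

open Classical in
/-- the `k` without such a pair -/
noncomputable def bad (n : ℕ) (L l : ℝ) : Finset ℕ :=
  (range n).filter fun k => 0 < k ∧ ∀ r s : ℕ, r.Prime → s.Prime →
    r ∣ k → s ∣ n - k → (r : ℝ) * s < Real.exp (L + L / l ^ 4)

/-- the sum of `log p` over the prime divisors `p` of `k` -/
noncomputable def om (k : ℕ) : ℝ := ∑ p ∈ k.primeFactors, Real.log p

open Classical in
/-- the sum of `log r log s` over the primes `r ∣ k`, `s ∣ m` with `P r s` -/
noncomputable def ws (P : ℕ → ℕ → Prop) (k m : ℕ) : ℝ :=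
  ∑ r ∈ k.primeFactors, ∑ s ∈ m.primeFactors, if P r s then Real.log r * Real.log s else 0

/-- the sum of `ws P k (n - k)` over `0 < k < n` -/
noncomputable def wsum (P : ℕ → ℕ → Prop) (n : ℕ) : ℝ := ∑ k ∈ Ico 1 n, ws P k (n - k)

open Classical in
/-- the primes up to `n` satisfying `P` -/
noncomputable def prs (n : ℕ) (P : ℕ → Prop) : Finset ℕ :=
  (range (n + 1)).filter fun p => p.Prime ∧ P p

open Classical in
/-- the number of the elements of `S` satisfying `P` -/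
noncomputable def cnt (S : Finset ℕ) (P : ℕ → Prop) : ℝ := ((S.filter P).card : ℝ)

end Pool.Agent.TSU
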