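import Pool.Agent.TSU.Targets

/-!
# TSU: proof of T_SML (pairs with a small prime `s`)
-/

set_option autoImplicit false

open Finset

namespace Pool.Agent.TSU

namespace SML_

lemma mem_prs {n p : ℕ} {P : ℕ → Prop} : p ∈ prs n P ↔ p ≤ n ∧ p.Prime ∧ P p := by
  classical
  unfold prs
  rw [mem_filter, mem_range, Nat.lt_succ_iff]

lemma om_le {k : ℕ} (hk : 0 < k) : ∑ p ∈ k.primeFactors, Real.log p ≤ Real.log k := by
  rw [← Real.log_prod (fun p hp => by
    have := (Nat.prime_of_mem_primeFactors hp).pos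
    positivity)]
  have h := Nat.le_of_dvd hk (Nat.prod_primeFactors_dvd k)
  have hpos : 0 < ∏ p ∈ k.primeFactors, p :=
    Finset.prod_pos fun p hp => (Nat.prime_of_mem_primeFactors hp).pos
  rw [← Nat.cast_prod]
  apply Real.log_le_log
  · exact_mod_cast hpos
  · exact_mod_cast h

/-- the inner sum -/
lemma inner_le {m : ℕ} {E c : ℝ} (hc : 0 ≤ c) (P : ℕ → Prop) [DecidablePred P]
    (hP : ∀ s : ℕ, P s → (s : ℝ) ≤ E) :
    ∑ s ∈ m.primeFactors, (if P s then c * Real.log s else 0) ≤
      c * ∑ s ∈ prs ⌊E⌋₊ (fun _ => True), if s ∣ m then Real.log s else 0 := by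
  rw [← sum_filter, ← mul_sum, ← sum_filter]
  apply mul_le_mul_of_nonneg_left _ hc
  apply sum_le_sum_of_subset_of_nonneg
  · intro s hs
    rw [mem_filter] at hs
    rw [mem_filter, mem_prs]
    have h1 := Nat.prime_of_mem_primeFactors hs.1
    exact ⟨⟨Nat.le_floor (hP s hs.2), h1, trivial⟩, Nat.dvd_of_mem_primeFactors hs.1⟩
  · intro s _ _
    exact Real.log_natCast_nonneg s

/-- the number of the multiples -/
lemma card_le (n s : ℕ) (hs : 0 < s) :
    (((Ico 1 n).filter fun k => s ∣ n - k).card : ℝ) ≤ n / s := by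
  have h1 : ((Ico 1 n).filter fun k => s ∣ n - k).card ≤ (Icc 1 (n / s)).card := by
    apply card_le_card_of_injOn (fun k => (n - k) / s)
    · intro k hk
      rw [mem_coe, mem_filter, mem_Ico] at hk
      obtain ⟨⟨h1, h2⟩, c, hc⟩ := hk
      have h3 : (n - k) / s = c := by rw [hc, Nat.mul_div_cancel_left _ hs]
      have h4 : c ≤ n / s := by
        rw [Nat.le_div_iff_mul_le hs, mul_comm, ← hc]
        omega
      have h5 : 0 < c := by
        rcases Nat.eq_zero_or_pos c with h | h
        · rw [h, mul_zero] at hc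
          omega
        · exact h
      rw [mem_coe, mem_Icc]
      simp only [h3]
      exact ⟨h5, h4⟩
    · intro k hk k' hk' h
      rw [mem_coe, mem_filter, mem_Ico] at hk hk'
      have h1 := Nat.mul_div_cancel' hk.2
      have h2 := Nat.mul_div_cancel' hk'.2
      simp only at h
      rw [h, h2] at h1
      omega
  rw [Nat.card_Icc, Nat.add_sub_cancel] at h1
  calc (((Ico 1 n).filter fun k => s ∣ n - k).card : ℝ) ≤ ((n / s : ℕ) : ℝ) := by
        exact_mod_cast h1
    _ ≤ n / s := Nat.cast_div_le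

/-- exchange of the sums -/
lemma sum_le (n M : ℕ) :
    ∑ k ∈ Ico 1 n, ∑ s ∈ prs M (fun _ => True), (if s ∣ n - k then Real.log s else 0) ≤
      n * ∑ s ∈ prs M (fun _ => True), Real.log s / s := by
  rw [sum_comm, mul_sum]
  apply sum_le_sum
  intro s hs
  rw [mem_prs] at hs
  rw [← sum_filter, sum_const, nsmul_eq_mul]
  have h1 := card_le n s hs.2.1.pos
  have h2 := Real.log_natCast_nonneg s
  calc (((Ico 1 n).filter fun k => s ∣ n - k).card : ℝ) * Real.log s ≤
        (n / s) * Real.log s := mul_le_mul_of_nonneg_right h1 h2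
    _ = n * (Real.log s / s) := by ring

end SML_

open SML_ in
theorem p_SML (h : T_MER) : T_SML := by
  obtain ⟨C, hC, hM⟩ := h
  refine ⟨1 + C, by linarith, ?_⟩
  intro n L l hR
  have hL := hR.Lpos
  have hl := hR.lpos
  have hE1 : (1 : ℝ) ≤ Real.exp (L / l) := Real.one_le_exp (by positivity)
  have h1 : wsum (fun _ s => (s : ℝ) ≤ Real.exp (L / l)) n ≤
      ∑ k ∈ Ico 1 n, L * ∑ s ∈ prs ⌊Real.exp (L / l)⌋₊ (fun _ => True),
        (if s ∣ n - k then Real.log s else 0) := by
    unfold wsum
    apply sum_le_sum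
    intro k hk
    rw [mem_Ico] at hk
    unfold ws
    have hA : (0 : ℝ) ≤ ∑ s ∈ prs ⌊Real.exp (L / l)⌋₊ (fun _ => True),
        (if s ∣ n - k then Real.log s else 0) := by
      apply sum_nonneg
      intro s _
      split_ifs
      · exact Real.log_natCast_nonneg s
      · exact le_rfl
    calc _ ≤ ∑ r ∈ k.primeFactors, Real.log r *
          ∑ s ∈ prs ⌊Real.exp (L / l)⌋₊ (fun _ => True),
            (if s ∣ n - k then Real.log s else 0) := by
          apply sum_le_sum
          intro r _
          exact inner_le (Real.log_natCast_nonneg r) _ fun s hs => hs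
      _ = (∑ r ∈ k.primeFactors, Real.log r) *
          ∑ s ∈ prs ⌊Real.exp (L / l)⌋₊ (fun _ => True),
            (if s ∣ n - k then Real.log s else 0) := by rw [sum_mul]
      _ ≤ _ := by
          apply mul_le_mul_of_nonneg_right _ hA
          refine (om_le (by omega)).trans ?_
          rw [hR.hL]
          apply Real.log_le_log
          · exact_mod_cast (by omega : 0 < k)
          · exact_mod_cast (by omega : k ≤ n)
  rw [← mul_sum] at h1
  have h2 := sum_le n ⌊Real.exp (L / l)⌋₊
  have h3 := (hM _ (Real.exp_pos (L / l))).2 hE1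
  rw [Real.log_exp] at h3
  have h4 : l ≤ L := by
    have := hR.pow_le (k := 1) (by norm_num)
    rw [pow_one] at this
    linarith
  have h5 : 1 ≤ L / l := by
    rw [le_div_iff₀ hl]
    linarith
  have hn : (0 : ℝ) ≤ n := Nat.cast_nonneg n
  calc wsum (fun _ s => (s : ℝ) ≤ Real.exp (L / l)) n ≤ _ := h1
    _ ≤ L * (n * (L / l + C)) := by
        apply mul_le_mul_of_nonneg_left _ hL.le
        exact h2.trans (mul_le_mul_of_nonneg_left h3 hn)
    _ ≤ L * (n * (L / l + C * (L / l))) := by
        apply mul_le_mul_of_nonneg_left _ hL.le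
        apply mul_le_mul_of_nonneg_left _ hn
        have : C * 1 ≤ C * (L / l) := mul_le_mul_of_nonneg_left h5 hC
        linarith
    _ = (1 + C) * n * L ^ 2 / l := by ring

end Pool.Agent.TSU
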