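import Pool.Agent.TSU.Defs

/-!
# TSU: targets (MP_61a569_nt)

For EVERY large `n` at most `(1/2 + o(1)) n` of the `k` make `q(n,k) = φ(k) + φ(n-k)/2 + 1` prime.
Each target `T_X` is to be proved in `Pool/Agent/TSU/P_X.lean` as `theorem p_X : T_X`, or with other
targets as hypotheses, `theorem p_X (h : T_Y) : T_X`, exactly as said in its docstring.
Everywhere `L = log n`, `l = log log n`, `Reg n L l` (so `L ≥ 10^6 l^6`, `l ≥ 1`; lemmas in Defs: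
`Reg.pow_le_yv : L ^ m ≤ exp (L / l ^ 4)` for `m ≤ 1000`, `Reg.pow_le`, `Reg.expL`, `Reg.expl`,
`Reg.toBig`).
-/

set_option autoImplicit false

open Finset

namespace Pool.Agent.TSU

open Pool.Agent.TSP (Per rho)
open Pool.Agent.Cyclic (pr)

/-- REG. PROOF. `log n → ∞`, `log log n → ∞`, and `10^6 (log x)^6 ≤ x` for large `x = log n`
(`Real.isLittleO_pow_log_id_atTop` or `isLittleO_log_rpow_atTop`). -/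
def T_REG : Prop := ∀ K : ℝ, ∃ n0 : ℕ, ∀ n : ℕ, n0 ≤ n →
  Reg n (Real.log n) (Real.log (Real.log n)) ∧ K ≤ Real.log (Real.log n)

/-- MER. Both halves of the first theorem of Mertens for real `x`. PROOF.
`Pool.Agent.ACP.p_M1` (file Pool/Agent/ACP/P_M1.lean) is `|∑_{p ≤ m} log p / p - log m| ≤ C` for
naturals `m ≥ 1` (there `pr m` is the set of the primes in `Icc 1 m`). For `x ≥ 1` put `m = ⌊x⌋₊`: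
`log m ≤ log x ≤ log m + log 2` (`x < m + 1 ≤ 2m`). For `0 < x < 1` the sum is empty and
`log x < 0`. -/
def T_MER : Prop := ∃ C : ℝ, 0 ≤ C ∧ ∀ x : ℝ, 0 < x →
  Real.log x - C ≤ ∑ p ∈ prs ⌊x⌋₊ (fun _ => True), Real.log p / p ∧
  (1 ≤ x → ∑ p ∈ prs ⌊x⌋₊ (fun _ => True), Real.log p / p ≤ Real.log x + C)

/-! ## Part A: the `k` with a large pair of primes -/

/-- SV3. PROOF. Copy the proof of `Pool.Agent.TSP.sieve2` (Pool/Agent/TSP/Two.lean) with `2` replaced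
by `3`: `Pool.Agent.TSP.brun` for `P = (pr z).filter (¬ · ∣ N)`, `rho = 3` on `P`, `w = z`. All
`p ∈ P` are `≥ 3` since `2 ∣ N`, so `1 - 3/p ≥ 0` and `1 - 3/p ≤ (1 - 1/p)^3`
(`one_add_mul_le_pow`, Bernoulli). Then `∏_P (1 - 1/p) ≤ exp(2(9 + 4 log c))/log(z+1)` by
`Pool.Agent.TSP.mertens` and `Pool.Agent.TSP.prodH` as there; `∏ (1 + 3e/p) ≤ exp(3e(5 + 4 log bz))`;
`∏ (1 + 3/z) ≤ exp((z+1)·3/z) ≤ exp 6`. -/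
def T_SV3 : Prop := ∀ (bd : ℕ → ℕ → Prop), Per bd → ∀ (N z r T c bz : ℕ), N ≠ 0 → 2 ∣ N →
  2 ≤ z → 1 ≤ c → 1 ≤ bz → z ≤ 2 ^ bz → N.primeFactors.card ≤ 4 * 2 ^ c →
  (∀ p : ℕ, p.Prime → p ≤ z → ¬ p ∣ N → rho bd p = 3) →
  cnt (Ioc 0 T) (fun t => ∀ p : ℕ, p.Prime → p ≤ z → ¬ p ∣ N → ¬ bd p t) ≤
    (T : ℝ) * (Real.exp (2 * (9 + 4 * Real.log c)) / Real.log (z + 1)) ^ 3
      + T * (Real.exp (-(2 * r : ℕ)) * Real.exp (3 * Real.exp 1 * (5 + 4 * Real.log bz)))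
      + (z : ℝ) ^ (2 * r) * Real.exp 6

/-- SVP (`theorem p_SVP (h : T_SV3) : T_SVP`). PROOF. `z = ⌊z3 L l⌋₊ ≥ 2` (`z3 ≥ exp 4000`),
`log (z + 1) ≥ log (z3) = L/(250 l^5)`. `c`: `2^card ≤ N ≤ n^40` (`Pool.Agent.TSP.two_pow_card_le`)
gives `card ≤ 40 L/log 2 ≤ 58 L`; take `c = ⌈7 l⌉₊`: `4·2^c ≥ 4·exp(0.69·7 l) ≥ 58 exp l = 58 L`
(`exp (3.83 l) ≥ exp 3.83 ≥ 14.5`), `c ≤ 8 l`, so `exp(2(9 + 4 log c)) = e^18 c^8 ≤ e^18 (8 l)^8`; the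
cube of the quotient is `≤ C l^39/L^3`. `bz = Pool.Agent.TSP.Big.bet L`, `z ≤ n ≤ 2^bz`
(`Big.x_le`), `log bz ≤ l + 1.1` (`Big.log_bet`). `r = ⌈60 l⌉₊`: `3e(5 + 4(l+1.1)) ≤ 77 + 33 l`
(`e < 2.7183`) and `2 r ≥ 120 l ≥ 77 + 33 l + 3 l`, so the second term is `≤ T exp(-3 l) = T/L^3`.
`z^(2r) ≤ exp(122 l L/(250 l^5)) ≤ exp(L/(2 l^4))`, and `exp(L/(2 l^4)) = yv^(1/2)`; since
`T ≥ yv/2` the third term is `≤ 2 e^6 T yv^(-1/2) ≤ 2 e^6 T/L^3` (`yv ≥ L^6`). -/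
def T_SVP : Prop := ∃ C : ℝ, 0 < C ∧ ∀ (n : ℕ) (L l : ℝ), Reg n L l →
  ∀ (bd : ℕ → ℕ → Prop), Per bd → ∀ (N T : ℕ), N ≠ 0 → 2 ∣ N → N ≤ n ^ 40 → yv L l / 2 ≤ T →
  (∀ p : ℕ, p.Prime → ¬ p ∣ N → rho bd p = 3) →
  cnt (Ioc 0 T) (fun t => ∀ p : ℕ, p.Prime → (p : ℝ) ≤ z3 L l → ¬ p ∣ N → ¬ bd p t) ≤
    C * T * l ^ 39 / L ^ 3

/-- RHO3. PROOF. `Per`: `(p:ℤ) ∣ α (t % p) + β ↔ (p:ℤ) ∣ α t + β`. For `p` not dividing the product,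
in the field `ZMod p` the three roots `-βᵢ/αᵢ` are defined and different, so exactly three `t < p`
are bad (compare `Pool.Agent.TSP.rho_B2`: image of `{x₁, x₂, x₃}` under `ZMod.val`). -/
def T_RHO3 : Prop := ∀ α₁ β₁ α₂ β₂ α₃ β₃ : ℤ, Per (Bad3 α₁ β₁ α₂ β₂ α₃ β₃) ∧
  ∀ p : ℕ, p.Prime → ¬ (p : ℤ) ∣ α₁ * α₂ * α₃ * (α₁ * β₂ - α₂ * β₁) * (α₁ * β₃ - α₃ * β₁) *
    (α₂ * β₃ - α₃ * β₂) → rho (Bad3 α₁ β₁ α₂ β₂ α₃ β₃) p = 3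

/-- CLS (`theorem p_CLS (h1 : T_SVP) (h2 : T_RHO3) : T_CLS`). PROOF. `g = gcd a b`, `m = lcm a b`,
`g m = a b`, `m ≤ a b < n`. If `k ∈ KK` then `g ∣ k`, `g ∣ n - k`, so `g ∣ n`. Let `k₁ ∈ KK` (if `KK` is
empty the bound is trivial), `k₀ = k₁ % m`: over `ℤ`, `a ∣ k₀`, `b ∣ n - k₀`, and every `k ∈ KK` is
`≡ k₀ (mod m)`, `k = k₀ + m (t - 1)` with `t ∈ Ioc 0 T`, `T = n/m + 1`; `yv/2 ≤ T ≤ 2 n/m`
(`n/m ≥ n g/(ab) ≥ exp(L/l^4)`). With `α₁ = m/a`, `β₁ = (k₀ - m)/a`, `α₂ = -m/b`,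
`β₂ = (n - k₀ + m)/b` (exact divisions) one has `r = α₁ t + β₁`, `s = α₂ t + β₂`. With
`κ = 2 - 2φ(a) - φ(b)`, `α₃ = 2φ(a)α₁ + φ(b)α₂`, `β₃ = 2φ(a)β₁ + φ(b)β₂ + κ`:
`2 q(n,k) = 2φ(a)(r-1) + φ(b)(s-1) + 2 = α₃ t + β₃` (`r ∤ a`, `s ∤ b`; `φ(n-k)` is even since `s > 2`).
`N = 2 |α₁ α₂ α₃ (α₁β₂-α₂β₁)(α₁β₃-α₃β₁)(α₂β₃-α₃β₂)|` (`natAbs`). `N ≠ 0`:
`a b α₃ = m(2φ(a)b - φ(b)a) ≠ 0`; `a b(α₁β₂ - α₂β₁) = m n`;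
`a b (α₁β₃ - α₃β₁) = m(φ(b) n + κ b)` and `φ(b) n + κ b = φ(b)(n - b) + 2b - 2φ(a)b > 0` because
`b ≤ ab ≤ n/4`, `φ(a) b ≤ a b ≤ n/4`; `a b(α₂β₃ - α₃β₂) = -m(2φ(a) n + κ a)` and
`2φ(a)n + κ a = 2φ(a)(n - a) + 2a - φ(b)a > 0`. Sizes: all `|αᵢ|, |βᵢ| ≤ 7n^2`, so `N ≤ n^40`.
For a prime `p ≤ z3 < yv`, `p ∤ N` (so `p ≠ 2`): `p ∤ r`, `p ∤ s` (primes `≥ yv`), `p ∤ 2q` (`q` is a
prime `≥ r ≥ yv`), so `¬ Bad3`. The map `k ↦ t` is injective; apply T_SVP. -/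
def T_CLS : Prop := ∃ C : ℝ, 0 < C ∧ ∀ (n : ℕ) (L l : ℝ), Reg n L l → ∀ a b : ℕ, 1 ≤ a → 1 ≤ b →
  (a : ℝ) * b ≤ Real.exp (L - L / l ^ 4) → 2 * a.totient * b ≠ b.totient * a →
  (¬ Nat.gcd a b ∣ n → KK n L l a b = ∅) ∧
  ((KK n L l a b).card : ℝ) ≤ C * ((Nat.gcd a b : ℝ) * n / (a * b)) * l ^ 39 / L ^ 3

/-- FNS. PROOF. `∑_{m ∈ S} 1/m ≤ ∏_{p ∣ M} (1 - 1/p)⁻¹`: Mathlib
`EulerProduct.summable_and_hasSum_factoredNumbers_prod_filter_prime_geometric` with the completely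
multiplicative function `m ↦ 1/m` and the finite set `M.primeFactors` (compare
`Pool.Agent.TSP.smooth_sum` in Pool/Agent/TSP/Tools.lean, which does it for smooth numbers). Then
`Pool.Agent.TSP.prodH M M c` (with `z = M`): `∏_{p ∣ M} (1 - 1/p)⁻¹ ≤ exp(2(9 + 4 log c)) = e^18 c^8`,
`c = ⌈7 l⌉₊ ≤ 8 l`, where `M.primeFactors.card ≤ log M/log 2 ≤ 3 L ≤ 4·2^c`. -/
def T_FNS : Prop := ∃ C : ℝ, 0 < C ∧ ∀ (n : ℕ) (L l : ℝ), Reg n L l → ∀ M : ℕ, M ≠ 0 →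
  M ≤ n ^ 2 → ∀ S : Finset ℕ, (∀ m ∈ S, m ≠ 0 ∧ ∀ p : ℕ, p.Prime → p ∣ m → p ∣ M) →
  ∑ m ∈ S, 1 / (m : ℝ) ≤ C * l ^ 8

/-- GSM (`theorem p_GSM (h : T_FNS) : T_GSM`). PROOF. Write `a = g a'`, `b = g b'`, `g = gcd a b ∣ n`:
the term is `(1/g)(1/a')(1/b')`, and `(a, b) ↦ (g, a', b') ∈ n.divisors × Icc 1 n × Icc 1 n` is
injective, so the sum is `≤ (∑_{g ∣ n} 1/g)(∑_{j ≤ n} 1/j)^2 ≤ C l^8 (1 + L)^2 ≤ 4 C l^8 L^2`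
(T_FNS with `M = n`, `S = n.divisors`; `harmonic_le_one_add_log`). -/
def T_GSM : Prop := ∃ C : ℝ, 0 < C ∧ ∀ (n : ℕ) (L l : ℝ), Reg n L l →
  ∑ a ∈ Icc 1 n, ∑ b ∈ Icc 1 n,
    (if Nat.gcd a b ∣ n then (Nat.gcd a b : ℝ) / (a * b) else 0) ≤ C * l ^ 8 * L ^ 2

/-- RAD. PROOF. Adapt Pool/Agent/CRM/RAT.lean. There `RAT_key`: for disjoint finite sets `A`, `B` of
primes with `2 ∉ A`, `2 ∏_A (p-1) ∏_B p ≠ ∏_B (p-1) ∏_A p`. The same proof (the largest element of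
`A ∪ B` divides exactly one side) shows: for disjoint `A'`, `B`, not both empty,
`∏_A' (p-1) ∏_B p ≠ ∏_B (p-1) ∏_A' p`. With `A = primes(a) \ primes(b)`, `B = primes(b) \ primes(a)`
the equation `2φ(a)b = φ(b)a` becomes `2 ∏_A (p-1) ∏_B p = ∏_B (p-1) ∏_A p` (as in `p_RAT`); so `2 ∈ A`,
and removing `2` from `A` gives equality for `A' = A \ {2}` and `B`, hence `A' = ∅`, `A = {2}`. -/
def T_RAD : Prop := ∀ a b : ℕ, 0 < a → 0 < b → 2 * a.totient * b = b.totient * a →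
  ∀ p : ℕ, p.Prime → p ∣ a → p = 2 ∨ p ∣ b

/-- DEG (`theorem p_DEG (h : T_FNS) : T_DEG`). PROOF. `a ≤ n/r ≤ n/yv`; the number of `k` for given `a`
is at most `π(n/a) ≤ C (n/a)/log(n/a)` (Mathlib `Chebyshev.pi_le_log4_mul_div`, used in
Pool/Agent/TSP/Count.lean `card_RR_small`), and `log(n/a) ≥ log yv = L/l^4` (`x/log x` with
`x = n/a ≥ yv`; or bound `π(x) ≤ 8x/log x`). Sum over `a` in `S = {a ∈ Icc 1 n : p ∣ a → p ∣ 2n}`: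
T_FNS with `M = 2n ≤ n^2`. -/
def T_DEG : Prop := ∃ C : ℝ, 0 < C ∧ ∀ (n : ℕ) (L l : ℝ), Reg n L l →
  cnt (range n) (fun k => ∃ a r : ℕ, 0 < a ∧ r.Prime ∧ yv L l ≤ r ∧ k = a * r ∧
    ∀ p : ℕ, p.Prime → p ∣ a → p ∣ 2 * n) ≤ C * n * l ^ 12 / L

/-- SQF. PROOF. For `m ≥ yv` the number of `0 < k < n` with `m^2 ∣ k` is `≤ n/m^2`, the same for
`m^2 ∣ n - k` (`k ↦ n - k`). `∑_{m ≥ y} 1/m^2 ≤ 2/y` (`1/m^2 ≤ 1/(m-1) - 1/m`), so the set has at most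
`4 n/yv ≤ n/L` elements (`yv ≥ L^2 ≥ 4 L`, `Reg.pow_le_yv`). -/
def T_SQF : Prop := ∀ (n : ℕ) (L l : ℝ), Reg n L l →
  cnt (range n) (fun k => 0 < k ∧ ∃ p : ℕ, p.Prime ∧ yv L l ≤ p ∧
    (p ^ 2 ∣ k ∨ p ^ 2 ∣ n - k)) ≤ (n : ℝ) / L

/-- GOOD (`theorem p_GOOD (h1 : T_CLS) (h2 : T_GSM) (h3 : T_RAD) (h4 : T_DEG) (h5 : T_SQF) : T_GOOD`).
PROOF. Let `k ∈ good`, `r ∣ k`, `s ∣ n - k` as in the definition. `s ≤ n = exp L` gives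
`r ≥ exp(L/l^4) = yv`, also `s ≥ yv`. If `r^2 ∣ k` or `s^2 ∣ n - k`, `k` is in the set of T_SQF.
Otherwise `a = k/r`, `b = (n-k)/s` satisfy `r ∤ a`, `s ∤ b`, `a b = k(n-k)/(rs) ≤ n^2/exp(L + L/l^4) =
exp(L - L/l^4)`, so `k ∈ KK n L l a b`, `a, b ∈ Icc 1 n`. If `2φ(a)b = φ(b)a`, T_RAD: each prime `p ∣ a`
is `2` or divides `b`, hence divides `a r + b s = n`; so `p ∣ 2n` and `k` is in the set of T_DEG. If not,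
T_CLS: the sum over `(a, b)` of `card KK` is `≤ C n l^39/L^3 · (C' l^8 L^2)` (T_GSM). Total
`≤ n/L + C n l^12/L + C n l^47/L`. -/
def T_GOOD : Prop := ∃ C : ℝ, 0 < C ∧ ∀ (n : ℕ) (L l : ℝ), Reg n L l →
  ((good n L l).card : ℝ) ≤ C * n * l ^ 47 / L

/-! ## Part B: the `k` without such a pair -/

/-- PPW (`theorem p_PPW (h : T_MER) : T_PPW`). PROOF. `∑_{k<n} log k ≤ n log n`;
`∑_{k<n} om k = ∑_{p<n} log p ⌊(n-1)/p⌋ ≥ ∑_{p<n} log p (n/p - 2)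
≥ n (log n - C - 1) - 2 θ(n)`, with `θ(n) ≤ C n` (Chebyshev, Mathlib
`Chebyshev.theta_le_log4_mul_x`). -/
def T_PPW : Prop := ∃ C : ℝ, 0 < C ∧ ∀ n : ℕ, 1 ≤ n →
  ∑ k ∈ Ico 1 n, (Real.log k - om k) ≤ C * n

/-- TWO (`theorem p_TWO (h : T_MER) : T_TWO`). PROOF. The inner sum is over `s ≤ D/r`, so
`≤ (log r/r)(log(D/r) + C)` for `r ≤ D` (no term for `r > D`). For `r ≤ D`,
`log(D/r) ≤ #{j ∈ ℕ : log r ≤ j ≤ log D + 1}`, hence with `m = ⌊log D⌋₊ + 1`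
`∑_r (log r/r) log(D/r) ≤ ∑_{j ≤ m} ∑_{r ≤ e^j} log r/r ≤ ∑_{j ≤ m} (j + C) = m(m+1)/2 + C(m+1)
≤ (log D + 1)(log D + 2)/2 + C(log D + 2)`; and `∑_{r ≤ D} (log r/r) C ≤ C(log D + C)`. -/
def T_TWO : Prop := ∃ C : ℝ, 0 < C ∧ ∀ (D : ℝ) (M : ℕ), 1 ≤ D →
  ∑ r ∈ prs M (fun _ => True), ∑ s ∈ prs M (fun _ => True),
    (if (r : ℝ) * s ≤ D then Real.log r * Real.log s / (r * s) else 0) ≤
  (Real.log D) ^ 2 / 2 + C * Real.log D + C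

/-- CRT. PROOF. For primes `r ≠ s` the `k` with `r ∣ k`, `s ∣ n - k` lie in one residue class modulo
`rs`, and a class has at most `(n-1)/(rs) + 1` elements in `Ico 1 n` (`Nat.count_modEq_card` or
`Nat.Ioc_filter_modEq_card`). -/
def T_CRT : Prop := ∀ n r s : ℕ, r.Prime → s.Prime → r ≠ s →
  cnt (Ico 1 n) (fun k => r ∣ k ∧ s ∣ n - k) ≤ (n : ℝ) / (r * s) + 1

/-- LOW (`theorem p_LOW (h1 : T_TWO) (h2 : T_CRT) : T_LOW`). PROOF. Exchange the sums: with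
`D = exp(L - L/l^4)` it is `∑_{r,s < n, rs ≤ D} log r log s · #{k ∈ Ico 1 n : r ∣ k, s ∣ n - k}`. For
`r = s` the number is `0` unless `r ∣ n` and then `≤ n/r`; these terms give
`≤ n ∑_{r ∣ n} (log r)^2/r ≤ n · #primeFactors n ≤ 2 n L` (`(log r)^2 ≤ r`). For `r ≠ s` T_CRT:
`≤ n ∑_{rs ≤ D} log r log s/(rs) + ∑_{rs ≤ D} log r log s`; the first by T_TWO with
`log D ≤ L`, the second is `≤ L^2 · #{(r,s) : rs ≤ D} ≤ L^2 · D (1 + L) ≤ 2 L^3 n/yv ≤ n`. -/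
def T_LOW : Prop := ∃ C : ℝ, 0 < C ∧ ∀ (n : ℕ) (L l : ℝ), Reg n L l →
  wsum (fun r s => (r : ℝ) * s ≤ Real.exp (L - L / l ^ 4)) n ≤ n * (L ^ 2 / 2 + C * L)

/-- SML (`theorem p_SML (h : T_MER) : T_SML`). PROOF. `∑_{r ∣ k} log r = om k ≤ log k ≤ L`; for a prime
`s` the number of `k ∈ Ico 1 n` with `s ∣ n - k` is `≤ n/s`. So the sum is
`≤ L n ∑_{s ≤ exp(L/l)} log s/s ≤ L n (L/l + C) ≤ (1 + C) n L^2/l`. -/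
def T_SML : Prop := ∃ C : ℝ, 0 < C ∧ ∀ (n : ℕ) (L l : ℝ), Reg n L l →
  wsum (fun _ s => (s : ℝ) ≤ Real.exp (L / l)) n ≤ C * n * L ^ 2 / l

/-- MID (`theorem p_MID (h : T_MER) : T_MID`). PROOF. `∑_{s ∣ n-k} log s ≤ L`; the number of
`k ∈ Ico 1 n` with `r ∣ k` is `≤ n/r`. So the sum is `≤ L n ∑_{x < r ≤ x'} log r/r` with
`x = exp(L/2 - L/l)`, `x' = exp(L/2 + L/l)`, and this is `≤ L n (log x' - log x + 2C) =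
L n (2L/l + 2C)`. -/
def T_MID : Prop := ∃ C : ℝ, 0 < C ∧ ∀ (n : ℕ) (L l : ℝ), Reg n L l →
  wsum (fun r _ => Real.exp (L / 2 - L / l) < r ∧ (r : ℝ) ≤ Real.exp (L / 2 + L / l)) n ≤
    C * n * L ^ 2 / l

/-- SV1. PROOF. `Pool.Agent.TSP.brun` with `bd p t := (p:ℤ) ∣ α t + β`, `rho = 1` for the primes
`p ≤ z = ⌊z1 L l⌋₊`, `w = z`, `r = ⌈30 l⌉₊`. `∏ (1 - 1/p) ≤ 1/log(z+1) ≤ 250 l^2/L`
(`Pool.Agent.TSP.mertens`). `exp(-2r) ∏(1 + e/p) ≤ exp(-60 l + e(5 + 4(l + 1.1))) ≤ exp(-l) ≤ 1/L`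
(`Pool.Agent.Cyclic.sum_upto`, `Big.log_bet`, `Big.x_le`; as in T_SVP). `z^(2r) ∏(1 + 1/z) ≤
exp(62 l L/(250 l^2)) e^2 ≤ e^2 exp(L/(2 l)) ≤ 2 e^2 T exp(-L/(2 l)) ≤ 2 e^2 T/L`. -/
def T_SV1 : Prop := ∃ C : ℝ, 0 < C ∧ ∀ (n : ℕ) (L l : ℝ), Reg n L l → ∀ (T : ℕ) (α β : ℤ),
  Real.exp (L / l) / 2 ≤ T → (∀ p : ℕ, p.Prime → (p : ℝ) ≤ z1 L l → ¬ (p : ℤ) ∣ α) →
  cnt (Ioc 0 T) (fun t => ∀ p : ℕ, p.Prime → (p : ℝ) ≤ z1 L l →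
    ¬ (p : ℤ) ∣ α * t + β) ≤ C * T * l ^ 2 / L

/-- TAS (`theorem p_TAS (h : T_SV1) : T_TAS`). PROOF. `s ∤ a`: all `r` of the set are in one class
`r₀ (mod s)`, `r₀ < s`, `r = r₀ + s(t - 1)`, `t ∈ Ioc 0 T`, `T = ⌊n/(as)⌋ + 1` (`r < n/a`);
`exp(L/l) ≤ n/(as) ≤ T ≤ 2n/(as)`. Primes `p ≤ z1` do not divide `α = s` (a prime
`> exp(L/l) > z1`) nor the prime `r > z1`. Apply T_SV1 with `α = s`, `β = r₀ - s`. -/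
def T_TAS : Prop := ∃ C : ℝ, 0 < C ∧ ∀ (n : ℕ) (L l : ℝ), Reg n L l → ∀ a s : ℕ, 1 ≤ a →
  s.Prime → ¬ s ∣ a → Real.exp (L / l) < s → (a : ℝ) * s ≤ Real.exp (L - L / l) →
  cnt (range n) (fun r => r.Prime ∧ z1 L l < r ∧ a * r < n ∧ s ∣ n - a * r) ≤
    C * ((n : ℝ) / (a * s)) * l ^ 2 / L

/-- WIN (`theorem p_WIN (h : T_MER) : T_WIN`). PROOF. All primes `s` of the sum have `log s ≥ L/l`, so
it is `≤ (l/L) ∑ log s/s`, over the primes in `(u, v]`, `u = a exp(-L/l^4)`,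
`v = a L^2 exp(L/l^4) ≥ 1`; by T_MER (`0 < u`) this is `≤ (l/L)(log v - log u + 2C) =
(l/L)(2 l + 2 L/l^4 + 2C) ≤ C'/l^3` (`10^6 l^6 ≤ L`). -/
def T_WIN : Prop := ∃ C : ℝ, 0 < C ∧ ∀ (n : ℕ) (L l : ℝ), Reg n L l → ∀ a : ℕ, 1 ≤ a →
  ∑ s ∈ prs n (fun s => Real.exp (L / l) < s ∧ a * Real.exp (-(L / l ^ 4)) < s ∧
    (s : ℝ) ≤ a * L ^ 2 * Real.exp (L / l ^ 4)), 1 / (s : ℝ) ≤ C / l ^ 3

open Classical in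
/-- CNT (`theorem p_CNT (h1 : T_TAS) (h2 : T_WIN) : T_CNT`). PROOF. For a triple `(k, r, s)` put
`a = k/r`. Then `r ≤ n/a`, `s > exp(L - L/l^4)/r ≥ a exp(-L/l^4)`; `a r = k ≥ n/L^2`,
`s < exp(L + L/l^4)/r ≤ a L^2 exp(L/l^4)`; `a < n/r < exp(L/2 - L/l)`,
`s < exp(L + L/l^4)/r < exp(L/2 + L/l^4 - L/l)`, so `a s ≤ exp(L - 2L/l + L/l^4) ≤ exp(L - L/l)`
(`L/l^4 ≤ L/l`); `s ∤ a` since `s ∤ k`; `z1 L l < r`. So `r` is in the set of T_TAS for `(a, s)`, and `k`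
is determined by `(a, r)`. The number is `≤ ∑_{a ≤ n} ∑_s C (n/(as)) l^2/L ≤
C n (l^2/L) ∑_{a ≤ n} (1/a) C'/l^3 ≤ C C' n (l^2/L)(1 + L)/l^3 ≤ 2 C C' n/l` (T_WIN). -/
def T_CNT : Prop := ∃ C : ℝ, 0 < C ∧ ∀ (n : ℕ) (L l : ℝ), Reg n L l →
  ∑ k ∈ Ico 1 n, ∑ r ∈ k.primeFactors, ∑ s ∈ (n - k).primeFactors,
    (if (n : ℝ) / L ^ 2 ≤ k ∧ ¬ s ∣ k ∧ Real.exp (L / 2 + L / l) < r ∧
      Real.exp (L / l) < s ∧ Real.exp (L - L / l ^ 4) < (r : ℝ) * s ∧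
      (r : ℝ) * s < Real.exp (L + L / l ^ 4) then (1 : ℝ) else 0) ≤ C * n / l

/-- HIG (`theorem p_HIG (h : T_CNT) : T_HIG`). PROOF. `log r log s ≤ L^2`. (i) `k < n/L^2`: at most
`n/L^2` values of `k`, each with `ws ≤ om k · om (n-k) ≤ L^2`: total `≤ n`. (ii) `k ≥ n/L^2` and
`s ∣ k`: then `s ∣ n`; for given `s` at most `n/s` values of `k`, and for each `∑_r log r · log s ≤ L^2`;
at most `2L` primes `s ∣ n`: total `≤ 2 L · n exp(-L/l) L^2 ≤ n`. (iii) the rest: T_CNT times `L^2`. -/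
def T_HIG : Prop := ∃ C : ℝ, 0 < C ∧ ∀ (n : ℕ) (L l : ℝ), Reg n L l →
  wsum (fun r s => Real.exp (L / 2 + L / l) < r ∧ Real.exp (L / l) < s ∧
    Real.exp (L - L / l ^ 4) < (r : ℝ) * s ∧ (r : ℝ) * s < Real.exp (L + L / l ^ 4)) n ≤
    C * n * L ^ 2 / l

/-- STR (`theorem p_STR (h1 : T_SML) (h2 : T_MID) (h3 : T_HIG) : T_STR`). PROOF. Pairs with `s ≤ r`:
either `s ≤ exp(L/l)` (T_SML), or `r ≤ exp(L/2 + L/l)`, and then `r^2 ≥ rs > exp(L - L/l^4)` gives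
`r > exp(L/2 - L/l)` (T_MID), or both are larger (T_HIG). Pairs with `r < s`: the substitution
`k ↦ n - k` exchanges the roles of `r` and `s` (the condition is symmetric), so the sum over them is at
most the same bound. Total `≤ 2 (C₁ + C₂ + C₃) n L^2/l`. -/
def T_STR : Prop := ∃ C : ℝ, 0 < C ∧ ∀ (n : ℕ) (L l : ℝ), Reg n L l →
  wsum (fun r s => Real.exp (L - L / l ^ 4) < (r : ℝ) * s ∧
    (r : ℝ) * s < Real.exp (L + L / l ^ 4)) n ≤ C * n * L ^ 2 / l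

/-- BAD (`theorem p_BAD (h1 : T_PPW) (h2 : T_LOW) (h3 : T_STR) : T_BAD`). PROOF. For `k ∈ bad`:
`om k · om (n-k) = ws (rs ≤ exp(L - L/l^4)) + ws (strip)`, so by T_LOW, T_STR
`∑_{k ∈ bad} om k om (n-k) ≤ n(L^2/2 + C L + C L^2/l)`. Next
`log k log(n-k) - om k om(n-k) ≤ L (log k - om k) + L (log(n-k) - om(n-k))` (all of
`0 ≤ om ≤ log ≤ L`), whose sum over `0 < k < n` is `≤ 2 C L n` (T_PPW twice, `k ↦ n - k`). So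
`∑_{k ∈ bad} log k log(n-k) ≤ n(L^2/2 + C' L^2/l)` (`L ≤ L^2/l`). For `n/L ≤ k ≤ n - n/L` both
logarithms are `≥ L - l`, and `(L - l)^2 ≥ L^2 (1 - 2 l/L) ≥ L^2 (1 - 1/(100 l))`; the other `k` are at
most `2n/L + 2 ≤ n/l` in number. Hence `card bad ≤ n (1/2 + C'/l)/(1 - 1/(100 l)) + n/l ≤
(1/2 + C''/l) n`. -/
def T_BAD : Prop := ∃ C : ℝ, 0 < C ∧ ∀ (n : ℕ) (L l : ℝ), Reg n L l →
  ((bad n L l).card : ℝ) ≤ (1 / 2 + C / l) * n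

/-- FIN (`theorem p_FIN (h1 : T_REG) (h2 : T_GOOD) (h3 : T_BAD) : T_FIN`). PROOF. (1) For `n` large
`1/l^4 ≤ δ`, so the set is contained in `good`; for `n` below the threshold enlarge `C` (`log log n > 0`
for `n ≥ 16`). (2) The set is contained in `good ∪ bad`; `l → ∞` and `l^47/L → 0`. -/
def T_FIN : Prop :=
  (∀ δ : ℝ, 0 < δ → ∃ C : ℝ, 0 < C ∧ ∀ n : ℕ, 16 ≤ n →
    cnt (range (n - 2)) (fun k => 0 < k ∧ (qq n k).Prime ∧ ∃ r s : ℕ, r.Prime ∧ s.Prime ∧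
      r ∣ k ∧ s ∣ n - k ∧ (n : ℝ) ^ (1 + δ) ≤ (r : ℝ) * s) ≤
      C * n * (Real.log (Real.log n)) ^ 47 / Real.log n) ∧
  ∀ ε : ℝ, 0 < ε → ∃ n0 : ℕ, ∀ n : ℕ, n0 ≤ n →
    cnt (range (n - 2)) (fun k => 0 < k ∧ (qq n k).Prime) ≤ (1 / 2 + ε) * n

end Pool.Agent.TSU
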